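import Pool.Agent.U575.NC.Arith

/-! The Euler product at real distance `δ` from the line. -/

set_option autoImplicit false

open Complex Set Filter Topology
open scoped BigOperators

namespace Pool.Agent.U575.NC

open Pool.Agent.N879.QM
open Pool.Agent.N879.QM.Eul

noncomputable section

theorem even_gen {k : ℕ} (x : Fin k → ℂ) (hx : ∀ j, ‖x j‖ < 1) :
    (Summable fun v => ‖PowerSeries.coeff (2 * v) (∏ j, gs (x j))‖) ∧
    ∑' v, PowerSeries.coeff (2 * v) (∏ j, gs (x j)) =
      1 / 2 * ((∏ j, (1 - x j)⁻¹) + ∏ j, (1 + x j)⁻¹) := by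
  set F := ∏ j, gs (x j) with hF
  have hp := sm_prod Finset.univ (fun j => gs (x j)) fun j _ => (sm_gs (hx j)).1
  obtain ⟨h1, h2⟩ := hp
  have h2' : ev F = ∏ j, (1 - x j)⁻¹ := h2.trans (Finset.prod_congr rfl fun j _ => (sm_gs (hx j)).2)
  have hn := (sm_prod Finset.univ (fun j => gs (-x j)) fun j _ => (sm_gs (by rw [norm_neg]; exact hx j)).1).2
  have e : ∏ j, gs (-x j) = PowerSeries.rescale (-1 : ℂ) F := by
    rw [hF, map_prod]
    exact Finset.prod_congr rfl fun j _ => gs_neg _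
  rw [e] at hn
  have hneg : ∑' v, (-1 : ℂ) ^ v * PowerSeries.coeff v F = ∏ j, (1 + x j)⁻¹ := by
    unfold ev at hn
    simp only [PowerSeries.coeff_rescale] at hn
    rw [hn]
    refine Finset.prod_congr rfl fun j _ => ?_
    have := (sm_gs (x := -x j) (by rw [norm_neg]; exact hx j)).2
    unfold ev at this
    rw [this, sub_neg_eq_add]
  change Sm F at h1
  unfold Sm at h1
  unfold ev at h2'
  have he : Summable fun v => ‖PowerSeries.coeff (2 * v) F‖ :=
    Summable.comp_injective (f := fun v => ‖PowerSeries.coeff v F‖) h1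
      (i := fun v : ℕ => 2 * v) fun a b h => by
        simp only at h
        omega
  have ho : Summable fun v => ‖PowerSeries.coeff (2 * v + 1) F‖ :=
    Summable.comp_injective (f := fun v => ‖PowerSeries.coeff v F‖) h1
      (i := fun v : ℕ => 2 * v + 1) fun a b h => by
        simp only at h
        omega
  refine ⟨he, ?_⟩
  have h3 := tsum_even_add_odd (f := fun v => PowerSeries.coeff v F) he.of_norm ho.of_norm
  have h4 : ∑' v, (-1 : ℂ) ^ (2 * v) * PowerSeries.coeff (2 * v) F +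
      ∑' v, (-1 : ℂ) ^ (2 * v + 1) * PowerSeries.coeff (2 * v + 1) F =
      ∑' v, (-1 : ℂ) ^ v * PowerSeries.coeff v F := by
    refine tsum_even_add_odd (f := fun v => (-1 : ℂ) ^ v * PowerSeries.coeff v F) ?_ ?_
    · refine Summable.of_norm (he.congr fun v => ?_)
      rw [norm_mul, norm_pow, norm_neg, norm_one, one_pow, one_mul]
    · refine Summable.of_norm (ho.congr fun v => ?_)
      rw [norm_mul, norm_pow, norm_neg, norm_one, one_pow, one_mul]
  rw [hneg] at h4
  rw [h2'] at h3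
  have h5 : ∑' v, (-1 : ℂ) ^ (2 * v) * PowerSeries.coeff (2 * v) F = ∑' v, PowerSeries.coeff (2 * v) F :=
    tsum_congr fun v => by rw [pow_mul, neg_one_sq, one_pow, one_mul]
  have h6 : ∑' v, (-1 : ℂ) ^ (2 * v + 1) * PowerSeries.coeff (2 * v + 1) F =
      -∑' v, PowerSeries.coeff (2 * v + 1) F := by
    rw [← tsum_neg]
    exact tsum_congr fun v => by rw [pow_succ, pow_mul, neg_one_sq, one_pow, one_mul]; ring
  rw [h5, h6] at h4
  rw [← h3, ← h4]
  ring

/-- the shifts -/
def zz (δ : ℝ) {k : ℕ} (β : Fin k → ℝ) : Fin k → ℂ := fun j => (δ : ℂ) + I * (β j : ℂ)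

lemma gs_rescale (y a : ℂ) : PowerSeries.rescale y (gs a) = gs (y * a) := by
  unfold gs
  rw [PowerSeries.rescale_mk]
  congr 1
  funext v
  rw [mul_pow]

lemma li_rescale (y a : ℂ) : PowerSeries.rescale y (li a) = li (y * a) := by
  ext v
  rw [PowerSeries.coeff_rescale, coeff_li, coeff_li]
  rcases v with - | - | v
  · simp
  · simp
  · simp

/-- `p ^ (-δ)` -/
def yd (δ : ℝ) (p : ℕ) : ℂ := (p : ℂ) ^ (-(δ : ℂ))

lemma yd_norm {δ : ℝ} (hδ : 0 ≤ δ) {p : ℕ} (hp : p.Prime) : ‖yd δ p‖ ≤ 1 := by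
  unfold yd
  rw [Complex.norm_natCast_cpow_of_pos hp.pos]
  simp only [neg_re, ofReal_re]
  exact Real.rpow_le_one_of_one_le_of_nonpos (by exact_mod_cast hp.one_lt.le) (by linarith)

lemma yx_lt {k : ℕ} (β : Fin k → ℝ) {δ : ℝ} (hδ : 0 ≤ δ) {p : ℕ} (hp : p.Prime) (j : Fin k) :
    ‖yd δ p * xx β p j‖ < 1 := by
  rw [norm_mul, norm_xx β hp]
  have := rt_lt hp
  have h2 := yd_norm hδ hp
  have h3 : 0 < (p : ℝ) ^ (-(1 / 2) : ℝ) := Real.rpow_pos_of_pos (by exact_mod_cast hp.pos) _
  nlinarith [norm_nonneg (yd δ p)]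

theorem sm_G2 {k : ℕ} (β : Fin k → ℝ) {δ : ℝ} (hδ : 0 ≤ δ) {p : ℕ} (hp : p.Prime) :
    Sm (PowerSeries.rescale (yd δ p ^ 2) (G β p)) ∧ ev (PowerSeries.rescale (yd δ p ^ 2) (G β p)) =
      (1 / 2 * ((∏ j, (1 - yd δ p * xx β p j)⁻¹) + ∏ j, (1 + yd δ p * xx β p j)⁻¹) +
      1 / (p : ℂ)) * (1 + 1 / (p : ℂ))⁻¹ := by
  obtain ⟨h1, h2⟩ := even_gen (fun j => yd δ p * xx β p j) (fun j => yx_lt β hδ hp j)
  set F := ∏ j, gs (yd δ p * xx β p j) with hF
  have hFr : F = PowerSeries.rescale (yd δ p) (H β p) := by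
    rw [hF]
    unfold H
    rw [map_prod]
    exact Finset.prod_congr rfl fun j _ => (gs_rescale _ _).symm
  have hco : ∀ v, PowerSeries.coeff v (PowerSeries.rescale (yd δ p ^ 2) (G β p)) =
      ((p : ℂ) / (p + 1)) * PowerSeries.coeff (2 * v) F + (if v = 0 then 1 - (p : ℂ) / (p + 1) else 0) := by
    intro v
    rw [PowerSeries.coeff_rescale, coeff_G β hp, hFr, PowerSeries.coeff_rescale, pow_mul]
    rcases Nat.eq_zero_or_pos v with h | h
    · subst h
      simp
    · rw [if_neg (by omega)]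
      ring
  have h0 : Summable fun v : ℕ => ‖(if v = 0 then 1 - (p : ℂ) / (p + 1) else 0 : ℂ)‖ := by
    refine summable_of_ne_finset_zero (s := Finset.range 1) fun v hv => ?_
    rw [if_neg, norm_zero]
    intro h
    exact hv (by rw [h]; simp)
  have h3 : Summable fun v => ‖((p : ℂ) / (p + 1)) * PowerSeries.coeff (2 * v) F‖ := by
    simp only [norm_mul]
    exact h1.mul_left _
  unfold Sm ev
  simp only [hco]
  constructor
  · exact Summable.of_nonneg_of_le (fun _ => norm_nonneg _) (fun v => norm_add_le _ _) (h3.add h0)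
  · rw [Summable.tsum_add h3.of_norm h0.of_norm, tsum_mul_left, h2, tsum_ite_eq]
    have hp0 : (p : ℂ) ≠ 0 := by exact_mod_cast hp.ne_zero
    have hp1 : (p : ℂ) + 1 ≠ 0 := by exact_mod_cast Nat.succ_ne_zero p
    have e : (1 + 1 / (p : ℂ)) = (p + 1) / p := by field_simp
    rw [e, inv_div]
    field_simp
    ring

theorem sm_Mu2 {k : ℕ} (β : Fin k → ℝ) (x : ℂ) (p : ℕ) :
    Sm (PowerSeries.rescale x (Mu β p)) ∧ ev (PowerSeries.rescale x (Mu β p)) = ∏ r, (1 - x * yy β p r) := by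
  have e : PowerSeries.rescale x (Mu β p) = ∏ r, li (x * yy β p r) := by
    unfold Mu
    rw [map_prod]
    exact Finset.prod_congr rfl fun r _ => li_rescale _ _
  rw [e]
  have h := sm_prod Finset.univ (fun r => li (x * yy β p r)) fun r _ => (sm_li _).1
  refine ⟨h.1, h.2.trans ?_⟩
  exact Finset.prod_congr rfl fun r _ => (sm_li _).2

/-- the local identity -/
theorem local_id2 {k : ℕ} (β : Fin k → ℝ) {δ : ℝ} (hδ : 0 ≤ δ) {p : ℕ} (hp : p.Prime) :
    ∑' v, al β (p ^ v) * (yd δ p ^ 2) ^ v = loc (zz δ β) p := by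
  have hpC : (p : ℂ) ≠ 0 := by exact_mod_cast hp.ne_zero
  have h := (sm_G2 β hδ hp).1.mul (sm_Mu2 β (yd δ p ^ 2) p).1
  have e : ev (PowerSeries.rescale (yd δ p ^ 2) (bell p (al β))) = ∑' v, al β (p ^ v) * (yd δ p ^ 2) ^ v := by
    unfold ev bell
    refine tsum_congr fun v => ?_
    rw [PowerSeries.coeff_rescale, PowerSeries.coeff_mk, mul_comm]
  rw [← e, bell_al β hp, map_mul, h.2, (sm_G2 β hδ hp).2, (sm_Mu2 β _ p).2]
  unfold loc
  have e1 : ∀ r : Pr k, (p : ℂ) ^ (-(1 + zz δ β r.1.1 + zz δ β r.1.2)) = yd δ p ^ 2 * yy β p r := fun r => by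
    unfold yy pp zz yd
    rw [← Complex.cpow_nat_mul, ← Complex.cpow_add _ _ hpC]
    congr 1
    push_cast
    ring
  have e2 : ∀ j : Fin k, (p : ℂ) ^ (-(1 / 2 + zz δ β j)) = yd δ p * xx β p j := fun j => by
    unfold xx sx pt zz yd
    rw [← Complex.cpow_add _ _ hpC]
    congr 1
    ring
  simp only [e1, e2]
  ring

/-- the twisted function -/
def alx (δ : ℝ) {k : ℕ} (β : Fin k → ℝ) : ArithmeticFunction ℂ := (al β).pmul (pw (-(2 * (δ : ℂ))))

lemma alx_apply (δ : ℝ) {k : ℕ} (β : Fin k → ℝ) (n : ℕ) : alx δ β n = LSeries.term (al β ·) (2 * δ) n := by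
  unfold alx
  rw [ArithmeticFunction.pmul_apply]
  rcases Nat.eq_zero_or_pos n with h | h
  · subst h
    simp
  · rw [pw_apply _ (by omega), LSeries.term_of_ne_zero (by omega), cpow_neg, div_eq_mul_inv]

lemma alx_le {δ : ℝ} (hδ : 0 ≤ δ) {k : ℕ} (β : Fin k → ℝ) (n : ℕ) : ‖alx δ β n‖ ≤ ‖al β n‖ := by
  unfold alx
  rw [ArithmeticFunction.pmul_apply, norm_mul]
  rcases Nat.eq_zero_or_pos n with h | h
  · subst h
    simp
  · rw [pw_apply _ (by omega), norm_natCast_cpow_of_pos h]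
    have e : (-(2 * (δ : ℂ))).re = -(2 * δ) := by simp
    rw [e]
    have : (n : ℝ) ^ (-(2 * δ)) ≤ 1 := Real.rpow_le_one_of_one_le_of_nonpos (by exact_mod_cast h) (by linarith)
    nlinarith [norm_nonneg (al β n)]

lemma alx_summable {δ : ℝ} (hδ : 0 ≤ δ) {k : ℕ} (β : Fin k → ℝ) : Summable fun n => ‖alx δ β n‖ :=
  Summable.of_nonneg_of_le (fun _ => norm_nonneg _) (alx_le hδ β) (al_summable β)

/-- the Euler product -/
theorem Ak_eq2 {δ : ℝ} (hδ : 0 ≤ δ) {k : ℕ} (β : Fin k → ℝ) : Ak (zz δ β) = LSeries (al β ·) (2 * δ) := by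
  have h := ((al_mult β).pmul (pw_mult (-(2 * (δ : ℂ))))).eulerProduct_hasProd (alx_summable hδ β)
  have e : LSeries (al β ·) (2 * δ) = ∑' n, alx δ β n := by
    unfold LSeries
    exact tsum_congr fun n => (alx_apply δ β n).symm
  rw [e]
  unfold Ak
  change _ = ∑' n, ((al β).pmul (pw (-(2 * (δ : ℂ))))) n
  rw [← h.tprod_eq]
  refine tprod_congr fun p => ?_
  rw [← local_id2 β hδ p.2]
  refine tsum_congr fun v => ?_
  rw [ArithmeticFunction.pmul_apply, pw_apply _ (pow_ne_zero v p.2.ne_zero), pw_pow]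
  congr 2
  unfold yd
  rw [← Complex.cpow_nat_mul]
  congr 1
  push_cast
  ring

lemma pw_series {s u : ℂ} (h : 1 < (u - s).re) : LSeriesHasSum (pw s ·) u (riemannZeta (u - s)) := by
  have h1 := tw_hasSum (1 : DirichletCharacter ℂ 1) (k := 0) (fun j => Fin.elim0 j) (fun j => Fin.elim0 j) h
  have h2 : LSeriesHasSum 1 (u - s) (riemannZeta (u - s)) := LSeriesHasSum_one h
  unfold LSeriesHasSum at h2 ⊢
  convert h2 using 1
  funext n
  rcases Nat.eq_zero_or_pos n with h | h
  · subst h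
    simp
  · rw [LSeries.term_of_ne_zero (by omega), LSeries.term_of_ne_zero (by omega), pw_apply _ (by omega),
      cpow_sub _ _ (by exact_mod_cast h.ne')]
    have h4 : (n : ℂ) ^ s ≠ 0 := by
      rw [cpow_ne_zero_iff]
      left
      exact_mod_cast h.ne'
    simp only [Pi.one_apply]
    field_simp

lemma prod_series {ι : Type} (S : Finset ι) (f : ι → ArithmeticFunction ℂ) (a : ι → ℂ) (u : ℂ)
    (h : ∀ i ∈ S, LSeriesHasSum (f i ·) u (a i)) :
    LSeriesHasSum ((∏ i ∈ S, f i : ArithmeticFunction ℂ) ·) u (∏ i ∈ S, a i) := by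
  classical
  induction S using Finset.induction_on with
  | empty =>
    rw [Finset.prod_empty, Finset.prod_empty]
    have h := tw_hasSum (1 : DirichletCharacter ℂ 1) (k := 0) (fun j => Fin.elim0 j) (fun j => Fin.elim0 j) (z := 2)
      (by norm_num)
    unfold LSeriesHasSum
    have h := hasSum_single (f := LSeries.term (fun n => (1 : ArithmeticFunction ℂ) n) u) 1 (fun n hn => by
        rcases Nat.eq_zero_or_pos n with h | h
        · subst h
          simp
        · rw [LSeries.term_of_ne_zero (by omega), ArithmeticFunction.one_apply_ne hn, zero_div])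
    have h2 : LSeries.term (fun n => (1 : ArithmeticFunction ℂ) n) u 1 = 1 := by
      rw [LSeries.term_of_ne_zero one_ne_zero]
      simp
    rwa [h2] at h
  | insert i S hi ih =>
    rw [Finset.prod_insert hi, Finset.prod_insert hi]
    exact ArithmeticFunction.LSeriesHasSum_mul (h i (Finset.mem_insert_self i S))
      (ih fun j hj => h j (Finset.mem_insert_of_mem hj))

/-- **the main term** -/
theorem MT_eq {δ : ℝ} (hδ : 0 < δ) {k : ℕ} (β : Fin k → ℝ) : MT (zz δ β) = Mser β (2 * δ) := by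
  have h1 : LSeriesHasSum (al β ·) (2 * δ) (Ak (zz δ β)) := by
    rw [Ak_eq2 hδ.le β]
    have hs : LSeriesSummable (al β ·) (2 * δ) := by
      have := (alx_summable hδ.le β).of_norm
      have e : LSeries.term (al β ·) (2 * δ) = fun n => alx δ β n := funext fun n => (alx_apply δ β n).symm
      unfold LSeriesSummable
      rw [e]
      exact this
    exact hs.LSeriesHasSum
  have h2 := prod_series Finset.univ (fun r : Pr k => pw (-(pp β r)))
    (fun r => riemannZeta (2 * δ - -(pp β r))) (2 * δ) (fun r _ => pw_series (by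
      unfold pp
      simp
      linarith))
  have h3 := ArithmeticFunction.LSeriesHasSum_mul h1 h2
  rw [← gA_eq] at h3
  unfold Mser MT
  rw [h3.LSeries_eq]
  congr 1
  refine Finset.prod_congr rfl fun r _ => ?_
  congr 1
  unfold zz pp
  ring

/-- continuity of the Euler product at the line -/
theorem Ak_tendsto {k : ℕ} (β : Fin k → ℝ) {δ : ℝ → ℝ} (h0 : ∀ᶠ X in atTop, 0 ≤ δ X)
    (h : Tendsto δ atTop (𝓝 0)) : Tendsto (fun X => Ak (zz (δ X) β)) atTop (𝓝 (Ak (im β))) := by
  have e : ∀ᶠ X in atTop, Ak (zz (δ X) β) = ∑' n, alx (δ X) β n := by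
    filter_upwards [h0] with X hX
    rw [Ak_eq2 hX β]
    unfold LSeries
    exact tsum_congr fun n => (alx_apply _ β n).symm
  rw [Eul.Ak_eq]
  refine Tendsto.congr' (e.mono fun _ h => h.symm) ?_
  refine tendsto_tsum_of_dominated_convergence (al_summable β) ?_ ?_
  · intro n
    rcases Nat.eq_zero_or_pos n with hn | hn
    · subst hn
      simp
    · have hn0 : (n : ℂ) ≠ 0 := by exact_mod_cast hn.ne'
      have e2 : ∀ X, alx (δ X) β n = al β n * (n : ℂ) ^ (-(2 * (δ X : ℂ))) := by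
        intro X
        unfold alx
        rw [ArithmeticFunction.pmul_apply, pw_apply _ (by omega)]
      simp only [e2]
      have h3 : Tendsto (fun X => (n : ℂ) ^ (-(2 * (δ X : ℂ)))) atTop (𝓝 ((n : ℂ) ^ (0 : ℂ))) := by
        refine Tendsto.const_cpow ?_ (Or.inl hn0)
        have h4 : Tendsto (fun X => ((δ X : ℝ) : ℂ)) atTop (𝓝 ((0 : ℝ) : ℂ)) :=
          (Complex.continuous_ofReal.tendsto 0).comp h
        have h5 := (h4.const_mul 2).neg
        simpa using h5
      rw [cpow_zero] at h3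
      have h6 := h3.const_mul (al β n)
      rwa [mul_one] at h6
  · filter_upwards [h0] with X hX
    intro n
    exact alx_le hX β n

end

end Pool.Agent.U575.NC
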