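import Pool.Agent.U575.NC.Tf
import Pool.Agent.U575.NC.Eul2
import Mathlib.Order.Interval.Finset.Fin

/-! The limit near the centre, and the passage to the characters. -/

set_option autoImplicit false

open Complex Set Filter Topology MeasureTheory

namespace Pool.Agent.U575.NC

open Pool.Agent.N879.QM
open Pool.Agent.N879.QM.Eul

noncomputable section

/-- products over pairs -/
lemma prod_pairs {k : ℕ} {M : Type} [CommMonoid M] (f : Fin k → Fin k → M) :
    ∏ r : Pr k, f r.1.1 r.1.2 = ∏ i, ∏ j ∈ Finset.Ici i, f i j := by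
  classical
  rw [Finset.prod_sigma' Finset.univ (fun i : Fin k => Finset.Ici i) (fun i j => f i j)]
  refine Finset.prod_bij (fun (r : Pr k) _ => (⟨r.1.1, r.1.2⟩ : (i : Fin k) × Fin k)) ?_ ?_ ?_ ?_
  · intro r _
    simp only [Finset.mem_sigma, Finset.mem_univ, true_and, Finset.mem_Ici]
    exact r.2
  · intro a _ b _ h
    simp only [Sigma.mk.injEq, heq_eq_eq] at h
    exact Subtype.ext (Prod.ext h.1 h.2)
  · rintro ⟨i, j⟩ h
    simp only [Finset.mem_sigma, Finset.mem_univ, true_and, Finset.mem_Ici] at h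
    exact ⟨⟨(i, j), h⟩, Finset.mem_univ _, rfl⟩
  · intro r _
    rfl

lemma R_eq (k : ℕ) : R k = k * (k + 1) / 2 := by
  have h1 : (2 : ℕ) ^ R k = 2 ^ (k * (k + 1) / 2) := by
    have h2 : ∏ _r : Pr k, (2 : ℕ) = 2 ^ R k := by
      rw [Finset.prod_const, Finset.card_univ]
      rfl
    rw [← h2, prod_pairs (fun _ _ => (2 : ℕ))]
    simp only [Finset.prod_const, Fin.card_Ici]
    rw [Finset.prod_pow_eq_pow_sum]
    congr 1
    rw [Fin.sum_univ_eq_sum_range (fun i => k - i) k]
    have h3 := Finset.sum_range_reflect (fun j => j + 1) k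
    have h4 : ∑ j ∈ Finset.range k, (k - 1 - j + 1) = ∑ i ∈ Finset.range k, (k - i) := by
      refine Finset.sum_congr rfl fun i hi => ?_
      have := Finset.mem_range.1 hi
      omega
    rw [← h4, h3]
    have h5 := Finset.sum_range_id_mul_two (k + 1)
    rw [Finset.sum_range_succ'] at h5
    have h6 : (∑ i ∈ Finset.range k, (i + 1) + 0) * 2 = (k + 1) * (k + 1 - 1) := h5
    rw [add_zero, Nat.add_sub_cancel] at h6
    have h7 : k * (k + 1) = (∑ i ∈ Finset.range k, (i + 1)) * 2 := by rw [h6]; ring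
    rw [h7, Nat.mul_div_cancel _ (by norm_num)]
  exact Nat.pow_right_injective (le_refl 2) h1

/-- **the limit near the centre** -/
theorem lim_near {V : ℝ → ℝ} (hV : ∀ᶠ X in atTop, Real.log X ≤ V X) {s : ℤ} {k : ℕ} (h : AsyM V s k) :
    ∃ C : ℝ, 0 < C ∧ ∀ δ : ℝ → ℝ, (∀ᶠ X in atTop, C * Real.log (V X) / Real.log X ≤ δ X) →
      Tendsto δ atTop (𝓝 0) →
      Tendsto (fun X : ℝ => (((2 * δ X) ^ (k * (k + 1) / 2) / X : ℝ) : ℂ) *
        ∑ q ∈ Q s X, LL s q (1 / 2 + δ X) ^ k) atTop (𝓝 ((c0 : ℂ) * Ak (fun _ : Fin k => 0))) := by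
  obtain ⟨C, X0, hC, hA⟩ := h 1 one_pos
  refine ⟨C, hC, fun δ hδ hδ0 => ?_⟩
  rw [← R_eq k]
  obtain ⟨X3, hX3⟩ := big hV 3
  set β : Fin k → ℝ := fun _ => 0 with hβ
  -- facts
  have hpos : ∀ᶠ X in atTop, 0 < δ X ∧ C * Real.log (Real.log X) ≤ δ X * Real.log X := by
    filter_upwards [hδ, eventually_ge_atTop X3] with X h1 h2
    obtain ⟨h3, h4, h5⟩ := hX3 X h2
    have hl : 0 < Real.log X := by linarith
    have hlv : Real.log (Real.log X) ≤ Real.log (V X) := Real.log_le_log hl h5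
    have hv : 0 < Real.log (V X) := Real.log_pos (by linarith)
    rw [div_le_iff₀ hl] at h1
    refine ⟨?_, (mul_le_mul_of_nonneg_left hlv hC.le).trans h1⟩
    have : 0 < δ X * Real.log X := lt_of_lt_of_le (by positivity) h1
    exact (pos_iff_pos_of_mul_pos this).2 hl
  -- the main term
  have hmain : Tendsto (fun X : ℝ => (c0 : ℂ) * (Ak (zz (δ X) β) *
      (((2 * δ X : ℝ) : ℂ) * riemannZeta (1 + 2 * δ X)) ^ R k)) atTop (𝓝 ((c0 : ℂ) * Ak (fun _ : Fin k => 0))) := by
    have h1 := Ak_tendsto β (hpos.mono fun X h => h.1.le) hδ0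
    have e1 : im β = fun _ : Fin k => 0 := by
      funext j
      simp [Pool.Agent.N879.QM.im, hβ]
    rw [e1] at h1
    have h2 : Tendsto (fun X : ℝ => ((2 * δ X : ℝ) : ℂ) * riemannZeta (1 + 2 * δ X)) atTop (𝓝 1) := by
      have h3 : Tendsto (fun X : ℝ => (1 + 2 * (δ X : ℂ))) atTop (𝓝[≠] 1) := by
        rw [tendsto_nhdsWithin_iff]
        constructor
        · have h4 : Tendsto (fun X => ((δ X : ℝ) : ℂ)) atTop (𝓝 ((0 : ℝ) : ℂ)) :=
            (Complex.continuous_ofReal.tendsto 0).comp hδ0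
          have h5 := (h4.const_mul 2).const_add 1
          simpa using h5
        · filter_upwards [hpos] with X hX
          intro h6
          have h7 := congrArg Complex.re h6
          simp at h7
          linarith [hX.1]
      have h8 := riemannZeta_residue_one.comp h3
      refine h8.congr fun X => ?_
      simp only [Function.comp]
      push_cast
      ring
    have h9 := (h1.mul (h2.pow (R k))).const_mul (c0 : ℂ)
    simpa using h9
  -- the error
  have herr : Tendsto (fun X : ℝ => (((2 * δ X) ^ R k / X : ℝ) : ℂ) *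
      ((∑ q ∈ Q s X, LL s q (1 / 2 + δ X) ^ k) - ((c0 * X : ℝ) : ℂ) * MT (zz (δ X) β))) atTop (𝓝 0) := by
    rw [tendsto_zero_iff_norm_tendsto_zero]
    have hexp : Tendsto (fun X : ℝ => Real.exp (-(C / 100 * Real.log (Real.log X)))) atTop (𝓝 0) := by
      apply Real.tendsto_exp_neg_atTop_nhds_zero.comp
      exact (Real.tendsto_log_atTop.comp Real.tendsto_log_atTop).const_mul_atTop (by positivity)
    refine squeeze_zero' (Eventually.of_forall fun X => norm_nonneg _) ?_ hexp
    have hsm : ∀ᶠ X in atTop, δ X < 1 / 16 := hδ0.eventually_lt_const (by norm_num)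
    filter_upwards [hδ, hpos, hsm, eventually_ge_atTop X0, eventually_ge_atTop X3] with X h1 h2 h3 h4 h5
    obtain ⟨g3, -, -⟩ := hX3 X h5
    have hX0 : 0 < X := by linarith
    have h6 := hA X h4 (δ X) h1 h3.le β (fun j => by simp [hβ])
    rw [← MT_eq h2.1 β] at h6
    have e1 : ∑ q ∈ Q s X, PP s q β (1 / 2 + δ X) = ∑ q ∈ Q s X, LL s q (1 / 2 + δ X) ^ k := by
      refine Finset.sum_congr rfl fun q _ => ?_
      unfold PP
      simp [hβ]
    rw [e1] at h6
    rw [norm_mul, Complex.norm_real, Real.norm_eq_abs, abs_of_nonneg (by have := h2.1; positivity)]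
    have h7 : (2 * δ X) ^ R k ≤ 1 := pow_le_one₀ (by linarith [h2.1]) (by linarith)
    calc (2 * δ X) ^ R k / X * _ ≤ 1 / X * X ^ (1 - δ X / 100) :=
          mul_le_mul (div_le_div_of_nonneg_right h7 hX0.le) h6 (norm_nonneg _) (by positivity)
      _ = X ^ (-(δ X / 100)) := by
          rw [sub_eq_add_neg, Real.rpow_add hX0, Real.rpow_one]
          field_simp
      _ = Real.exp (-(δ X * Real.log X / 100)) := by
          rw [Real.rpow_def_of_pos hX0]
          congr 1
          ring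
      _ ≤ _ := by
          apply Real.exp_le_exp.2
          linarith [h2.2]
  have hsum := herr.add hmain
  rw [zero_add] at hsum
  refine hsum.congr' ?_
  filter_upwards [hpos, eventually_ge_atTop X3] with X h2 h5
  obtain ⟨g3, -, -⟩ := hX3 X h5
  have hX0 : (X : ℂ) ≠ 0 := by
    have : X ≠ 0 := by linarith
    exact_mod_cast this
  have e2 : MT (zz (δ X) β) = Ak (zz (δ X) β) * riemannZeta (1 + 2 * δ X) ^ R k := by
    unfold MT
    congr 1
    have : ∀ r : Pr k, riemannZeta (1 + zz (δ X) β r.1.1 + zz (δ X) β r.1.2) = riemannZeta (1 + 2 * δ X) := by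
      intro r
      congr 1
      simp only [zz, hβ]
      push_cast
      ring
    simp only [this]
    rw [Finset.prod_const, Finset.card_univ]
    rfl
  rw [e2]
  push_cast
  field_simp
  ring

/-! ### The characters -/

/-- the members of the family -/
def chs (s : ℤ) (q : ℕ) : Set (DirichletCharacter ℂ q) := {χ | χ.IsPrimitive ∧ χ ^ 2 = 1 ∧ χ (-1) = (s : ℂ)}

lemma ne_one_of_prim {q : ℕ} (hq : 2 ≤ q) {χ : DirichletCharacter ℂ q} (h : χ.IsPrimitive) : χ ≠ 1 := by
  intro h1
  rw [h1] at h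
  have h2 : (1 : DirichletCharacter ℂ q).conductor = q := h
  have : NeZero q := ⟨by omega⟩
  rw [DirichletCharacter.conductor_one] at h2
  omega

lemma ch_sp {s : ℤ} {q : ℕ} (h : Is s q) : Rp s (ch s q) := by
  unfold ch
  rw [dif_pos h]
  exact h.2.choose_spec

lemma chs_eq {s : ℤ} {q : ℕ} (h : Is s q) : chs s q = {ch s q} := by
  ext χ
  simp only [chs, mem_setOf_eq, mem_singleton_iff]
  constructor
  · rintro ⟨h1, h2, h3⟩
    exact t_UNI s q χ (ch s q) (by have := h.1; omega) ⟨h1, h2, ne_one_of_prim h.1 h1, h3⟩ (ch_sp h)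
  · rintro rfl
    exact ⟨(ch_sp h).1, (ch_sp h).2.1, (ch_sp h).2.2.2⟩

lemma chs_empty {s : ℤ} {q : ℕ} (hq : 2 ≤ q) (h : ¬ Is s q) : chs s q = ∅ := by
  ext χ
  simp only [chs, mem_setOf_eq, mem_empty_iff_false, iff_false]
  rintro ⟨h1, h2, h3⟩
  exact h ⟨hq, χ, h1, h2, ne_one_of_prim hq h1, h3⟩

lemma fam_sum {E : Type} [AddCommMonoid E] (s : ℤ) (X : ℝ) (f : (q : ℕ) → DirichletCharacter ℂ q → E) :
    ∑ q ∈ Finset.Ico 2 ⌈X⌉₊, ∑ᶠ χ ∈ chs s q, f q χ = ∑ q ∈ Q s X, f q (ch s q) := by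
  classical
  unfold Q
  rw [Finset.sum_filter]
  refine Finset.sum_congr rfl fun q hq => ?_
  have hq2 : 2 ≤ q := (Finset.mem_Ico.1 hq).1
  split_ifs with h
  · rw [chs_eq h, finsum_mem_singleton]
  · rw [chs_empty hq2 h, finsum_mem_empty]

end

end Pool.Agent.U575.NC
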