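import Pool.Agent.U575.NC.Wt

/-! Moving moments between vertical lines. -/

set_option autoImplicit false

open Complex Set Filter Topology MeasureTheory

namespace Pool.Agent.U575.NC

open Pool.Agent.N879.QM

noncomputable section

/-- one L-function between two lines -/
lemma one_step {s : ℤ} {q : ℕ} (hI : Is s q) (m : ℕ) {σ a b l K t : ℝ} (hK : 0 < K) (ha : a < 0) (hb : 0 < b)
    (hσ : -1 / 4 ≤ σ + a) :
    ‖LL s q (σ + t * I)‖ ^ m ≤
      Real.exp (l * b + K * b ^ 2) / |b| *
        (∫ y : ℝ, ‖LL s q ((σ + b : ℝ) + (t + y : ℝ) * I)‖ ^ m * Real.exp (-K * y ^ 2)) +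
      Real.exp (l * a + K * a ^ 2) / |a| *
        ∫ y : ℝ, ‖LL s q ((σ + a : ℝ) + (t + y : ℝ) * I)‖ ^ m * Real.exp (-K * y ^ 2) := by
  obtain ⟨G, hG1, hG⟩ := growth
  have hG0 : 0 < G := by linarith
  set f : ℂ → ℂ := fun z => LL s q z ^ m with hf
  have hfd : Differentiable ℂ f := (LL_diff hI).pow m
  set z0 : ℂ := σ + t * I with hz0
  have hre : z0.re = σ := by simp [hz0]
  have him : z0.im = t := by simp [hz0]
  have hg : ∀ z : ℂ, -1 / 4 ≤ z.re → ‖f (z0 + (z - z0))‖ ≤ (G * q * (1 + |t|)) ^ m * (1 + |(z - z0).im|) ^ m := by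
    intro z hz
    rw [add_sub_cancel]
    simp only [hf]
    rw [norm_pow, ← mul_pow]
    refine pow_le_pow_left₀ (norm_nonneg _) ?_ m
    have h1 := hG s q hI z hz
    have h2 : z.im = t + (z - z0).im := by
      rw [sub_im, him]
      ring
    have h3 : 1 + |z.im| ≤ (1 + |t|) * (1 + |(z - z0).im|) := by
      rw [h2]
      have := abs_add_le t (z - z0).im
      nlinarith [abs_nonneg t, abs_nonneg (z - z0).im, mul_nonneg (abs_nonneg t) (abs_nonneg (z - z0).im)]
    calc ‖LL s q z‖ ≤ G * (q * (1 + |z.im|)) := h1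
      _ ≤ G * (q * ((1 + |t|) * (1 + |(z - z0).im|))) := by
          refine mul_le_mul_of_nonneg_left (mul_le_mul_of_nonneg_left h3 (Nat.cast_nonneg q)) hG0.le
      _ = _ := by ring
  have hg' : ∀ w : ℂ, a ≤ w.re → ‖f (z0 + w)‖ ≤ (G * q * (1 + |t|)) ^ m * (1 + |w.im|) ^ m := by
    intro w hw
    have := hg (z0 + w) (by rw [add_re, hre]; linarith)
    rwa [add_sub_cancel_left] at this
  have p := pole_ker (f := f) (z₀ := z0) (a := a) (b := b) (G := (G * q * (1 + |t|)) ^ m) (N := m) l hK ha hb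
    (fun w _ _ => hfd _) (fun w h1 _ => hg' w h1)
  have line : ∀ x : ℝ, x ≠ 0 → a ≤ x →
      ‖∫ y : ℝ, f (z0 + (x + y * I)) * ker l K (x + y * I) / (x + y * I)‖ ≤
      Real.exp (l * x + K * x ^ 2) / |x| *
        ∫ y : ℝ, ‖LL s q ((σ + x : ℝ) + (t + y : ℝ) * I)‖ ^ m * Real.exp (-K * y ^ 2) := by
    intro x hx hax
    have h1 := (ker_line (g := fun y : ℝ => f (z0 + (x + y * I))) (hfd.continuous.comp (by fun_prop))
      (G := (G * q * (1 + |t|)) ^ m) (N := m) (fun y => by
        have := hg' (x + y * I) (by simpa using hax)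
        simpa using this) l hK hx).2
    refine h1.trans (le_of_eq ?_)
    congr 2
    funext y
    simp only [hf]
    rw [norm_pow]
    congr 4
    rw [hz0]
    push_cast
    ring
  have l1 := line b hb.ne' (by linarith)
  have l2 := line a ha.ne le_rfl
  have hpi : ‖(2 * Real.pi * f z0 : ℂ)‖ = 2 * Real.pi * ‖LL s q z0‖ ^ m := by
    rw [norm_mul, norm_mul, Complex.norm_real, Real.norm_eq_abs, abs_of_pos Real.pi_pos]
    simp only [hf]
    rw [norm_pow]
    norm_num
  have hfin : ‖LL s q z0‖ ^ m ≤ ‖(2 * Real.pi * f z0 : ℂ)‖ := by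
    rw [hpi]
    have : 1 ≤ 2 * Real.pi := by linarith [Real.pi_gt_three]
    exact le_mul_of_one_le_left (by positivity) this
  refine hfin.trans ?_
  rw [← p]
  exact (norm_sub_le _ _).trans (add_le_add l1 l2)

lemma gauss_mono {K : ℝ} (hK : 1 ≤ K) (m : ℕ) : ∫ y : ℝ, (1 + |y|) ^ m * Real.exp (-K * y ^ 2) ≤ fr m := by
  unfold fr
  apply integral_mono_of_nonneg
  · exact Eventually.of_forall fun y => by positivity
  · exact fr_int m
  · refine Eventually.of_forall fun y => mul_le_mul_of_nonneg_left (Real.exp_le_exp.2 ?_) (by positivity)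
    nlinarith [sq_nonneg y]

/-- **from the critical line to the right** -/
theorem to_right (m : ℕ) (A : ℝ) (hA : 0 ≤ A) : ∃ A' D X₁ : ℝ, 0 < A' ∧ 0 < D ∧ 1 < X₁ ∧ ∀ (s : ℤ) (X : ℝ), X₁ ≤ X →
    ∀ r : ℝ, 0 < r → r ≤ 1 → ∀ t : ℕ → ℝ, (∀ q, |t q| ≤ A) →
      ∑ q ∈ Q s X, ‖LL s q ((1 / 2 + r : ℝ) + t q * I)‖ ^ m ≤
        D * X + X ^ (r / 2) * r⁻¹ * (JJ s X A' m (1 / 2) + D) := by
  obtain ⟨A', DG, X1, hA', hDG, hX1, hGW⟩ := GW m A hA
  obtain ⟨B, hB1, hB⟩ := LL_right
  refine ⟨A', B ^ m + DG, max X1 (Real.exp 64), hA', by positivity, lt_max_of_lt_left hX1,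
    fun s X hX r hr hr1 t ht => ?_⟩
  have hX1' : X1 ≤ X := (le_max_left _ _).trans hX
  have hX2 : Real.exp 64 ≤ X := (le_max_right _ _).trans hX
  have hXone : 1 ≤ X := by linarith
  have hX0 : 0 < X := by linarith
  have hlog : 64 ≤ Real.log X := by
    rw [Real.le_log_iff_exp_le hX0]
    exact hX2
  set K : ℝ := Real.log X / 64 with hK
  set l : ℝ := -(Real.log X / 4) with hl
  have hK1 : 1 ≤ K := by
    rw [hK]
    linarith
  have hK0 : 0 < K := by linarith
  have hone : ∀ q ∈ Q s X, ‖LL s q ((1 / 2 + r : ℝ) + t q * I)‖ ^ m ≤ B ^ m +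
      X ^ (r / 2) * r⁻¹ * ∫ y : ℝ, ‖LL s q ((1 / 2 : ℝ) + (t q + y : ℝ) * I)‖ ^ m * Real.exp (-K * y ^ 2) := by
    intro q hq
    obtain ⟨hq2, hqX, hI⟩ := mem_Q hq
    have h1 := one_step hI m (σ := 1 / 2 + r) (a := -r) (b := 2) (l := l) (t := t q) hK0 (by linarith) (by norm_num)
      (by linarith)
    refine h1.trans (add_le_add ?_ ?_)
    · have h2 : Real.exp (l * 2 + K * 2 ^ 2) ≤ 1 := by
        rw [Real.exp_le_one_iff, hl, hK]
        linarith
      have h3 : ∫ y : ℝ, ‖LL s q ((1 / 2 + r + 2 : ℝ) + (t q + y : ℝ) * I)‖ ^ m * Real.exp (-K * y ^ 2) ≤ B ^ m * 2 := by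
        have : ∫ y : ℝ, ‖LL s q ((1 / 2 + r + 2 : ℝ) + (t q + y : ℝ) * I)‖ ^ m * Real.exp (-K * y ^ 2) ≤
            ∫ y : ℝ, B ^ m * Real.exp (-K * y ^ 2) := by
          apply integral_mono_of_nonneg
          · exact Eventually.of_forall fun y => by positivity
          · exact (integrable_exp_neg_mul_sq hK0).const_mul _
          · refine Eventually.of_forall fun y => mul_le_mul_of_nonneg_right ?_ (Real.exp_pos _).le
            exact pow_le_pow_left₀ (norm_nonneg _) (hB s q hI _ (by simp; linarith)) m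
        rw [integral_const_mul] at this
        exact this.trans (mul_le_mul_of_nonneg_left (gauss_le hK1) (by positivity))
      rw [abs_of_pos (by norm_num : (0 : ℝ) < 2)]
      calc _ ≤ 1 / 2 * (B ^ m * 2) := mul_le_mul (div_le_div_of_nonneg_right h2 (by norm_num)) h3
            (integral_nonneg fun y => by positivity) (by norm_num)
        _ = _ := by ring
    · have h2 : Real.exp (l * -r + K * (-r) ^ 2) ≤ X ^ (r / 2) := by
        rw [Real.rpow_def_of_pos hX0, hl, hK]
        apply Real.exp_le_exp.2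
        nlinarith [mul_nonneg (mul_nonneg (show 0 ≤ Real.log X by linarith) hr.le) (show 0 ≤ 1 - r by linarith),
          mul_nonneg (show 0 ≤ Real.log X by linarith) hr.le]
      have e : (1 / 2 + r + -r : ℝ) = 1 / 2 := by ring
      rw [abs_neg, abs_of_pos hr, e, div_eq_mul_inv]
      exact mul_le_mul_of_nonneg_right (mul_le_mul_of_nonneg_right h2 (by positivity))
        (integral_nonneg fun y => by positivity)
  refine (Finset.sum_le_sum hone).trans ?_
  rw [Finset.sum_add_distrib, Finset.sum_const, nsmul_eq_mul, ← Finset.mul_sum]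
  have h2 := hGW s X hX1' (1 / 2) (by norm_num) t ht
  have h3 : 0 ≤ B ^ m := by positivity
  have hJ0 := JJ_nonneg s X hA'.le m (1 / 2)
  refine add_le_add ?_ (mul_le_mul_of_nonneg_left (h2.trans ?_) (by positivity))
  · calc ((Q s X).card : ℝ) * B ^ m ≤ X * B ^ m := mul_le_mul_of_nonneg_right (card_Q s hXone) h3
      _ ≤ (B ^ m + DG) * X := by nlinarith
  · linarith

/-- **from the right to the critical line** -/
theorem to_line (m : ℕ) (A : ℝ) (hA : 0 ≤ A) : ∃ A' D M X₁ : ℝ, 0 < A' ∧ 0 < D ∧ 0 < M ∧ 1 < X₁ ∧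
    ∀ (s : ℤ) (X : ℝ), X₁ ≤ X → ∀ r : ℝ, 0 < r → r ≤ 1 → ∀ t : ℕ → ℝ, (∀ q, |t q| ≤ A) →
      ∑ q ∈ Q s X, ‖LL s q ((1 / 2 : ℝ) + t q * I)‖ ^ m ≤
        D * X + X ^ (M * r) * r⁻¹ * (JJ s X A' m (1 / 2 + r) + D) := by
  obtain ⟨A', DG, X1, hA', hDG, hX1, hGW⟩ := GW m A hA
  obtain ⟨G, hG1, hG⟩ := growth
  have hG0 : 0 < G := by linarith
  set D0 : ℝ := 2 * ((G * (1 + A)) ^ m * fr m) with hD0
  have hfr := fr_nonneg m
  have hD00 : 0 ≤ D0 := by positivity
  set M0 : ℝ := 2 * (m + 2) with hM0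
  refine ⟨A', D0 + DG + 1, M0 + 1, max X1 (Real.exp 64), hA', by positivity, by positivity, lt_max_of_lt_left hX1,
    fun s X hX r hr hr1 t ht => ?_⟩
  have hX1' : X1 ≤ X := (le_max_left _ _).trans hX
  have hX2 : Real.exp 64 ≤ X := (le_max_right _ _).trans hX
  have hXone : 1 ≤ X := by linarith
  have hX0 : 0 < X := by linarith
  have hlog : 64 ≤ Real.log X := by
    rw [Real.le_log_iff_exp_le hX0]
    exact hX2
  set K : ℝ := Real.log X / 64 with hK
  set l : ℝ := M0 * Real.log X with hl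
  have hK1 : 1 ≤ K := by
    rw [hK]
    linarith
  have hK0 : 0 < K := by linarith
  have hone : ∀ q ∈ Q s X, ‖LL s q ((1 / 2 : ℝ) + t q * I)‖ ^ m ≤
      X ^ ((M0 + 1) * r) * r⁻¹ * (∫ y : ℝ, ‖LL s q ((1 / 2 + r : ℝ) + (t q + y : ℝ) * I)‖ ^ m * Real.exp (-K * y ^ 2)) +
        D0 := by
    intro q hq
    obtain ⟨hq2, hqX, hI⟩ := mem_Q hq
    have h1 := one_step hI m (σ := 1 / 2) (a := -(3 / 4)) (b := r) (l := l) (t := t q) hK0 (by norm_num) hr
      (by norm_num)
    refine h1.trans (add_le_add ?_ ?_)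
    · have h2 : Real.exp (l * r + K * r ^ 2) ≤ X ^ ((M0 + 1) * r) := by
        rw [Real.rpow_def_of_pos hX0, hl, hK]
        apply Real.exp_le_exp.2
        nlinarith [mul_nonneg (mul_nonneg (show 0 ≤ Real.log X by linarith) hr.le) (show 0 ≤ 1 - r by linarith),
          mul_nonneg (show 0 ≤ Real.log X by linarith) hr.le]
      rw [abs_of_pos hr, div_eq_mul_inv]
      exact mul_le_mul_of_nonneg_right (mul_le_mul_of_nonneg_right h2 (by positivity))
        (integral_nonneg fun y => by positivity)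
    · have h3 : ∫ y : ℝ, ‖LL s q ((1 / 2 + -(3 / 4) : ℝ) + (t q + y : ℝ) * I)‖ ^ m * Real.exp (-K * y ^ 2) ≤
          (G * X * (1 + A)) ^ m * fr m := by
        have : ∫ y : ℝ, ‖LL s q ((1 / 2 + -(3 / 4) : ℝ) + (t q + y : ℝ) * I)‖ ^ m * Real.exp (-K * y ^ 2) ≤
            ∫ y : ℝ, (G * X * (1 + A)) ^ m * ((1 + |y|) ^ m * Real.exp (-1 * y ^ 2)) := by
          apply integral_mono_of_nonneg
          · exact Eventually.of_forall fun y => by positivity
          · exact (fr_int m).const_mul _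
          · refine Eventually.of_forall fun y => ?_
            have g1 := hG s q hI ((1 / 2 + -(3 / 4) : ℝ) + (t q + y : ℝ) * I) (by simp; norm_num)
            have g2 : (((1 / 2 + -(3 / 4) : ℝ) : ℂ) + (t q + y : ℝ) * I).im = t q + y := by simp
            rw [g2] at g1
            have g3 : 1 + |t q + y| ≤ (1 + A) * (1 + |y|) := by
              have := abs_add_le (t q) y
              have := ht q
              nlinarith [abs_nonneg y]
            have g4 : ‖LL s q ((1 / 2 + -(3 / 4) : ℝ) + (t q + y : ℝ) * I)‖ ≤ G * X * (1 + A) * (1 + |y|) := by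
              calc _ ≤ G * (q * (1 + |t q + y|)) := g1
                _ ≤ G * (X * ((1 + A) * (1 + |y|))) := by
                    refine mul_le_mul_of_nonneg_left ?_ (by linarith)
                    exact mul_le_mul hqX.le g3 (by positivity) hX0.le
                _ = _ := by ring
            have g5 : Real.exp (-K * y ^ 2) ≤ Real.exp (-1 * y ^ 2) := by
              apply Real.exp_le_exp.2
              nlinarith [sq_nonneg y]
            simp only
            calc _ ≤ (G * X * (1 + A) * (1 + |y|)) ^ m * Real.exp (-1 * y ^ 2) :=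
                  mul_le_mul (pow_le_pow_left₀ (norm_nonneg _) g4 m) g5 (Real.exp_pos _).le (by positivity)
              _ = _ := by
                  rw [mul_pow (G * X * (1 + A))]
                  ring
        rw [integral_const_mul] at this
        exact this
      have h2 : Real.exp (l * -(3 / 4) + K * (-(3 / 4)) ^ 2) ≤ (X ^ m)⁻¹ := by
        have h4 : X ^ m = Real.exp (Real.log X * m) := by
          rw [← Real.rpow_natCast, Real.rpow_def_of_pos hX0]
        rw [h4, ← Real.exp_neg, hl, hK, hM0]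
        apply Real.exp_le_exp.2
        have h5 : (0 : ℝ) ≤ m := Nat.cast_nonneg m
        nlinarith [mul_nonneg (show 0 ≤ Real.log X by linarith) h5]
      have h6 : |(-(3 / 4) : ℝ)| = 3 / 4 := by rw [abs_neg, abs_of_pos (by norm_num)]
      rw [h6]
      calc _ ≤ (X ^ m)⁻¹ / (3 / 4) * ((G * X * (1 + A)) ^ m * fr m) :=
            mul_le_mul (div_le_div_of_nonneg_right h2 (by norm_num)) h3 (integral_nonneg fun y => by positivity)
              (by positivity)
        _ = 4 / 3 * ((G * (1 + A)) ^ m * fr m) := by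
            rw [mul_right_comm G X, mul_pow]
            field_simp
        _ ≤ D0 := by
            rw [hD0]
            have : 0 ≤ (G * (1 + A)) ^ m * fr m := by positivity
            linarith
  refine (Finset.sum_le_sum hone).trans ?_
  rw [Finset.sum_add_distrib, Finset.sum_const, nsmul_eq_mul, ← Finset.mul_sum]
  have h2 := hGW s X hX1' (1 / 2 + r) (by linarith) t ht
  have hJ0 := JJ_nonneg s X hA'.le m (1 / 2 + r)
  rw [add_comm]
  refine add_le_add ?_ (mul_le_mul_of_nonneg_left (h2.trans ?_) (by positivity))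
  · calc ((Q s X).card : ℝ) * D0 ≤ X * D0 := mul_le_mul_of_nonneg_right (card_Q s hXone) hD00
      _ ≤ (D0 + DG + 1) * X := by nlinarith
  · linarith

/-- from points to integrals -/
lemma JJ_le_of_pts {s : ℤ} {X A : ℝ} {m : ℕ} {σ V : ℝ} (hA : 0 ≤ A)
    (h : ∀ u : ℝ, |u| ≤ A → ∑ q ∈ Q s X, ‖LL s q (σ + u * I)‖ ^ m ≤ V) : JJ s X A m σ ≤ 2 * A * V := by
  unfold JJ
  have hc : ∀ q ∈ Q s X, Continuous fun u : ℝ => ‖LL s q (σ + u * I)‖ ^ m := by
    intro q hq
    have := LL_cont (mem_Q hq).2.2 σ 0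
    simp only [zero_add] at this
    exact this.norm.pow m
  rw [← intervalIntegral.integral_finset_sum fun q hq => (hc q hq).intervalIntegrable _ _]
  have h1 : ∫ u in (-A)..A, ∑ q ∈ Q s X, ‖LL s q (σ + u * I)‖ ^ m ≤ ∫ _u in (-A)..A, V := by
    apply intervalIntegral.integral_mono_on (by linarith)
    · exact (continuous_finset_sum _ hc).intervalIntegrable _ _
    · exact continuous_const.intervalIntegrable _ _
    · intro u hu
      exact h u (abs_le.2 ⟨hu.1, hu.2⟩)
  rw [intervalIntegral.integral_const, smul_eq_mul] at h1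
  calc _ ≤ (A - -A) * V := h1
    _ = _ := by ring

end

end Pool.Agent.U575.NC
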