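import Pool.Agent.N879.QM.Eul
import Pool.Agent.N879.QM.Avg
import Pool.Agent.N879.QM.Uni

/-! The Dirichlet series of products of quadratic L-functions. -/

set_option autoImplicit false

open Complex Set Filter Topology
open scoped BigOperators

namespace Pool.Agent.U575.NC

open Pool.Agent.N879.QM
open Pool.Agent.N879.QM.Eul

noncomputable section

/-! ### Bounds for convolutions -/

/-- `∑ ‖f(m)‖ m^{-σ} ≤ B` -/
def NB (f : ArithmeticFunction ℂ) (σ B : ℝ) : Prop := ∀ S : Finset ℕ, ∑ m ∈ S, ‖f m‖ * (m : ℝ) ^ (-σ) ≤ B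

lemma NB.nonneg {f : ArithmeticFunction ℂ} {σ B : ℝ} (h : NB f σ B) : 0 ≤ B := by
  have := h ∅
  simpa using this

lemma NB.mul {f g : ArithmeticFunction ℂ} {σ B B' : ℝ} (hf : NB f σ B) (hg : NB g σ B') : NB (f * g) σ (B * B') := by
  classical
  intro S
  have h1 : ∀ n ∈ S, ‖(f * g) n‖ * (n : ℝ) ^ (-σ) ≤
      ∑ p ∈ n.divisorsAntidiagonal, (‖f p.1‖ * (p.1 : ℝ) ^ (-σ)) * (‖g p.2‖ * (p.2 : ℝ) ^ (-σ)) := by
    intro n _
    rw [ArithmeticFunction.mul_apply]
    have h2 : 0 ≤ (n : ℝ) ^ (-σ) := by positivity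
    refine (mul_le_mul_of_nonneg_right (norm_sum_le _ _) h2).trans (le_of_eq ?_)
    rw [Finset.sum_mul]
    refine Finset.sum_congr rfl fun p hp => ?_
    have h3 := (Nat.mem_divisorsAntidiagonal.1 hp).1
    rw [norm_mul, ← h3, Nat.cast_mul, Real.mul_rpow (by positivity) (by positivity)]
    ring
  refine (Finset.sum_le_sum h1).trans ?_
  rw [← Finset.sum_biUnion]
  · set U := S.biUnion fun n => n.divisorsAntidiagonal
    have hsub : U ⊆ (U.image Prod.fst) ×ˢ (U.image Prod.snd) := by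
      intro p hp
      rw [Finset.mem_product]
      exact ⟨Finset.mem_image_of_mem _ hp, Finset.mem_image_of_mem _ hp⟩
    calc ∑ p ∈ U, (‖f p.1‖ * (p.1 : ℝ) ^ (-σ)) * (‖g p.2‖ * (p.2 : ℝ) ^ (-σ))
        ≤ ∑ p ∈ (U.image Prod.fst) ×ˢ (U.image Prod.snd), (‖f p.1‖ * (p.1 : ℝ) ^ (-σ)) * (‖g p.2‖ * (p.2 : ℝ) ^ (-σ)) :=
          Finset.sum_le_sum_of_subset_of_nonneg hsub fun _ _ _ => by positivity
      _ = (∑ a ∈ U.image Prod.fst, ‖f a‖ * (a : ℝ) ^ (-σ)) * ∑ b ∈ U.image Prod.snd, ‖g b‖ * (b : ℝ) ^ (-σ) := by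
          rw [Finset.sum_mul_sum, Finset.sum_product]
      _ ≤ B * B' := mul_le_mul (hf _) (hg _) (Finset.sum_nonneg fun _ _ => by positivity) hf.nonneg
  · intro m _ n _ hmn
    simp only [Function.onFun]
    rw [Finset.disjoint_left]
    intro p hp hq
    exact hmn ((Nat.mem_divisorsAntidiagonal.1 hp).1.symm.trans (Nat.mem_divisorsAntidiagonal.1 hq).1)

lemma NB.one {σ : ℝ} : NB 1 σ 1 := by
  classical
  intro S
  have h1 : ∀ m ∈ S, ‖(1 : ArithmeticFunction ℂ) m‖ * (m : ℝ) ^ (-σ) = if m = 1 then 1 else 0 := by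
    intro m _
    rw [ArithmeticFunction.one_apply]
    split_ifs with h
    · rw [h]
      simp
    · simp
  rw [Finset.sum_congr rfl h1, Finset.sum_ite_eq']
  split_ifs <;> norm_num

lemma NB.prod {ι : Type} (s : Finset ι) (f : ι → ArithmeticFunction ℂ) {σ B : ℝ} (h : ∀ i ∈ s, NB (f i) σ B) :
    NB (∏ i ∈ s, f i) σ (B ^ s.card) := by
  classical
  induction s using Finset.induction_on with
  | empty => simpa using NB.one
  | insert i s hi ih =>
    rw [Finset.prod_insert hi, Finset.card_insert_of_notMem hi, pow_succ, mul_comm (B ^ s.card)]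
    exact (h i (Finset.mem_insert_self i s)).mul (ih fun j hj => h j (Finset.mem_insert_of_mem hj))

lemma zsum {σ : ℝ} (hσ : 0 < σ) : ∀ N : ℕ, 1 ≤ N →
    ∑ m ∈ Finset.Icc 1 N, (m : ℝ) ^ (-(1 + σ)) + (N : ℝ) ^ (-σ) / σ ≤ 1 + 1 / σ := by
  intro N hN
  induction N, hN using Nat.le_induction with
  | base => simp
  | succ N hN ih =>
    rw [Finset.sum_Icc_succ_top (by omega)]
    have hN0 : (0 : ℝ) < N := by exact_mod_cast hN
    have hN1 : (0 : ℝ) < (N : ℝ) + 1 := by positivity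
    have key : ((N + 1 : ℕ) : ℝ) ^ (-(1 + σ)) + ((N + 1 : ℕ) : ℝ) ^ (-σ) / σ ≤ (N : ℝ) ^ (-σ) / σ := by
      push_cast
      have h1 : ((N : ℝ) + 1) ^ (-(1 + σ)) = ((N : ℝ) + 1) ^ (-σ) * ((N : ℝ) + 1)⁻¹ := by
        rw [← Real.rpow_neg_one, ← Real.rpow_add hN1]
        congr 1
        ring
      have h2 : Real.log N ≤ Real.log ((N : ℝ) + 1) - 1 / ((N : ℝ) + 1) := by
        have h3 := Real.log_le_sub_one_of_pos (x := (N : ℝ) / (N + 1)) (by positivity)
        rw [Real.log_div hN0.ne' hN1.ne'] at h3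
        have h4 : (N : ℝ) / (N + 1) - 1 = -(1 / (N + 1)) := by
          field_simp
          ring
        linarith
      have h5 : ((N : ℝ) + 1) ^ (-σ) * (1 + σ * (1 / ((N : ℝ) + 1))) ≤ (N : ℝ) ^ (-σ) := by
        have h6 := Real.add_one_le_exp (σ * (1 / ((N : ℝ) + 1)))
        calc ((N : ℝ) + 1) ^ (-σ) * (1 + σ * (1 / ((N : ℝ) + 1)))
            ≤ ((N : ℝ) + 1) ^ (-σ) * Real.exp (σ * (1 / ((N : ℝ) + 1))) :=
              mul_le_mul_of_nonneg_left (by linarith) (by positivity)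
          _ = Real.exp (-σ * (Real.log ((N : ℝ) + 1) - 1 / ((N : ℝ) + 1))) := by
              rw [Real.rpow_def_of_pos hN1, ← Real.exp_add]
              congr 1
              ring
          _ ≤ Real.exp (Real.log N * (-σ)) := by
              apply Real.exp_le_exp.2
              have := mul_le_mul_of_nonneg_left h2 hσ.le
              linarith
          _ = (N : ℝ) ^ (-σ) := by rw [Real.rpow_def_of_pos hN0]
      rw [h1]
      have h7 : ((N : ℝ) + 1) ^ (-σ) * ((N : ℝ) + 1)⁻¹ + ((N : ℝ) + 1) ^ (-σ) / σ =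
          ((N : ℝ) + 1) ^ (-σ) * (1 + σ * (1 / ((N : ℝ) + 1))) / σ := by
        field_simp
        ring
      rw [h7]
      exact div_le_div_of_nonneg_right h5 hσ.le
    linarith

lemma pw_NB {s : ℂ} (hs : s.re = -1) {σ : ℝ} (hσ : 0 < σ) : NB (pw s) σ (1 + 1 / σ) := by
  classical
  intro S
  obtain ⟨N, hN⟩ : ∃ N : ℕ, 1 ≤ N ∧ ∀ m ∈ S, m ≤ N := ⟨S.sup id + 1, by omega, fun m hm => by
    have : m ≤ S.sup id := Finset.le_sup (f := id) hm
    omega⟩
  have h1 : ∀ m ∈ S, ‖pw s m‖ * (m : ℝ) ^ (-σ) ≤ if m ∈ Finset.Icc 1 N then (m : ℝ) ^ (-(1 + σ)) else 0 := by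
    intro m hm
    rcases Nat.eq_zero_or_pos m with h | h
    · subst h
      simp
    · rw [if_pos (Finset.mem_Icc.2 ⟨h, hN.2 m hm⟩), pw_apply _ (by omega), norm_natCast_cpow_of_pos h, hs,
        ← Real.rpow_add (by exact_mod_cast h)]
      apply le_of_eq
      congr 1
      ring
  refine (Finset.sum_le_sum h1).trans ?_
  rw [← Finset.sum_filter]
  have h2 : ∑ m ∈ S.filter (· ∈ Finset.Icc 1 N), (m : ℝ) ^ (-(1 + σ)) ≤ ∑ m ∈ Finset.Icc 1 N, (m : ℝ) ^ (-(1 + σ)) :=
    Finset.sum_le_sum_of_subset_of_nonneg (fun m hm => (Finset.mem_filter.1 hm).2) fun _ _ _ => by positivity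
  have h3 := zsum hσ N hN.1
  have h4 : 0 ≤ (N : ℝ) ^ (-σ) / σ := by positivity
  linarith

lemma mu_pw (s : ℂ) : muA s * pw (-s) = 1 := by
  ext n
  rw [ArithmeticFunction.mul_apply]
  rcases Nat.eq_zero_or_pos n with h | h
  · subst h
    simp
  have h1 : ∀ p ∈ n.divisorsAntidiagonal, muA s p.1 * pw (-s) p.2 =
      (n : ℂ) ^ (-s) * (((ArithmeticFunction.moebius p.1 : ℤ) : ℂ) * ((ArithmeticFunction.zeta p.2 : ℤ) : ℂ)) := by
    intro p hp
    obtain ⟨h2, h3⟩ := Nat.mem_divisorsAntidiagonal.1 hp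
    have h4 : p.2 ≠ 0 := by
      rintro h5
      rw [h5, mul_zero] at h2
      omega
    rw [muA_apply, pw_apply _ h4, ← h2, Nat.cast_mul, natCast_mul_natCast_cpow]
    rw [ArithmeticFunction.zeta_apply, if_neg h4]
    push_cast
    ring
  rw [Finset.sum_congr rfl h1, ← Finset.mul_sum]
  have h5 : ∑ p ∈ n.divisorsAntidiagonal, (((ArithmeticFunction.moebius p.1 : ℤ) : ℂ) *
      ((ArithmeticFunction.zeta p.2 : ℤ) : ℂ)) = (((ArithmeticFunction.moebius *
        (ArithmeticFunction.zeta : ArithmeticFunction ℤ)) n : ℤ) : ℂ) := by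
    rw [ArithmeticFunction.mul_apply]
    push_cast
    rfl
  rw [h5, ArithmeticFunction.moebius_mul_coe_zeta, ArithmeticFunction.one_apply, ArithmeticFunction.one_apply]
  split_ifs with h6
  · rw [h6]
    simp
  · simp

lemma gA_eq {k : ℕ} (β : Fin k → ℝ) : gA β = al β * ∏ r : Pr k, pw (-(pp β r)) := by
  unfold al
  rw [mul_assoc, ← Finset.prod_mul_distrib]
  have : ∏ r : Pr k, muA (pp β r) * pw (-(pp β r)) = 1 := Finset.prod_eq_one fun r _ => mu_pw _
  rw [this, mul_one]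

lemma al_NB {k : ℕ} (β : Fin k → ℝ) {σ : ℝ} (hσ : 0 < σ) : NB (al β) σ (CC k) := by
  intro S
  refine le_trans (Finset.sum_le_sum fun m _ => ?_) (gg_sum β S)
  rcases Nat.eq_zero_or_pos m with h | h
  · subst h
    simp [gg]
  · have h1 : (m : ℝ) ^ (-σ) ≤ 1 := Real.rpow_le_one_of_one_le_of_nonpos (by exact_mod_cast h) (by linarith)
    have h2 := al_le β m
    calc ‖al β m‖ * (m : ℝ) ^ (-σ) ≤ ‖al β m‖ * 1 := mul_le_mul_of_nonneg_left h1 (norm_nonneg _)
      _ ≤ gg β m := by rw [mul_one]; exact h2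

/-- the number of pairs -/
def R (k : ℕ) : ℕ := Fintype.card (Pr k)

lemma gA_NB {k : ℕ} (β : Fin k → ℝ) {σ : ℝ} (hσ : 0 < σ) : NB (gA β) σ (CC k * (1 + 1 / σ) ^ R k) := by
  rw [gA_eq]
  refine (al_NB β hσ).mul ?_
  exact NB.prod Finset.univ (fun r : Pr k => pw (-(pp β r))) fun r _ => pw_NB (by unfold pp; simp) hσ

/-- the diagonal series -/
def Mser {k : ℕ} (β : Fin k → ℝ) (u : ℂ) : ℂ := LSeries (gA β) u

lemma NB.hasSum {f : ArithmeticFunction ℂ} {u : ℂ} {B : ℝ} (h : NB f u.re B) :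
    LSeriesSummable (f ·) u ∧ ‖LSeries (f ·) u‖ ≤ B := by
  have hn : ∀ m : ℕ, ‖LSeries.term (f ·) u m‖ = ‖f m‖ * (m : ℝ) ^ (-u.re) := by
    intro m
    rcases Nat.eq_zero_or_pos m with h | h
    · subst h
      simp
    · rw [LSeries.term_of_ne_zero (by omega), norm_div, norm_natCast_cpow_of_pos h, Real.rpow_neg (by positivity),
        div_eq_mul_inv]
  have hs : Summable fun m : ℕ => ‖LSeries.term (f ·) u m‖ := by
    refine summable_of_sum_le (c := B) (fun _ => norm_nonneg _) fun S => ?_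
    rw [Finset.sum_congr rfl fun m _ => hn m]
    exact h S
  refine ⟨hs.of_norm, ?_⟩
  unfold LSeries
  refine (norm_tsum_le_tsum_norm hs).trans (hs.tsum_le_of_sum_le fun S => ?_)
  rw [Finset.sum_congr rfl fun m _ => hn m]
  exact h S

lemma Mser_bd {k : ℕ} (β : Fin k → ℝ) {u : ℂ} (hu : 0 < u.re) : ‖Mser β u‖ ≤ CC k * (1 + 1 / u.re) ^ R k :=
  (gA_NB β hu).hasSum.2

lemma Mser_diff {k : ℕ} (β : Fin k → ℝ) {u : ℂ} (hu : 0 < u.re) : DifferentiableAt ℂ (Mser β) u := by
  have h1 : LSeries.abscissaOfAbsConv (gA β ·) ≤ ((0 : ℝ) : EReal) := by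
    apply LSeries.abscissaOfAbsConv_le_of_forall_lt_LSeriesSummable
    intro y hy
    exact (gA_NB (σ := (y : ℂ).re) β (by simpa using hy)).hasSum.1
  have h2 := LSeries_differentiableOn (gA β ·)
  refine h2.differentiableAt (IsOpen.mem_nhds ?_ ?_)
  · exact isOpen_re_gt_EReal _
  · exact lt_of_le_of_lt h1 (by exact_mod_cast hu)

/-! ### Twisted series -/

lemma tw_hasSum {q : ℕ} [NeZero q] (χ : DirichletCharacter ℂ q) : ∀ {k : ℕ} (e : Fin k → ℂ), (∀ j, (e j).re ≤ 0) →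
    ∀ {z : ℂ}, 1 < z.re → LSeriesHasSum (fun n => χ n * T e n) z (∏ j, DirichletCharacter.LFunction χ (z - e j))
  | 0, e, _, z, hz => by
      rw [T_nil, Finset.univ_eq_empty, Finset.prod_empty]
      unfold LSeriesHasSum
      have h := hasSum_single (f := LSeries.term (fun n => χ n * (1 : ArithmeticFunction ℂ) n) z) 1 (fun n hn => by
        rcases Nat.eq_zero_or_pos n with h | h
        · subst h
          simp
        · rw [LSeries.term_of_ne_zero (by omega), ArithmeticFunction.one_apply_ne hn, mul_zero, zero_div])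
      have h2 : LSeries.term (fun n => χ n * (1 : ArithmeticFunction ℂ) n) z 1 = 1 := by
        rw [LSeries.term_of_ne_zero one_ne_zero]
        simp
      rwa [h2] at h
  | k + 1, e, he, z, hz => by
      have ih := tw_hasSum χ (fun j => e j.succ) (fun j => he _) hz
      have h1 : LSeriesHasSum (fun n => χ n * pw (e 0) n) z (DirichletCharacter.LFunction χ (z - e 0)) := by
        have h2 : 1 < (z - e 0).re := by
          have := he 0
          rw [sub_re]
          linarith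
        have h3 := (DirichletCharacter.LSeriesSummable_of_one_lt_re χ h2).LSeriesHasSum
        rw [← DirichletCharacter.LFunction_eq_LSeries χ h2] at h3
        unfold LSeriesHasSum at h3 ⊢
        convert h3 using 1
        funext n
        rcases Nat.eq_zero_or_pos n with h | h
        · subst h
          simp
        · rw [LSeries.term_of_ne_zero (by omega), LSeries.term_of_ne_zero (by omega), pw_apply _ (by omega),
            cpow_sub _ _ (by exact_mod_cast h.ne')]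
          have h4 : (n : ℂ) ^ (e 0) ≠ 0 := by
            rw [cpow_ne_zero_iff]
            left
            exact_mod_cast h.ne'
          field_simp
      have h4 := h1.convolution ih
      rw [Fin.prod_univ_succ]
      convert h4 using 1
      rw [T_succ, ← ArithmeticFunction.coe_mul]
      exact (DirichletCharacter.mul_convolution_distrib χ (pw (e 0)) (T fun j => e j.succ)).symm

lemma T_zero_apply {k : ℕ} (e : Fin k → ℂ) : T e 0 = 0 := by simp

/-- the trivial exponents -/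
def e0 (k : ℕ) : Fin k → ℂ := fun _ => 0

lemma T_norm {k : ℕ} (e : Fin k → ℂ) (he : ∀ j, (e j).re = 0) (n : ℕ) : ‖T e n‖ ≤ ‖T (e0 k) n‖ := by
  rcases Nat.eq_zero_or_pos n with h | h
  · subst h
    simp
  have h1 : T (e0 k) n = ((∑ f ∈ Nat.finMulAntidiag k n, (1 : ℝ) : ℝ) : ℂ) := by
    rw [T_apply]
    push_cast
    refine Finset.sum_congr rfl fun f _ => Finset.prod_eq_one fun j _ => ?_
    simp [e0]
  rw [h1, norm_real, Real.norm_eq_abs, T_apply]
  refine le_trans ?_ (le_abs_self _)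
  refine (norm_sum_le _ _).trans (Finset.sum_le_sum fun f hf => ?_)
  rw [norm_prod]
  refine le_of_eq (Finset.prod_eq_one fun j _ => ?_)
  have h2 : 0 < f j := Nat.pos_of_ne_zero (Nat.ne_zero_of_mem_finMulAntidiag hf j)
  rw [norm_natCast_cpow_of_pos h2, he j, Real.rpow_zero]

/-- the constant of the error term -/
def DD (k : ℕ) : ℝ := ∑' n : ℕ, ‖LSeries.term (fun n => T (e0 k) n) 2 n‖

lemma DD_summable (k : ℕ) : Summable fun n : ℕ => ‖LSeries.term (fun n => T (e0 k) n) 2 n‖ := by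
  have h := (tw_hasSum (1 : DirichletCharacter ℂ 1) (e0 k) (fun j => by simp [e0]) (z := 2) (by norm_num)).summable.norm
  have e : (fun n : ℕ => (1 : DirichletCharacter ℂ 1) n * T (e0 k) n) = fun n => T (e0 k) n := by
    funext n
    have : (1 : DirichletCharacter ℂ 1) n = 1 := MulChar.one_apply (isUnit_of_subsingleton _)
    rw [this, one_mul]
  rw [e] at h
  exact h

/-- imaginary exponents -/
def ei {k : ℕ} (β : Fin k → ℝ) : Fin k → ℂ := fun j => -(I * (β j : ℂ))

lemma T_shift (w : ℂ) : ∀ {k : ℕ} (e : Fin k → ℂ) (n : ℕ), n ≠ 0 → T (fun j => e j + w) n = (n : ℂ) ^ w * T e n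
  | 0, e, n, hn => by
      rw [T_nil, T_nil, ArithmeticFunction.one_apply]
      split_ifs with h
      · rw [h]
        simp
      · simp
  | k + 1, e, n, hn => by
      rw [T_succ, T_succ, ArithmeticFunction.mul_apply, ArithmeticFunction.mul_apply, Finset.mul_sum]
      refine Finset.sum_congr rfl fun p hp => ?_
      obtain ⟨h2, h3⟩ := Nat.mem_divisorsAntidiagonal.1 hp
      have h4 : p.1 ≠ 0 := by
        rintro h5
        rw [h5, zero_mul] at h2
        omega
      have h5 : p.2 ≠ 0 := by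
        rintro h5
        rw [h5, mul_zero] at h2
        omega
      rw [T_shift w (fun j => e j.succ) p.2 h5, pw_apply _ h4, pw_apply _ h4, ← h2, Nat.cast_mul,
        natCast_mul_natCast_cpow, cpow_add _ _ (by exact_mod_cast h4)]
      ring

lemma af_sq (m : ℕ) : af (m ^ 2) = af m := by
  unfold af
  rw [Nat.primeFactors_pow _ two_ne_zero]

/-- the sum over the squares -/
lemma sq_sum {k : ℕ} (β : Fin k → ℝ) {z : ℂ} (hz : 1 / 2 < z.re) :
    HasSum (fun n : ℕ => if IsSquare n then LSeries.term (fun n => (af n : ℂ) * T (ei β) n) z n else 0)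
      (Mser β (2 * z - 1)) := by
  have h1 : LSeriesHasSum (gA β ·) (2 * z - 1) (Mser β (2 * z - 1)) :=
    ((gA_NB β (σ := (2 * z - 1).re) (by simp; linarith)).hasSum.1).LSeriesHasSum
  have hinj : Function.Injective fun m : ℕ => m ^ 2 := fun a b h => Nat.pow_left_injective (by norm_num) h
  rw [← hinj.hasSum_iff]
  · unfold LSeriesHasSum at h1
    convert h1 using 1
    funext m
    simp only [Function.comp]
    rw [if_pos ⟨m, sq m⟩]
    rcases Nat.eq_zero_or_pos m with h | h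
    · subst h
      simp
    · have hm2 : m ^ 2 ≠ 0 := by positivity
      have hm0 : (m : ℂ) ≠ 0 := by exact_mod_cast h.ne'
      rw [LSeries.term_of_ne_zero hm2, LSeries.term_of_ne_zero (by omega), gA_apply β (by omega), af_sq]
      have h2 : sx β = fun j => ei β j + (-(1 / 2)) := by
        funext j
        unfold sx ei pt
        ring
      have h3 : ((m ^ 2 : ℕ) : ℂ) ^ z = (m : ℂ) ^ (2 * z) := by
        rw [sq, Nat.cast_mul, natCast_mul_natCast_cpow, two_mul, cpow_add _ _ hm0]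
      have h4 : ((m ^ 2 : ℕ) : ℂ) ^ (-(1 / 2) : ℂ) = (m : ℂ)⁻¹ := by
        rw [sq, Nat.cast_mul, natCast_mul_natCast_cpow, ← cpow_add _ _ hm0, ← cpow_neg_one]
        congr 1
        ring
      rw [h2, T_shift _ _ _ hm2, h3, h4, cpow_sub _ _ hm0, cpow_one]
      have h5 : (m : ℂ) ^ (2 * z) ≠ 0 := by
        rw [cpow_ne_zero_iff]
        left
        exact hm0
      field_simp
  · intro n hn
    rw [if_neg]
    rintro ⟨m, hm⟩
    exact hn ⟨m, by simp only; rw [hm, sq]⟩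

/-- a product of L-functions -/
def PP (s : ℤ) (q : ℕ) {k : ℕ} (β : Fin k → ℝ) (z : ℂ) : ℂ := ∏ j, LL s q (z + I * (β j : ℂ))

lemma mem_Q {s : ℤ} {X : ℝ} {q : ℕ} (h : q ∈ Q s X) : 2 ≤ q ∧ (q : ℝ) < X ∧ Is s q := by
  classical
  unfold Q at h
  obtain ⟨h1, h2⟩ := Finset.mem_filter.1 h
  obtain ⟨h3, h4⟩ := Finset.mem_Ico.1 h1
  exact ⟨h3, Nat.lt_ceil.1 h4, h2⟩

lemma PP_hasSum {s : ℤ} {q : ℕ} (hq : q ≠ 0) {k : ℕ} (β : Fin k → ℝ) {z : ℂ} (hz : 1 < z.re) :
    LSeriesHasSum (fun n => vl s q n * T (ei β) n) z (PP s q β z) := by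
  haveI : NeZero q := ⟨hq⟩
  have h := tw_hasSum (ch s q) (ei β) (fun j => by unfold ei; simp) hz
  have e : PP s q β z = ∏ j, DirichletCharacter.LFunction (ch s q) (z - ei β j) := by
    unfold PP LL
    refine Finset.prod_congr rfl fun j _ => ?_
    rw [dif_pos hq]
    congr 1
    unfold ei
    ring
  rw [e]
  exact h

/-- **the sum over the family to the right** -/
theorem fam_right : ∃ C : ℝ, 0 < C ∧ ∀ (s : ℤ) (X : ℝ), s = 1 ∨ s = -1 → 1 ≤ X → ∀ {k : ℕ} (β : Fin k → ℝ) (z : ℂ),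
    5 / 2 ≤ z.re → ‖(∑ q ∈ Q s X, PP s q β z) - ((c0 * X : ℝ) : ℂ) * Mser β (2 * z - 1)‖ ≤ C * √X * DD k := by
  classical
  obtain ⟨C, hC, hA⟩ := t_AVG t_UNI
  refine ⟨C, hC, fun s X hs hX k β z hz => ?_⟩
  have h1 : HasSum (fun n => ∑ q ∈ Q s X, LSeries.term (fun n => vl s q n * T (ei β) n) z n)
      (∑ q ∈ Q s X, PP s q β z) := by
    refine hasSum_sum fun q hq => ?_
    exact PP_hasSum (by have := (mem_Q hq).1; omega) β (by linarith)
  have h2 := (sq_sum β (z := z) (by linarith)).mul_left ((c0 * X : ℝ) : ℂ)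
  have h3 := h1.sub h2
  rw [← h3.tsum_eq]
  have h4 := (DD_summable k).hasSum.mul_left (C * √X)
  refine tsum_of_norm_bounded h4 fun n => ?_
  rcases Nat.eq_zero_or_pos n with h | h
  · subst h
    simp
  have hn0 : n ≠ 0 := by omega
  have hnR : (0 : ℝ) < n := by exact_mod_cast h
  have e1 : (∑ q ∈ Q s X, LSeries.term (fun n => vl s q n * T (ei β) n) z n) -
      ((c0 * X : ℝ) : ℂ) * (if IsSquare n then LSeries.term (fun n => (af n : ℂ) * T (ei β) n) z n else 0) =
      ((∑ q ∈ Q s X, vl s q n) - (if IsSquare n then ((c0 * X * af n : ℝ) : ℂ) else 0)) * (T (ei β) n / (n : ℂ) ^ z) := by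
    rw [sub_mul, Finset.sum_mul]
    congr 1
    · refine Finset.sum_congr rfl fun q _ => ?_
      rw [LSeries.term_of_ne_zero hn0]
      ring
    · split_ifs
      · rw [LSeries.term_of_ne_zero hn0]
        push_cast
        ring
      · simp
  rw [e1, norm_mul, norm_div, norm_natCast_cpow_of_pos h, LSeries.term_of_ne_zero hn0, norm_div,
    norm_natCast_cpow_of_pos h]
  have h5 : ‖(∑ q ∈ Q s X, vl s q n) - (if IsSquare n then ((c0 * X * af n : ℝ) : ℂ) else 0)‖ ≤ C * √X * √n := by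
    obtain ⟨g1, g2⟩ := hA s X n hs hX h
    split_ifs with hsq
    · exact g1 hsq
    · rw [sub_zero]
      exact g2 hsq
  have h6 : √(n : ℝ) * (‖T (ei β) n‖ / (n : ℝ) ^ z.re) ≤ ‖T (e0 k) n‖ / (n : ℝ) ^ (2 : ℂ).re := by
    have h7 := T_norm (ei β) (fun j => by unfold ei; simp) n
    have h8 : (n : ℝ) ^ (1 / 2 : ℝ) * (n : ℝ) ^ (2 : ℝ) ≤ (n : ℝ) ^ z.re := by
      rw [← Real.rpow_add hnR]
      exact Real.rpow_le_rpow_of_exponent_le (by exact_mod_cast h) (by linarith)
    rw [Real.sqrt_eq_rpow, mul_div_assoc', show (2 : ℂ).re = (2 : ℝ) from rfl, div_le_div_iff₀ (by positivity) (by positivity)]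
    calc (n : ℝ) ^ (1 / 2 : ℝ) * ‖T (ei β) n‖ * (n : ℝ) ^ (2 : ℝ)
        = ‖T (ei β) n‖ * ((n : ℝ) ^ (1 / 2 : ℝ) * (n : ℝ) ^ (2 : ℝ)) := by ring
      _ ≤ ‖T (e0 k) n‖ * (n : ℝ) ^ z.re := mul_le_mul h7 h8 (by positivity) (norm_nonneg _)
  calc ‖(∑ q ∈ Q s X, vl s q n) - (if IsSquare n then ((c0 * X * af n : ℝ) : ℂ) else 0)‖ * (‖T (ei β) n‖ / (n : ℝ) ^ z.re)
      ≤ (C * √X * √n) * (‖T (ei β) n‖ / (n : ℝ) ^ z.re) := mul_le_mul_of_nonneg_right h5 (by positivity)
    _ = C * √X * (√n * (‖T (ei β) n‖ / (n : ℝ) ^ z.re)) := by ring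
    _ ≤ _ := mul_le_mul_of_nonneg_left h6 (by positivity)

end

end Pool.Agent.U575.NC
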