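import Pool.Agent.U575.NC.Wt

/-! From local moments on the critical line to asymptotics near it. -/

set_option autoImplicit false

open Complex Set Filter Topology MeasureTheory

namespace Pool.Agent.U575.NC

open Pool.Agent.N879.QM
open Pool.Agent.N879.QM.Eul

noncomputable section

lemma PP_diff {s : ℤ} {q : ℕ} (h : Is s q) {k : ℕ} (β : Fin k → ℝ) : Differentiable ℂ (PP s q β) := by
  unfold PP
  apply Differentiable.fun_finsetProd
  intro j _
  exact (LL_diff h).comp (by fun_prop)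

lemma im_shift {A x y : ℝ} (hA : 0 ≤ A) (hx : |x| ≤ A) : 1 + |y + x| ≤ (1 + A) * (1 + |y|) := by
  have := abs_add_le y x
  nlinarith [abs_nonneg y]

/-- **asymptotics near the line from local moments on it** -/
theorem fwd (k m : ℕ) (hkm : k ≤ m) (A : ℝ) (hA : 0 ≤ A) : ∃ A' D X₁ : ℝ, 0 < A' ∧ 0 < D ∧ 1 < X₁ ∧
    ∀ (s : ℤ) (X : ℝ), s = 1 ∨ s = -1 → X₁ ≤ X → ∀ δ : ℝ, 0 < δ → δ ≤ 1 / 16 → ∀ β : Fin k → ℝ, (∀ j, |β j| ≤ A) →
      ‖(∑ q ∈ Q s X, PP s q β (1 / 2 + δ)) - ((c0 * X : ℝ) : ℂ) * Mser β (2 * δ)‖ ≤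
        D * (X ^ (11 / 16 : ℝ) + X ^ (-δ / 32) * δ⁻¹ * (JJ s X A' m (1 / 2) + X) +
          X * (X ^ (-δ / 64) * (1 + 1 / δ) ^ (R k + 1))) := by
  obtain ⟨A', DG, X1, hA', hDG, hX1, hGW⟩ := GW m A hA
  obtain ⟨G, hG1, hG⟩ := growth
  obtain ⟨C, hC, hR⟩ := fam_right
  have hCC : 0 < CC k := Real.exp_pos _
  have hDD : 0 ≤ DD k := tsum_nonneg fun _ => norm_nonneg _
  set D : ℝ := C * DD k + (2 * (1 + k) + k * (DG + 1)) + 4 * CC k + 1 with hD
  have hD1 : 0 < D := by positivity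
  refine ⟨A', D, max X1 (Real.exp 64), hA', hD1, lt_max_of_lt_left hX1, fun s X hs hX δ hδ hδ1 β hβ => ?_⟩
  have hX1' : X1 ≤ X := (le_max_left _ _).trans hX
  have hX2 : Real.exp 64 ≤ X := (le_max_right _ _).trans hX
  have hXone : 1 ≤ X := by linarith
  have hX0 : 0 < X := by linarith
  have hlog : 64 ≤ Real.log X := by
    rw [Real.le_log_iff_exp_le hX0]
    exact hX2
  set K : ℝ := Real.log X / 64 with hK
  set l : ℝ := Real.log X / 16 with hl
  have hK1 : 1 ≤ K := by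
    rw [hK]
    linarith
  have hK0 : 0 < K := by linarith
  have hgl := gauss_le hK1
  have hc0 : 0 < c0 := by
    unfold c0
    positivity
  have hc01 : c0 ≤ 1 := by
    unfold c0
    rw [div_le_one (by positivity)]
    nlinarith [Real.pi_gt_three]
  -- the two functions
  set f1 : ℂ → ℂ := fun z => ∑ q ∈ Q s X, PP s q β z with hf1
  set f2 : ℂ → ℂ := fun z => Mser β (2 * z - 1) with hf2
  set z0 : ℂ := 1 / 2 + δ with hz0
  have hz0re : z0.re = 1 / 2 + δ := by simp [hz0]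
  have hz0im : z0.im = 0 := by simp [hz0]
  have hf1d : Differentiable ℂ f1 := by
    simp only [hf1]
    apply Differentiable.fun_sum
    intro q hq
    exact PP_diff (mem_Q hq).2.2 β
  have hPg : ∀ q ∈ Q s X, ∀ z : ℂ, -1 / 4 ≤ z.re → ‖PP s q β z‖ ≤ (G * X * (1 + A)) ^ k * (1 + |z.im|) ^ k := by
    intro q hq z hz
    obtain ⟨hq2, hqX, hI⟩ := mem_Q hq
    unfold PP
    rw [norm_prod, ← mul_pow]
    calc ∏ j, ‖LL s q (z + I * (β j : ℂ))‖ ≤ ∏ _j : Fin k, (G * X * (1 + A) * (1 + |z.im|)) := by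
          refine Finset.prod_le_prod (fun _ _ => norm_nonneg _) fun j _ => ?_
          have h1 := hG s q hI (z + I * (β j : ℂ)) (by simpa using hz)
          have h2 : (z + I * (β j : ℂ)).im = z.im + β j := by simp
          rw [h2] at h1
          have h3 := im_shift (y := z.im) hA (hβ j)
          calc ‖LL s q (z + I * (β j : ℂ))‖ ≤ G * (q * (1 + |z.im + β j|)) := h1
            _ ≤ G * (X * ((1 + A) * (1 + |z.im|))) := by
                refine mul_le_mul_of_nonneg_left ?_ (by linarith)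
                exact mul_le_mul hqX.le h3 (by positivity) hX0.le
            _ = _ := by ring
      _ = _ := by rw [Finset.prod_const, Finset.card_univ, Fintype.card_fin]
  have hf1g : ∀ z : ℂ, -1 / 4 ≤ z.re → ‖f1 z‖ ≤ X * (G * X * (1 + A)) ^ k * (1 + |z.im|) ^ k := by
    intro z hz
    simp only [hf1]
    refine (norm_sum_le _ _).trans ?_
    calc ∑ q ∈ Q s X, ‖PP s q β z‖ ≤ ∑ _q ∈ Q s X, (G * X * (1 + A)) ^ k * (1 + |z.im|) ^ k :=
          Finset.sum_le_sum fun q hq => hPg q hq z hz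
      _ = (Q s X).card * ((G * X * (1 + A)) ^ k * (1 + |z.im|) ^ k) := by rw [Finset.sum_const, nsmul_eq_mul]
      _ ≤ X * ((G * X * (1 + A)) ^ k * (1 + |z.im|) ^ k) :=
          mul_le_mul_of_nonneg_right (card_Q s hXone) (by positivity)
      _ = _ := by ring
  set MB : ℝ := CC k * (1 + 1 / δ) ^ R k with hMB
  have hMB0 : 0 < MB := by positivity
  have hf2g : ∀ z : ℂ, 1 / 2 + δ / 2 ≤ z.re → ‖f2 z‖ ≤ MB := by
    intro z hz
    have h1 : δ ≤ (2 * z - 1).re := by
      simp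
      linarith
    refine (Mser_bd β (by linarith)).trans ?_
    rw [hMB]
    have h2 : 1 / (2 * z - 1).re ≤ 1 / δ := one_div_le_one_div_of_le hδ h1
    have h3 : 0 ≤ 1 / (2 * z - 1).re := by
      have : 0 < (2 * z - 1).re := by linarith
      positivity
    gcongr
  -- the pole formulas
  have p1 := pole_ker (f := f1) (z₀ := z0) (a := -δ) (b := 2) (G := X * (G * X * (1 + A)) ^ k) (N := k) l hK0
    (by linarith) (by norm_num) (fun w _ _ => hf1d _) (fun w h1 h2 => by
      have := hf1g (z0 + w) (by rw [add_re, hz0re]; linarith)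
      rw [add_im, hz0im, zero_add] at this
      exact this)
  have p2 := pole_ker (f := f2) (z₀ := z0) (a := -(δ / 2)) (b := 2) (G := MB) (N := 0) l hK0
    (by linarith) (by norm_num) (fun w h1 h2 => by
      have h3 : 0 < (2 * (z0 + w) - 1).re := by
        simp [hz0re]
        linarith
      have h4 := Mser_diff β h3
      exact DifferentiableAt.comp (z0 + w) h4 (by fun_prop)) (fun w h1 h2 => by
      rw [pow_zero, mul_one]
      exact hf2g _ (by rw [add_re, hz0re]; linarith))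
  have hf2z : f2 z0 = Mser β (2 * δ) := by
    simp only [hf2, hz0]
    congr 1
    ring
  -- continuity on lines
  have cont1 : ∀ x : ℝ, Continuous fun y : ℝ => f1 (z0 + (x + y * I)) := fun x => hf1d.continuous.comp (by fun_prop)
  have cont2 : ∀ x : ℝ, -(δ / 2) ≤ x → Continuous fun y : ℝ => f2 (z0 + (x + y * I)) := by
    intro x hx
    rw [continuous_iff_continuousAt]
    intro y
    have h3 : 0 < (2 * (z0 + (x + y * I)) - 1).re := by
      simp [hz0re]
      linarith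
    have h4 := (Mser_diff β h3).continuousAt
    exact ContinuousAt.comp (f := fun y : ℝ => 2 * (z0 + ((x : ℂ) + y * I)) - 1) h4 (by fun_prop)
  have hre : ∀ x y : ℝ, (z0 + (x + y * I)).re = 1 / 2 + δ + x := fun x y => by simp [hz0re]
  have him : ∀ x y : ℝ, (z0 + (x + y * I)).im = y := fun x y => by simp [hz0im]
  have g1 : ∀ x : ℝ, -δ ≤ x → ∀ y : ℝ, ‖f1 (z0 + (x + y * I))‖ ≤ X * (G * X * (1 + A)) ^ k * (1 + |y|) ^ k := by
    intro x hx y
    have := hf1g (z0 + (x + y * I)) (by rw [hre]; linarith)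
    rwa [him] at this
  have g2 : ∀ x : ℝ, -(δ / 2) ≤ x → ∀ y : ℝ, ‖f2 (z0 + (x + y * I))‖ ≤ MB * (1 + |y|) ^ 0 := by
    intro x hx y
    rw [pow_zero, mul_one]
    exact hf2g _ (by rw [hre]; linarith)
  -- T1
  have T1 : ‖(∫ y : ℝ, f1 (z0 + ((2 : ℝ) + y * I)) * ker l K ((2 : ℝ) + y * I) / ((2 : ℝ) + y * I)) -
      ((c0 * X : ℝ) : ℂ) * ∫ y : ℝ, f2 (z0 + ((2 : ℝ) + y * I)) * ker l K ((2 : ℝ) + y * I) / ((2 : ℝ) + y * I)‖ ≤
      C * DD k * X ^ (11 / 16 : ℝ) := by
    have i1 := (ker_line (cont1 2) (g1 2 (by linarith)) l hK0 (x := 2) (by norm_num)).1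
    have i2 := (ker_line (cont2 2 (by linarith)) (g2 2 (by linarith)) l hK0 (x := 2) (by norm_num)).1
    rw [← integral_const_mul, ← integral_sub i1 (i2.const_mul _)]
    have e : (fun y : ℝ => f1 (z0 + ((2 : ℝ) + y * I)) * ker l K ((2 : ℝ) + y * I) / ((2 : ℝ) + y * I) -
        ((c0 * X : ℝ) : ℂ) * (f2 (z0 + ((2 : ℝ) + y * I)) * ker l K ((2 : ℝ) + y * I) / ((2 : ℝ) + y * I))) =
        fun y : ℝ => (f1 (z0 + ((2 : ℝ) + y * I)) - ((c0 * X : ℝ) : ℂ) * f2 (z0 + ((2 : ℝ) + y * I))) *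
          ker l K ((2 : ℝ) + y * I) / ((2 : ℝ) + y * I) := by
      funext y
      ring
    rw [e]
    have hb : ∀ y : ℝ, ‖f1 (z0 + ((2 : ℝ) + y * I)) - ((c0 * X : ℝ) : ℂ) * f2 (z0 + ((2 : ℝ) + y * I))‖ ≤
        C * √X * DD k := fun y => hR s X hs hXone β _ (by rw [hre]; linarith)
    have h1 := (ker_line (g := fun y : ℝ => f1 (z0 + ((2 : ℝ) + y * I)) -
      ((c0 * X : ℝ) : ℂ) * f2 (z0 + ((2 : ℝ) + y * I))) ((cont1 2).sub (continuous_const.mul (cont2 2 (by linarith))))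
      (G := C * √X * DD k) (N := 0) (fun y => by rw [pow_zero, mul_one]; exact hb y) l hK0 (x := 2) (by norm_num)).2
    refine h1.trans ?_
    have h2 : ∫ y : ℝ, ‖f1 (z0 + ((2 : ℝ) + y * I)) - ((c0 * X : ℝ) : ℂ) * f2 (z0 + ((2 : ℝ) + y * I))‖ *
        Real.exp (-K * y ^ 2) ≤ ∫ y : ℝ, (C * √X * DD k) * Real.exp (-K * y ^ 2) := by
      apply integral_mono_of_nonneg
      · exact Eventually.of_forall fun y => by positivity
      · exact (integrable_exp_neg_mul_sq hK0).const_mul _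
      · exact Eventually.of_forall fun y => mul_le_mul_of_nonneg_right (hb y) (Real.exp_pos _).le
    rw [integral_const_mul] at h2
    have h3 : Real.exp (l * 2 + K * 2 ^ 2) = X ^ (3 / 16 : ℝ) := by
      rw [Real.rpow_def_of_pos hX0, hl, hK]
      congr 1
      ring
    have h4 : √X * X ^ (3 / 16 : ℝ) = X ^ (11 / 16 : ℝ) := by
      rw [Real.sqrt_eq_rpow, ← Real.rpow_add hX0]
      norm_num
    rw [h3, abs_of_pos (by norm_num : (0 : ℝ) < 2)]
    have hnn : 0 ≤ C * √X * DD k := by positivity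
    calc X ^ (3 / 16 : ℝ) / 2 * _ ≤ X ^ (3 / 16 : ℝ) / 2 * ((C * √X * DD k) * 2) := by
          refine mul_le_mul_of_nonneg_left (h2.trans (mul_le_mul_of_nonneg_left hgl hnn)) (by positivity)
      _ = C * DD k * (√X * X ^ (3 / 16 : ℝ)) := by ring
      _ = _ := by rw [h4]
  -- T2
  have T2 : ‖∫ y : ℝ, f1 (z0 + ((-δ : ℝ) + y * I)) * ker l K ((-δ : ℝ) + y * I) / ((-δ : ℝ) + y * I)‖ ≤
      X ^ (-δ / 32) * δ⁻¹ * ((2 * (1 + k) + k * (DG + 1)) * (JJ s X A' m (1 / 2) + X)) := by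
    have h1 := (ker_line (cont1 (-δ)) (g1 (-δ) le_rfl) l hK0 (x := -δ) (by linarith)).2
    refine h1.trans ?_
    have h3 : Real.exp (l * -δ + K * (-δ) ^ 2) ≤ X ^ (-δ / 32) := by
      rw [Real.rpow_def_of_pos hX0, hl, hK]
      apply Real.exp_le_exp.2
      nlinarith [mul_nonneg (mul_nonneg (show 0 ≤ Real.log X by linarith) hδ.le) (show 0 ≤ 1 / 16 - δ by linarith),
        mul_nonneg (show 0 ≤ Real.log X by linarith) hδ.le]
    rw [abs_neg, abs_of_pos hδ, div_eq_mul_inv]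
    refine mul_le_mul (mul_le_mul_of_nonneg_right h3 (by positivity)) ?_ ?_ (by positivity)
    · have e1 : ∀ y : ℝ, z0 + ((-δ : ℝ) + y * I) = ((1 / 2 : ℝ) : ℂ) + y * I := fun y => by
        rw [hz0]
        push_cast
        ring
      have hb : ∀ y : ℝ, ‖f1 (z0 + ((-δ : ℝ) + y * I))‖ ≤ X * (1 + k) +
          ∑ j, ∑ q ∈ Q s X, ‖LL s q (((1 / 2 : ℝ) : ℂ) + (β j + y : ℝ) * I)‖ ^ m := by
        intro y
        rw [e1]
        simp only [hf1]
        refine (norm_sum_le _ _).trans ?_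
        have h5 : ∀ q ∈ Q s X, ‖PP s q β (((1 / 2 : ℝ) : ℂ) + y * I)‖ ≤
            (1 + k) + ∑ j, ‖LL s q (((1 / 2 : ℝ) : ℂ) + (β j + y : ℝ) * I)‖ ^ m := by
          intro q hq
          unfold PP
          rw [norm_prod]
          refine (prod_le_pow hkm _ fun j => norm_nonneg _).trans (le_of_eq ?_)
          rw [Finset.sum_add_distrib, Finset.sum_const, Finset.card_univ, Fintype.card_fin, nsmul_eq_mul, mul_one,
            ← add_assoc]
          congr 1
          refine Finset.sum_congr rfl fun j _ => ?_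
          congr 3
          push_cast
          ring
        refine (Finset.sum_le_sum h5).trans ?_
        rw [Finset.sum_add_distrib, Finset.sum_const, nsmul_eq_mul, Finset.sum_comm]
        exact add_le_add (mul_le_mul_of_nonneg_right (card_Q s hXone) (by positivity)) le_rfl
      have hint : ∀ j : Fin k, ∀ q ∈ Q s X, Integrable (fun y : ℝ =>
          ‖LL s q (((1 / 2 : ℝ) : ℂ) + (β j + y : ℝ) * I)‖ ^ m * Real.exp (-K * y ^ 2)) := by
        intro j q hq
        obtain ⟨hq2, hqX, hI⟩ := mem_Q hq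
        have hcc : Continuous fun y : ℝ => LL s q (((1 / 2 : ℝ) : ℂ) + (β j + y : ℝ) * I) ^ m :=
          (LL_cont hI (1 / 2) (β j)).pow m
        have := int_line hcc (G := (G * X * (1 + A)) ^ m) (N := m) (fun y => by
          rw [norm_pow, ← mul_pow]
          refine pow_le_pow_left₀ (norm_nonneg _) ?_ m
          have h1 := hG s q hI (((1 / 2 : ℝ) : ℂ) + (β j + y : ℝ) * I) (by simp; norm_num)
          have h2 : (((1 / 2 : ℝ) : ℂ) + (β j + y : ℝ) * I).im = y + β j := by simp [add_comm]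
          rw [h2] at h1
          have h3 := im_shift (y := y) hA (hβ j)
          calc ‖LL s q (((1 / 2 : ℝ) : ℂ) + (β j + y : ℝ) * I)‖ ≤ G * (q * (1 + |y + β j|)) := h1
            _ ≤ G * (X * ((1 + A) * (1 + |y|))) := by
                refine mul_le_mul_of_nonneg_left ?_ (by linarith)
                exact mul_le_mul hqX.le h3 (by positivity) hX0.le
            _ = _ := by ring) hK0
        simpa only [norm_pow] using this
      have h6 : ∫ y : ℝ, ‖f1 (z0 + ((-δ : ℝ) + y * I))‖ * Real.exp (-K * y ^ 2) ≤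
          ∫ y : ℝ, ((X * (1 + k)) * Real.exp (-K * y ^ 2) +
          ∑ j, ∑ q ∈ Q s X, ‖LL s q (((1 / 2 : ℝ) : ℂ) + (β j + y : ℝ) * I)‖ ^ m * Real.exp (-K * y ^ 2)) := by
        apply integral_mono_of_nonneg
        · exact Eventually.of_forall fun y => by positivity
        · exact ((integrable_exp_neg_mul_sq hK0).const_mul _).add
            (integrable_finset_sum _ fun j _ => integrable_finset_sum _ fun q hq => hint j q hq)
        · refine Eventually.of_forall fun y => ?_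
          simp only
          have := mul_le_mul_of_nonneg_right (hb y) (Real.exp_pos (-K * y ^ 2)).le
          refine this.trans (le_of_eq ?_)
          rw [add_mul, Finset.sum_mul]
          congr 1
          refine Finset.sum_congr rfl fun j _ => ?_
          rw [Finset.sum_mul]
      refine h6.trans ?_
      rw [integral_add ((integrable_exp_neg_mul_sq hK0).const_mul _)
        (integrable_finset_sum _ fun j _ => integrable_finset_sum _ fun q hq => hint j q hq), integral_const_mul,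
        integral_finset_sum _ fun j _ => integrable_finset_sum _ fun q hq => hint j q hq]
      have h7 : ∀ j : Fin k, ∫ y : ℝ, ∑ q ∈ Q s X, ‖LL s q (((1 / 2 : ℝ) : ℂ) + (β j + y : ℝ) * I)‖ ^ m *
          Real.exp (-K * y ^ 2) ≤ JJ s X A' m (1 / 2) + DG := by
        intro j
        rw [integral_finset_sum _ fun q hq => hint j q hq]
        exact hGW s X hX1' (1 / 2) (by norm_num) (fun _ => β j) (fun _ => hβ j)
      have hJ0 := JJ_nonneg s X hA'.le m (1 / 2)
      have h8 : ∑ j : Fin k, ∫ y : ℝ, ∑ q ∈ Q s X, ‖LL s q (((1 / 2 : ℝ) : ℂ) + (β j + y : ℝ) * I)‖ ^ m *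
          Real.exp (-K * y ^ 2) ≤ k * (JJ s X A' m (1 / 2) + DG) := by
        refine (Finset.sum_le_sum fun j _ => h7 j).trans ?_
        rw [Finset.sum_const, Finset.card_univ, Fintype.card_fin, nsmul_eq_mul]
      have hk0 : (0 : ℝ) ≤ k := Nat.cast_nonneg k
      have h9 : X * (1 + k) * ∫ y : ℝ, Real.exp (-K * y ^ 2) ≤ X * (1 + k) * 2 :=
        mul_le_mul_of_nonneg_left hgl (by positivity)
      have h10 : k * (JJ s X A' m (1 / 2) + DG) ≤ k * (DG + 1) * (JJ s X A' m (1 / 2) + X) := by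
        have : JJ s X A' m (1 / 2) + DG ≤ (DG + 1) * (JJ s X A' m (1 / 2) + X) := by nlinarith
        calc k * (JJ s X A' m (1 / 2) + DG) ≤ k * ((DG + 1) * (JJ s X A' m (1 / 2) + X)) :=
              mul_le_mul_of_nonneg_left this hk0
          _ = _ := by ring
      have h11 : X * (1 + k) * 2 ≤ 2 * (1 + k) * (JJ s X A' m (1 / 2) + X) := by nlinarith
      calc _ ≤ X * (1 + k) * 2 + k * (JJ s X A' m (1 / 2) + DG) := add_le_add h9 h8
        _ ≤ 2 * (1 + k) * (JJ s X A' m (1 / 2) + X) + k * (DG + 1) * (JJ s X A' m (1 / 2) + X) := add_le_add h11 h10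
        _ = _ := by ring
    · exact integral_nonneg fun y => by positivity
  -- T3
  have T3 : ‖∫ y : ℝ, f2 (z0 + ((-(δ / 2) : ℝ) + y * I)) * ker l K ((-(δ / 2) : ℝ) + y * I) /
      ((-(δ / 2) : ℝ) + y * I)‖ ≤ 4 * CC k * (X ^ (-δ / 64) * (1 + 1 / δ) ^ (R k + 1)) := by
    have h1 := (ker_line (cont2 (-(δ / 2)) le_rfl) (g2 (-(δ / 2)) le_rfl) l hK0 (x := -(δ / 2)) (by linarith)).2
    refine h1.trans ?_
    have h3 : Real.exp (l * -(δ / 2) + K * (-(δ / 2)) ^ 2) ≤ X ^ (-δ / 64) := by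
      rw [Real.rpow_def_of_pos hX0, hl, hK]
      apply Real.exp_le_exp.2
      nlinarith [mul_nonneg (mul_nonneg (show 0 ≤ Real.log X by linarith) hδ.le) (show 0 ≤ 1 / 16 - δ by linarith),
        mul_nonneg (show 0 ≤ Real.log X by linarith) hδ.le]
    rw [abs_neg, abs_of_pos (by linarith)]
    have h4 : ∫ y : ℝ, ‖f2 (z0 + ((-(δ / 2) : ℝ) + y * I))‖ * Real.exp (-K * y ^ 2) ≤ MB * 2 := by
      have : ∫ y : ℝ, ‖f2 (z0 + ((-(δ / 2) : ℝ) + y * I))‖ * Real.exp (-K * y ^ 2) ≤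
          ∫ y : ℝ, MB * Real.exp (-K * y ^ 2) := by
        apply integral_mono_of_nonneg
        · exact Eventually.of_forall fun y => by positivity
        · exact (integrable_exp_neg_mul_sq hK0).const_mul _
        · exact Eventually.of_forall fun y => mul_le_mul_of_nonneg_right (by
            have := g2 (-(δ / 2)) le_rfl y
            rwa [pow_zero, mul_one] at this) (Real.exp_pos _).le
      rw [integral_const_mul] at this
      exact this.trans (mul_le_mul_of_nonneg_left hgl hMB0.le)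
    calc _ ≤ X ^ (-δ / 64) / (δ / 2) * (MB * 2) :=
          mul_le_mul (div_le_div_of_nonneg_right h3 (by linarith)) h4 (integral_nonneg fun y => by positivity)
            (by positivity)
      _ = 4 * CC k * (X ^ (-δ / 64) * ((1 + 1 / δ) ^ R k * (1 / δ))) := by
          rw [hMB]
          field_simp
          ring
      _ ≤ 4 * CC k * (X ^ (-δ / 64) * ((1 + 1 / δ) ^ R k * (1 + 1 / δ))) := by
          have : 1 / δ ≤ 1 + 1 / δ := by linarith
          gcongr
      _ = _ := by rw [pow_succ]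
  -- conclusion
  have hmain : 2 * Real.pi * (f1 z0 - ((c0 * X : ℝ) : ℂ) * f2 z0) =
      ((∫ y : ℝ, f1 (z0 + ((2 : ℝ) + y * I)) * ker l K ((2 : ℝ) + y * I) / ((2 : ℝ) + y * I)) -
      ((c0 * X : ℝ) : ℂ) * ∫ y : ℝ, f2 (z0 + ((2 : ℝ) + y * I)) * ker l K ((2 : ℝ) + y * I) / ((2 : ℝ) + y * I)) -
      (∫ y : ℝ, f1 (z0 + ((-δ : ℝ) + y * I)) * ker l K ((-δ : ℝ) + y * I) / ((-δ : ℝ) + y * I)) +
      ((c0 * X : ℝ) : ℂ) * ∫ y : ℝ, f2 (z0 + ((-(δ / 2) : ℝ) + y * I)) * ker l K ((-(δ / 2) : ℝ) + y * I) /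
      ((-(δ / 2) : ℝ) + y * I) := by
    linear_combination -p1 + ((c0 * X : ℝ) : ℂ) * p2
  have hpi : ‖(2 * Real.pi * (f1 z0 - ((c0 * X : ℝ) : ℂ) * f2 z0) : ℂ)‖ =
      2 * Real.pi * ‖f1 z0 - ((c0 * X : ℝ) : ℂ) * f2 z0‖ := by
    rw [norm_mul, norm_mul, Complex.norm_real, Real.norm_eq_abs, abs_of_pos Real.pi_pos]
    norm_num
  have hfin : ‖f1 z0 - ((c0 * X : ℝ) : ℂ) * f2 z0‖ ≤ ‖(2 * Real.pi * (f1 z0 - ((c0 * X : ℝ) : ℂ) * f2 z0) : ℂ)‖ := by
    rw [hpi]
    have : 1 ≤ 2 * Real.pi := by linarith [Real.pi_gt_three]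
    exact le_mul_of_one_le_left (norm_nonneg _) this
  rw [← hf2z]
  refine hfin.trans ?_
  rw [hmain]
  refine (norm_add_le _ _).trans ?_
  refine (add_le_add (norm_sub_le _ _) le_rfl).trans ?_
  rw [norm_mul ((c0 * X : ℝ) : ℂ) (∫ y : ℝ, f2 (z0 + ((-(δ / 2) : ℝ) + y * I)) * ker l K ((-(δ / 2) : ℝ) + y * I) /
      ((-(δ / 2) : ℝ) + y * I)), Complex.norm_real, Real.norm_eq_abs, abs_of_pos (by positivity : 0 < c0 * X)]
  have hJ0 := JJ_nonneg s X hA'.le m (1 / 2)
  set a1 := X ^ (11 / 16 : ℝ) with ha1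
  set a2 := X ^ (-δ / 32) * δ⁻¹ * (JJ s X A' m (1 / 2) + X) with ha2
  set a3 := X ^ (-δ / 64) * (1 + 1 / δ) ^ (R k + 1) with ha3
  have ha1p : 0 ≤ a1 := by positivity
  have ha2p : 0 ≤ a2 := by positivity
  have ha3p : 0 ≤ a3 := by positivity
  have e2 : X ^ (-δ / 32) * δ⁻¹ * ((2 * (1 + k) + k * (DG + 1)) * (JJ s X A' m (1 / 2) + X)) =
      (2 * (1 + k) + k * (DG + 1)) * a2 := by
    rw [ha2]
    ring
  rw [e2] at T2
  have h5 : c0 * X * (4 * CC k * a3) ≤ 4 * CC k * (X * a3) := by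
    have : c0 * (4 * CC k * (X * a3)) ≤ 1 * (4 * CC k * (X * a3)) := mul_le_mul_of_nonneg_right hc01 (by positivity)
    linarith
  have h6 : 0 ≤ C * DD k := by positivity
  have h7 : 0 ≤ (2 * (1 + (k : ℝ)) + k * (DG + 1)) := by positivity
  have hXa3 : 0 ≤ X * a3 := by positivity
  calc _ ≤ C * DD k * a1 + (2 * (1 + k) + k * (DG + 1)) * a2 + 4 * CC k * (X * a3) := by
        refine add_le_add (add_le_add T1 T2) ?_
        exact (mul_le_mul_of_nonneg_left T3 (by positivity)).trans h5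
    _ ≤ D * a1 + D * a2 + D * (X * a3) := by
        refine add_le_add (add_le_add ?_ ?_) ?_
        · exact mul_le_mul_of_nonneg_right (by rw [hD]; linarith) ha1p
        · exact mul_le_mul_of_nonneg_right (by rw [hD]; linarith) ha2p
        · exact mul_le_mul_of_nonneg_right (by rw [hD]; linarith) hXa3
    _ = _ := by ring

end

end Pool.Agent.U575.NC
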