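import Pool.Agent.U575.NC.Ker

/-! The kernel `exp (l w + K w²) / w`. -/

set_option autoImplicit false

open Complex Set Filter Topology MeasureTheory

namespace Pool.Agent.U575.NC

noncomputable section

lemma re_le_norm_neg {s : ℂ} : |s.re| ≤ ‖s‖ := Complex.abs_re_le_norm s

/-- the value at a simple pole -/
theorem pole {h : ℂ → ℂ} {a b B : ℝ} (ha : a < 0) (hb : 0 < b)
    (hd : ∀ s : ℂ, a ≤ s.re → s.re ≤ b → DifferentiableAt ℂ h s)
    (hB : ∀ s : ℂ, a ≤ s.re → s.re ≤ b → ‖h s‖ ≤ B * (1 + |s.im|) ^ (-(3 / 2 : ℝ))) :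
    (∫ y : ℝ, h (b + y * I) / (b + y * I)) - ∫ y : ℝ, h (a + y * I) / (a + y * I) = 2 * Real.pi * h 0 := by
  have hab : a < b := by linarith
  set M : ℝ := Real.exp (a ^ 2 + b ^ 2) with hM
  have hM0 : 0 < M := Real.exp_pos _
  have hB0 : 0 ≤ B := by
    have := (norm_nonneg _).trans (hB 0 (by simpa using ha.le) (by simpa using hb.le))
    simpa using this
  set g : ℂ → ℂ := fun s => h s - h 0 * cexp (s ^ 2) with hg
  have hg0 : g 0 = 0 := by simp [hg]
  have hgd : ∀ s : ℂ, a ≤ s.re → s.re ≤ b → DifferentiableAt ℂ g s := by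
    intro s h1 h2
    exact (hd s h1 h2).sub (by fun_prop)
  set C1 : ℝ := B + ‖h 0‖ * (M * 4) with hC1
  have hC10 : 0 ≤ C1 := by positivity
  have hgb : ∀ s : ℂ, a ≤ s.re → s.re ≤ b → ‖g s‖ ≤ C1 * (1 + |s.im|) ^ (-(3 / 2 : ℝ)) := by
    intro s h1 h2
    simp only [hg]
    refine (norm_sub_le _ _).trans ?_
    rw [norm_mul, gs_norm, hC1, add_mul]
    refine add_le_add (hB s h1 h2) ?_
    have h4 : Real.exp (s.re ^ 2 - s.im ^ 2) ≤ M * Real.exp (-s.im ^ 2) := by
      rw [hM, ← Real.exp_add]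
      apply Real.exp_le_exp.2
      have : s.re ^ 2 ≤ a ^ 2 + b ^ 2 := by
        rcases le_or_gt 0 s.re with h | h
        · nlinarith [sq_nonneg a]
        · nlinarith [sq_nonneg b]
      linarith
    have h5 := gs_decay s.im
    calc ‖h 0‖ * Real.exp (s.re ^ 2 - s.im ^ 2) ≤ ‖h 0‖ * (M * (4 * (1 + |s.im|) ^ (-(3 / 2 : ℝ)))) := by
          refine mul_le_mul_of_nonneg_left (h4.trans ?_) (norm_nonneg _)
          exact mul_le_mul_of_nonneg_left h5 hM0.le
      _ = _ := by ring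
  set F : ℂ → ℂ := dslope g 0 with hF
  have hF1 : ∀ s : ℂ, s ≠ 0 → F s = g s / s := by
    intro s hs
    simp only [hF]
    rw [dslope_of_ne g hs, slope_def_field, hg0, sub_zero, sub_zero]
  have hFd : ∀ s : ℂ, a ≤ s.re → s.re ≤ b → DifferentiableAt ℂ F s := by
    intro s h1 h2
    by_cases hs : s = 0
    · subst hs
      have hU : {z : ℂ | a < z.re ∧ z.re < b} ∈ 𝓝 (0 : ℂ) := by
        apply IsOpen.mem_nhds
        · exact (isOpen_lt continuous_const continuous_re).inter (isOpen_lt continuous_re continuous_const)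
        · exact ⟨by simpa using ha, by simpa using hb⟩
      have h3 : DifferentiableOn ℂ g {z : ℂ | a < z.re ∧ z.re < b} :=
        fun z hz => (hgd z hz.1.le hz.2.le).differentiableWithinAt
      exact ((Complex.differentiableOn_dslope hU).2 h3).differentiableAt hU
    · exact (differentiableAt_dslope_of_ne hs).2 (hgd s h1 h2)
  -- compact part
  set e : ℝ := min (-a) b with he
  have he0 : 0 < e := lt_min (by linarith) hb
  have hball : ∀ s : ℂ, ‖s‖ ≤ e → a ≤ s.re ∧ s.re ≤ b ∧ |s.im| ≤ e := by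
    intro s hs
    have h1 := (abs_le.1 ((Complex.abs_re_le_norm s).trans hs))
    have h2 : e ≤ -a := min_le_left _ _
    have h3 : e ≤ b := min_le_right _ _
    exact ⟨by linarith [h1.1], by linarith [h1.2], (Complex.abs_im_le_norm s).trans hs⟩
  obtain ⟨C2, hC2⟩ : ∃ C2 : ℝ, ∀ s ∈ Metric.closedBall (0 : ℂ) e, ‖F s‖ ≤ C2 := by
    apply (isCompact_closedBall (0 : ℂ) e).exists_bound_of_continuousOn
    intro s hs
    rw [mem_closedBall_zero_iff] at hs
    obtain ⟨h1, h2, -⟩ := hball s hs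
    exact (hFd s h1 h2).continuousAt.continuousWithinAt
  have hC20 : 0 ≤ C2 := (norm_nonneg _).trans (hC2 0 (by rw [mem_closedBall_zero_iff, norm_zero]; exact he0.le))
  have hFb : ∀ s : ℂ, a ≤ s.re → s.re ≤ b →
      ‖F s‖ ≤ (C1 / e + C2 * (1 + e) ^ (3 / 2 : ℝ)) * (1 + |s.im|) ^ (-(3 / 2 : ℝ)) := by
    intro s h1 h2
    have h6 : 0 < (1 + |s.im|) ^ (-(3 / 2 : ℝ)) := by positivity
    by_cases hs : ‖s‖ ≤ e
    · have h3 := hC2 s (by rw [mem_closedBall_zero_iff]; exact hs)
      obtain ⟨-, -, h4⟩ := hball s hs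
      have h5 : 1 ≤ (1 + e) ^ (3 / 2 : ℝ) * (1 + |s.im|) ^ (-(3 / 2 : ℝ)) := by
        rw [Real.rpow_neg (by positivity), ← div_eq_mul_inv, one_le_div (by positivity)]
        exact Real.rpow_le_rpow (by positivity) (by linarith) (by norm_num)
      calc ‖F s‖ ≤ C2 * 1 := by linarith
        _ ≤ C2 * ((1 + e) ^ (3 / 2 : ℝ) * (1 + |s.im|) ^ (-(3 / 2 : ℝ))) := mul_le_mul_of_nonneg_left h5 hC20
        _ = 0 + C2 * (1 + e) ^ (3 / 2 : ℝ) * (1 + |s.im|) ^ (-(3 / 2 : ℝ)) := by ring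
        _ ≤ C1 / e * (1 + |s.im|) ^ (-(3 / 2 : ℝ)) + C2 * (1 + e) ^ (3 / 2 : ℝ) * (1 + |s.im|) ^ (-(3 / 2 : ℝ)) :=
            add_le_add (by positivity) le_rfl
        _ = _ := by ring
    · push Not at hs
      have hs0 : s ≠ 0 := by
        rintro rfl
        rw [norm_zero] at hs
        linarith
      rw [hF1 s hs0, norm_div, div_le_iff₀ (by linarith)]
      calc ‖g s‖ ≤ C1 * (1 + |s.im|) ^ (-(3 / 2 : ℝ)) := hgb s h1 h2
        _ = C1 / e * (1 + |s.im|) ^ (-(3 / 2 : ℝ)) * e := by field_simp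
        _ ≤ C1 / e * (1 + |s.im|) ^ (-(3 / 2 : ℝ)) * ‖s‖ :=
            mul_le_mul_of_nonneg_left hs.le (by positivity)
        _ ≤ (C1 / e + C2 * (1 + e) ^ (3 / 2 : ℝ)) * (1 + |s.im|) ^ (-(3 / 2 : ℝ)) * ‖s‖ := by
            refine mul_le_mul_of_nonneg_right (mul_le_mul_of_nonneg_right ?_ h6.le) (norm_nonneg _)
            have : 0 ≤ C2 * (1 + e) ^ (3 / 2 : ℝ) := by positivity
            linarith
  have key := contour_shift hab.le hFd hFb
  -- integrability of the pieces
  have hne : ∀ (x : ℝ), x ≠ 0 → ∀ y : ℝ, (x + y * I : ℂ) ≠ 0 := by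
    intro x hx y h0
    have := congrArg Complex.re h0
    simp at this
    exact hx this
  have hline : ∀ x : ℝ, x ≠ 0 → a ≤ x → x ≤ b → Integrable (fun y : ℝ => h (x + y * I) / (x + y * I)) ∧
      Integrable (fun y : ℝ => cexp ((x + y * I) ^ 2) / (x + y * I)) := by
    intro x hx h1 h2
    have hcont : ∀ s : ℂ, s.re = x → s ≠ 0 := by
      rintro s hs rfl
      exact hx (by simpa using hs.symm)
    constructor
    · have := vertical_integrable (H := fun s => h s / s) (a := x) (B := B / |x|)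
        (fun s hs => ((hd s (by rw [hs]; exact h1) (by rw [hs]; exact h2)).continuousAt).div continuousAt_id
          (hcont s hs)) (fun s hs => by
            have h3 : |x| ≤ ‖s‖ := by
              have := Complex.abs_re_le_norm s
              rwa [hs] at this
            have h4 : 0 < |x| := abs_pos.2 hx
            show ‖h s / s‖ ≤ _
            rw [norm_div, div_le_iff₀ (by linarith)]
            calc ‖h s‖ ≤ B * (1 + |s.im|) ^ (-(3 / 2 : ℝ)) := hB s (by rw [hs]; exact h1) (by rw [hs]; exact h2)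
              _ = B / |x| * (1 + |s.im|) ^ (-(3 / 2 : ℝ)) * |x| := by field_simp
              _ ≤ _ := mul_le_mul_of_nonneg_left h3 (by positivity))
      exact this
    · have := vertical_integrable (H := fun s => cexp (s ^ 2) / s) (a := x) (B := 4 * Real.exp (x ^ 2) / |x|)
        (fun s hs => by
          have h5 : ContinuousAt (fun s : ℂ => cexp (s ^ 2)) s := by fun_prop
          exact h5.div continuousAt_id (hcont s hs)) (fun s hs => by
            have h3 : |x| ≤ ‖s‖ := by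
              have := Complex.abs_re_le_norm s
              rwa [hs] at this
            have h4 : 0 < |x| := abs_pos.2 hx
            show ‖cexp (s ^ 2) / s‖ ≤ _
            rw [norm_div, gs_norm, hs, div_le_iff₀ (by linarith), sub_eq_add_neg, Real.exp_add]
            calc Real.exp (x ^ 2) * Real.exp (-s.im ^ 2) ≤ Real.exp (x ^ 2) * (4 * (1 + |s.im|) ^ (-(3 / 2 : ℝ))) :=
                  mul_le_mul_of_nonneg_left (gs_decay _) (Real.exp_pos _).le
              _ = 4 * Real.exp (x ^ 2) / |x| * (1 + |s.im|) ^ (-(3 / 2 : ℝ)) * |x| := by field_simp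
              _ ≤ _ := mul_le_mul_of_nonneg_left h3 (by positivity))
      exact this
  have hex : ∀ x : ℝ, x ≠ 0 → a ≤ x → x ≤ b → ∫ y : ℝ, F (x + y * I) =
      (∫ y : ℝ, h (x + y * I) / (x + y * I)) - h 0 * ∫ y : ℝ, cexp ((x + y * I) ^ 2) / (x + y * I) := by
    intro x hx h1 h2
    obtain ⟨i1, i2⟩ := hline x hx h1 h2
    rw [← integral_const_mul, ← integral_sub i1 (i2.const_mul _)]
    congr 1
    funext y
    rw [hF1 _ (hne x hx y)]
    simp only [hg]
    ring
  rw [hex a ha.ne le_rfl hab.le, hex b hb.ne' hab.le le_rfl] at key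
  have hgp := gauss_pole ha hb
  have : (∫ y : ℝ, h (b + y * I) / (b + y * I)) - ∫ y : ℝ, h (a + y * I) / (a + y * I) =
      h 0 * ((∫ y : ℝ, cexp ((b + y * I) ^ 2) / (b + y * I)) - ∫ y : ℝ, cexp ((a + y * I) ^ 2) / (a + y * I)) := by
    linear_combination -key
  rw [this, hgp]
  ring

/-- the kernel -/
def ker (l K : ℝ) (w : ℂ) : ℂ := cexp (l * w + K * w ^ 2)

lemma ker_norm (l K : ℝ) (w : ℂ) : ‖ker l K w‖ = Real.exp (l * w.re + K * w.re ^ 2) * Real.exp (-K * w.im ^ 2) := by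
  unfold ker
  rw [norm_exp, ← Real.exp_add]
  congr 1
  rw [add_re, sq, mul_re, mul_re, mul_re, mul_im]
  simp only [ofReal_re, ofReal_im]
  ring

lemma ker_diff (l K : ℝ) : Differentiable ℂ (ker l K) := by
  unfold ker
  fun_prop

/-- Gaussian decay beats powers -/
lemma gauss_pow {K : ℝ} (hK : 0 < K) (N : ℕ) :
    ∃ D : ℝ, 0 < D ∧ ∀ y : ℝ, (1 + |y|) ^ N * Real.exp (-K * y ^ 2) ≤ D * (1 + |y|) ^ (-(3 / 2 : ℝ)) := by
  set c : ℝ := (N : ℝ) + 2 with hc
  refine ⟨Real.exp (c ^ 2 / K + K), Real.exp_pos _, fun y => ?_⟩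
  have h1 : 0 < 1 + |y| := by positivity
  have h1' : 1 ≤ 1 + |y| := by linarith [abs_nonneg y]
  have h2 : 1 + |y| ≤ Real.exp |y| := by
    have := Real.add_one_le_exp |y|
    linarith
  rw [Real.rpow_neg h1.le, ← div_eq_mul_inv, le_div_iff₀ (by positivity)]
  have h3 : (1 + |y|) ^ N * (1 + |y|) ^ (3 / 2 : ℝ) ≤ Real.exp (c * |y|) := by
    calc (1 + |y|) ^ N * (1 + |y|) ^ (3 / 2 : ℝ) ≤ (1 + |y|) ^ (N : ℝ) * (1 + |y|) ^ (2 : ℝ) := by
          rw [Real.rpow_natCast]
          exact mul_le_mul_of_nonneg_left (Real.rpow_le_rpow_of_exponent_le h1' (by norm_num)) (by positivity)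
      _ = (1 + |y|) ^ c := by rw [← Real.rpow_add h1]
      _ ≤ (Real.exp |y|) ^ c := Real.rpow_le_rpow h1.le h2 (by positivity)
      _ = Real.exp (c * |y|) := by rw [← Real.exp_mul, mul_comm]
  calc (1 + |y|) ^ N * Real.exp (-K * y ^ 2) * (1 + |y|) ^ (3 / 2 : ℝ)
      = ((1 + |y|) ^ N * (1 + |y|) ^ (3 / 2 : ℝ)) * Real.exp (-K * y ^ 2) := by ring
    _ ≤ Real.exp (c * |y|) * Real.exp (-K * y ^ 2) := mul_le_mul_of_nonneg_right h3 (Real.exp_pos _).le
    _ = Real.exp (c * |y| - K * y ^ 2) := by rw [← Real.exp_add]; ring_nf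
    _ ≤ _ := by
      apply Real.exp_le_exp.2
      have h4 : y ^ 2 = |y| ^ 2 := (sq_abs y).symm
      rw [h4]
      have h5 : c ^ 2 / K + K - (c * |y| - K * |y| ^ 2) = (c - K * |y| / 2) ^ 2 / K + 3 / 4 * K * |y| ^ 2 + K := by
        field_simp
        ring
      have h6 : 0 ≤ (c - K * |y| / 2) ^ 2 / K + 3 / 4 * K * |y| ^ 2 + K := by positivity
      linarith

/-- the pole formula with the kernel -/
theorem pole_ker {f : ℂ → ℂ} {z₀ : ℂ} {a b G : ℝ} {N : ℕ} (l : ℝ) {K : ℝ} (hK : 0 < K) (ha : a < 0) (hb : 0 < b)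
    (hd : ∀ w : ℂ, a ≤ w.re → w.re ≤ b → DifferentiableAt ℂ f (z₀ + w))
    (hG : ∀ w : ℂ, a ≤ w.re → w.re ≤ b → ‖f (z₀ + w)‖ ≤ G * (1 + |w.im|) ^ N) :
    (∫ y : ℝ, f (z₀ + (b + y * I)) * ker l K (b + y * I) / (b + y * I)) -
      ∫ y : ℝ, f (z₀ + (a + y * I)) * ker l K (a + y * I) / (a + y * I) = 2 * Real.pi * f z₀ := by
  obtain ⟨D, hD, hDb⟩ := gauss_pow hK N
  have hG0 : 0 ≤ G := by
    have := (norm_nonneg _).trans (hG 0 (by simpa using ha.le) (by simpa using hb.le))
    simpa using this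
  set M : ℝ := Real.exp (|l| * (|a| + |b|) + K * (a ^ 2 + b ^ 2)) with hM
  have := pole (h := fun w => f (z₀ + w) * ker l K w) (B := G * M * D) ha hb (fun s h1 h2 => by
      have h3 := hd s h1 h2
      have h4 : DifferentiableAt ℂ (fun w : ℂ => f (z₀ + w)) s :=
        DifferentiableAt.comp s h3 (by fun_prop)
      exact h4.mul (ker_diff l K s)) (fun s h1 h2 => by
      have h3 : s.re ^ 2 ≤ a ^ 2 + b ^ 2 := by
        rcases le_or_gt 0 s.re with h | h
        · nlinarith [sq_nonneg a]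
        · nlinarith [sq_nonneg b]
      have h4 : |s.re| ≤ |a| + |b| := by
        rw [abs_le]
        constructor
        · have := neg_abs_le a
          have := abs_nonneg b
          linarith
        · have := le_abs_self b
          have := abs_nonneg a
          linarith
      have h5 : l * s.re ≤ |l| * (|a| + |b|) := by
        calc l * s.re ≤ |l * s.re| := le_abs_self _
          _ = |l| * |s.re| := abs_mul _ _
          _ ≤ _ := mul_le_mul_of_nonneg_left h4 (abs_nonneg _)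
      have h6 : Real.exp (l * s.re + K * s.re ^ 2) ≤ M := by
        apply Real.exp_le_exp.2
        have := mul_le_mul_of_nonneg_left h3 hK.le
        linarith
      show ‖f (z₀ + s) * ker l K s‖ ≤ _
      rw [norm_mul, ker_norm]
      calc ‖f (z₀ + s)‖ * (Real.exp (l * s.re + K * s.re ^ 2) * Real.exp (-K * s.im ^ 2))
          ≤ (G * (1 + |s.im|) ^ N) * (M * Real.exp (-K * s.im ^ 2)) := by
            refine mul_le_mul (hG s h1 h2) (mul_le_mul_of_nonneg_right h6 (Real.exp_pos _).le) (by positivity)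
              (by positivity)
        _ = G * M * ((1 + |s.im|) ^ N * Real.exp (-K * s.im ^ 2)) := by ring
        _ ≤ G * M * (D * (1 + |s.im|) ^ (-(3 / 2 : ℝ))) := mul_le_mul_of_nonneg_left (hDb s.im) (by positivity)
        _ = _ := by ring)
  rw [add_zero] at this
  rw [this]
  unfold ker
  simp

/-- integrability on one line -/
theorem int_line {g : ℝ → ℂ} (hg : Continuous g) {G : ℝ} {N : ℕ} (hG : ∀ y, ‖g y‖ ≤ G * (1 + |y|) ^ N) {K : ℝ}
    (hK : 0 < K) : Integrable (fun y : ℝ => ‖g y‖ * Real.exp (-K * y ^ 2)) := by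
  obtain ⟨D, hD, hDb⟩ := gauss_pow hK N
  refine (integrable_decay.const_mul (|G| * D)).mono' (by fun_prop) (Eventually.of_forall fun y => ?_)
  rw [Real.norm_eq_abs, abs_of_nonneg (by positivity)]
  calc ‖g y‖ * Real.exp (-K * y ^ 2) ≤ (|G| * (1 + |y|) ^ N) * Real.exp (-K * y ^ 2) := by
        refine mul_le_mul_of_nonneg_right ((hG y).trans ?_) (Real.exp_pos _).le
        exact mul_le_mul_of_nonneg_right (le_abs_self G) (by positivity)
    _ = |G| * ((1 + |y|) ^ N * Real.exp (-K * y ^ 2)) := by ring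
    _ ≤ |G| * (D * (1 + |y|) ^ (-(3 / 2 : ℝ))) := mul_le_mul_of_nonneg_left (hDb y) (abs_nonneg _)
    _ = _ := by ring

/-- the integrand on one line -/
theorem ker_line {g : ℝ → ℂ} (hg : Continuous g) {G : ℝ} {N : ℕ} (hG : ∀ y, ‖g y‖ ≤ G * (1 + |y|) ^ N) (l : ℝ) {K : ℝ}
    (hK : 0 < K) {x : ℝ} (hx : x ≠ 0) :
    Integrable (fun y : ℝ => g y * ker l K (x + y * I) / (x + y * I)) ∧
    ‖∫ y : ℝ, g y * ker l K (x + y * I) / (x + y * I)‖ ≤
      Real.exp (l * x + K * x ^ 2) / |x| * ∫ y : ℝ, ‖g y‖ * Real.exp (-K * y ^ 2) := by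
  have hint := int_line hg hG hK
  have hne : ∀ y : ℝ, (x + y * I : ℂ) ≠ 0 := by
    intro y h0
    have := congrArg Complex.re h0
    simp at this
    exact hx this
  have hx0 : 0 < |x| := abs_pos.2 hx
  have hb : ∀ y : ℝ, ‖g y * ker l K (x + y * I) / (x + y * I)‖ ≤
      Real.exp (l * x + K * x ^ 2) / |x| * (‖g y‖ * Real.exp (-K * y ^ 2)) := by
    intro y
    have h3 : |x| ≤ ‖(x + y * I : ℂ)‖ := by
      have := Complex.abs_re_le_norm (x + y * I : ℂ)
      simpa using this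
    rw [norm_div, norm_mul, ker_norm, div_le_iff₀ (by linarith)]
    simp only [add_re, ofReal_re, mul_re, I_re, mul_zero, ofReal_im, I_im, mul_one, sub_self, add_zero, add_im,
      mul_im, zero_add]
    calc ‖g y‖ * (Real.exp (l * x + K * x ^ 2) * Real.exp (-K * y ^ 2))
        = Real.exp (l * x + K * x ^ 2) / |x| * (‖g y‖ * Real.exp (-K * y ^ 2)) * |x| := by field_simp
      _ ≤ _ := mul_le_mul_of_nonneg_left h3 (by positivity)
  have hc : Continuous (fun y : ℝ => g y * ker l K (x + y * I) / (x + y * I)) := by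
    have h1 : Continuous (fun y : ℝ => ker l K (x + y * I)) := (ker_diff l K).continuous.comp (by fun_prop)
    exact (hg.mul h1).div (by fun_prop) hne
  refine ⟨(hint.const_mul _).mono' hc.aestronglyMeasurable (Eventually.of_forall hb), ?_⟩
  rw [← integral_const_mul]
  exact norm_integral_le_of_norm_le (hint.const_mul _) (Eventually.of_forall hb)

end

end Pool.Agent.U575.NC
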