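import Pool.Agent.H855R2.SF.Dir
import Pool.Agent.U575.NC.Arith
import Pool.Agent.U575.NC.Pole

/-! Growth of the L-functions of the family, and the symmetry. -/

set_option autoImplicit false

open Complex Set Filter Topology MeasureTheory
open scoped ComplexConjugate

namespace Pool.Agent.U575.NC

open Pool.Agent.N879.QM
open H855R2.SF

noncomputable section

/-- all characters -/
abbrev SA (q : ℕ) (_ : DirichletCharacter ℂ q) : Prop := (fun _ => True) q

/-- the member of the family -/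
def tD {s : ℤ} {q : ℕ} (h : Is s q) : DC SA := ⟨q, h.1, ch s q, by
    unfold ch
    rw [dif_pos h]
    exact h.2.choose_spec.1, trivial⟩

lemma tD_L {s : ℤ} {q : ℕ} (h : Is s q) (z : ℂ) : dirL (tD h) z = LL s q z := by
  have := h.1
  unfold LL dirL tD
  rw [dif_pos (by omega)]

lemma tD_Q {s : ℤ} {q : ℕ} (h : Is s q) (t : ℝ) : dirQ (tD h) t = q * (1 + |t|) := rfl

lemma LL_diff {s : ℤ} {q : ℕ} (h : Is s q) : Differentiable ℂ (LL s q) := by
  have h1 := (dir_afam SA).diff (tD h)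
  have h2 : dirL (tD h) = LL s q := funext fun z => tD_L h z
  rwa [h2] at h1

/-- **growth** -/
theorem growth : ∃ G : ℝ, 1 ≤ G ∧ ∀ (s : ℤ) (q : ℕ), Is s q → ∀ z : ℂ, -1 / 4 ≤ z.re →
    ‖LL s q z‖ ≤ G * (q * (1 + |z.im|)) := by
  have H := dir_afam SA
  obtain ⟨B, hB⟩ := H.right (1 / 4) (by norm_num)
  obtain ⟨C, hC0, hC⟩ := H.refl
  have hQ1 : ∀ i t, 1 ≤ dirQ (S := SA) i t := H.Q1
  obtain ⟨C', hC'0, hC'⟩ := pl H (a := -1 / 4) (b := 5 / 4) (ea := 1) (eb := 1 / 4) (Ca := C * |B|) (Cb := |B|)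
    (by norm_num) (by norm_num) (by norm_num) (by norm_num) (by norm_num) (by positivity) (by positivity)
  refine ⟨1 + |B| + C', by linarith [abs_nonneg B], fun s q h z hz => ?_⟩
  rw [← tD_L h, ← tD_Q h]
  set i := tD h
  have hQ := hQ1 i z.im
  have hQ0 : 0 < dirQ i z.im := by linarith
  have hright : ∀ w : ℂ, 5 / 4 ≤ w.re → ‖dirL i w‖ ≤ |B| * dirQ i w.im ^ (1 / 4 : ℝ) := by
    intro w hw
    have h1 := hB i w (by linarith)
    have h2 := hQ1 i w.im
    exact h1.trans (mul_le_mul_of_nonneg_right (le_abs_self B) (Real.rpow_nonneg (by linarith) _))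
  have hpow : ∀ e : ℝ, e ≤ 1 → dirQ i z.im ^ e ≤ dirQ i z.im := by
    intro e he
    calc dirQ i z.im ^ e ≤ dirQ i z.im ^ (1 : ℝ) := Real.rpow_le_rpow_of_exponent_le hQ he
      _ = _ := Real.rpow_one _
  rcases le_or_gt (5 / 4) z.re with h1 | h1
  · calc ‖dirL i z‖ ≤ |B| * dirQ i z.im ^ (1 / 4 : ℝ) := hright z h1
      _ ≤ |B| * dirQ i z.im := mul_le_mul_of_nonneg_left (hpow _ (by norm_num)) (abs_nonneg _)
      _ ≤ _ := mul_le_mul_of_nonneg_right (by linarith [abs_nonneg B]) hQ0.le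
  · have h2 := hC' i (fun t => by
      have h3 := hC i (3 / 4) t (by norm_num) le_rfl
      have e1 : (1 / 2 - 3 / 4 : ℝ) = -1 / 4 := by norm_num
      have e2 : (1 / 2 + 3 / 4 : ℝ) = 5 / 4 := by norm_num
      rw [e1, e2] at h3
      have h4 := hright ⟨5 / 4, t⟩ le_rfl
      have h5 := hQ1 i t
      have h6 : dirQ i t ^ (3 / 4 : ℝ) * dirQ i t ^ (1 / 4 : ℝ) = dirQ i t ^ (1 : ℝ) := by
        rw [← Real.rpow_add (by linarith)]
        norm_num
      calc ‖dirL i ⟨-1 / 4, t⟩‖ ≤ C * dirQ i t ^ (3 / 4 : ℝ) * ‖dirL i ⟨5 / 4, t⟩‖ := h3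
        _ ≤ C * dirQ i t ^ (3 / 4 : ℝ) * (|B| * dirQ i t ^ (1 / 4 : ℝ)) :=
            mul_le_mul_of_nonneg_left h4 (by positivity)
        _ = C * |B| * (dirQ i t ^ (3 / 4 : ℝ) * dirQ i t ^ (1 / 4 : ℝ)) := by ring
        _ = C * |B| * dirQ i t ^ (1 : ℝ) := by rw [h6]) (fun t => hright ⟨5 / 4, t⟩ le_rfl) z hz h1.le
    calc ‖dirL i z‖ ≤ _ := h2
      _ ≤ C' * dirQ i z.im := by
          refine mul_le_mul_of_nonneg_left (hpow _ ?_) hC'0
          have : (1 / 4 - 1 : ℝ) / (5 / 4 - -1 / 4) * (z.re - -1 / 4) ≤ 0 := by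
            apply mul_nonpos_of_nonpos_of_nonneg
            · norm_num
            · linarith
          linarith
      _ ≤ _ := mul_le_mul_of_nonneg_right (by linarith [abs_nonneg B]) hQ0.le

/-- a bound to the right -/
theorem LL_right : ∃ B : ℝ, 1 ≤ B ∧ ∀ (s : ℤ) (q : ℕ), Is s q → ∀ z : ℂ, 5 / 4 ≤ z.re → ‖LL s q z‖ ≤ B := by
  refine ⟨1 + ∑' n : ℕ, 1 / (n : ℝ) ^ (1 + 1 / 4 : ℝ), ?_, fun s q h z hz => ?_⟩
  · have : 0 ≤ ∑' n : ℕ, 1 / (n : ℝ) ^ (1 + 1 / 4 : ℝ) := tsum_nonneg fun n => by positivity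
    linarith
  · rw [← tD_L h]
    have := right_dir (χ := (tD h).χ) (δ := 1 / 4) (by norm_num) (s := z) (by linarith)
    have e : dirL (tD h) z = DirichletCharacter.LFunction (tD h).χ z := rfl
    rw [e]
    linarith

/-! ### The symmetry -/

lemma ch_real {s : ℤ} {q : ℕ} (h : Is s q) (a : ZMod q) : conj (ch s q a) = ch s q a := by
  have h1 : ch s q ^ 2 = 1 := by
    unfold ch
    rw [dif_pos h]
    exact h.2.choose_spec.2.1
  by_cases ha : IsUnit a
  · have h2 : (ch s q a) ^ 2 = 1 := by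
      have := congrArg (fun χ : DirichletCharacter ℂ q => χ a) h1
      simp only [MulChar.pow_apply' _ (two_ne_zero)] at this
      rw [this, MulChar.one_apply ha]
    rcases (_root_.sq_eq_one_iff.1 h2) with h3 | h3
    · rw [h3, map_one]
    · rw [h3, map_neg, map_one]
  · rw [MulChar.map_nonunit _ ha, map_zero]

lemma LL_conj {s : ℤ} {q : ℕ} (h : Is s q) (z : ℂ) : LL s q (conj z) = conj (LL s q z) := by
  have hq : q ≠ 0 := by have := h.1; omega
  have : NeZero q := ⟨hq⟩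
  have hd := LL_diff h
  have hd2 : Differentiable ℂ (fun z => conj (LL s q (conj z))) := by
    intro z
    exact differentiableAt_conj_conj_iff.2 (hd (conj z))
  have heq : LL s q = fun z => conj (LL s q (conj z)) := by
    refine AnalyticOnNhd.eq_of_eventuallyEq (z₀ := 2) (hd.differentiableOn.analyticOnNhd isOpen_univ)
      (hd2.differentiableOn.analyticOnNhd isOpen_univ) ?_
    have hU : {w : ℂ | 1 < w.re} ∈ 𝓝 (2 : ℂ) :=
      (isOpen_lt continuous_const continuous_re).mem_nhds (by simp)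
    filter_upwards [hU] with w hw
    have hw1 : 1 < w.re := hw
    have hw2 : 1 < (conj w).re := by simpa using hw1
    have e1 : ∀ w : ℂ, 1 < w.re → LL s q w = LSeries (fun n => ch s q n) w := by
      intro w hw
      unfold LL
      rw [dif_pos hq]
      exact DirichletCharacter.LFunction_eq_LSeries _ hw
    rw [e1 w hw1, e1 _ hw2]
    unfold LSeries
    rw [Complex.conj_tsum]
    refine tsum_congr fun n => ?_
    rcases Nat.eq_zero_or_pos n with h0 | h0
    · subst h0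
      simp
    · rw [LSeries.term_of_ne_zero (by omega), LSeries.term_of_ne_zero (by omega), map_div₀, ch_real h]
      congr 1
      rw [← conj_cpow _ _ (by rw [natCast_arg]; exact Real.pi_pos.ne), conj_natCast]
  have := congrFun heq (conj z)
  simpa using this

end

end Pool.Agent.U575.NC
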