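import Pool.Agent.H370R2.Rect

/-! Shift of a line of integration past a simple pole. -/

set_option autoImplicit false

open Complex Set Filter Topology MeasureTheory

namespace Pool.Agent.U575.NC

theorem integrable_decay : Integrable (fun y : ℝ => (1 + |y|) ^ (-(3 / 2 : ℝ))) := by
  have := integrable_one_add_norm (E := ℝ) (μ := volume) (r := 3 / 2) (by simp; norm_num)
  simpa using this

theorem vertical_integrable {H : ℂ → ℂ} {a B : ℝ}
    (hd : ∀ s : ℂ, s.re = a → ContinuousAt H s)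
    (hB : ∀ s : ℂ, s.re = a → ‖H s‖ ≤ B * (1 + |s.im|) ^ (-(3 / 2 : ℝ))) :
    Integrable (fun y : ℝ => H (a + y * Complex.I)) := by
  have hc : Continuous (fun y : ℝ => H (a + y * Complex.I)) := by
    rw [continuous_iff_continuousAt]
    intro y
    have h1 : ContinuousAt H ((a : ℂ) + y * Complex.I) := hd _ (by simp)
    exact ContinuousAt.comp (f := fun y : ℝ => (a : ℂ) + y * Complex.I) h1 (by fun_prop)
  refine (integrable_decay.const_mul B).mono' hc.aestronglyMeasurable
    (Eventually.of_forall fun y => ?_)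
  have := hB (a + y * Complex.I) (by simp)
  simpa using this

/-- contour shift (copied from `Pool.Agent.H295R2.P`) -/
theorem contour_shift {H : ℂ → ℂ} {a b B : ℝ} (hab : a ≤ b)
    (hd : ∀ s : ℂ, a ≤ s.re → s.re ≤ b → DifferentiableAt ℂ H s)
    (hB : ∀ s : ℂ, a ≤ s.re → s.re ≤ b → ‖H s‖ ≤ B * (1 + |s.im|) ^ (-(3 / 2 : ℝ))) :
    ∫ y : ℝ, H (a + y * Complex.I) = ∫ y : ℝ, H (b + y * Complex.I) := by
  have ia : Integrable (fun y : ℝ => H (a + y * Complex.I)) :=
    vertical_integrable (fun s hs => (hd s hs.ge (hs.le.trans hab)).continuousAt)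
      (fun s hs => hB s hs.ge (hs.le.trans hab))
  have ib : Integrable (fun y : ℝ => H (b + y * Complex.I)) :=
    vertical_integrable (fun s hs => (hd s (hab.trans hs.ge) hs.le).continuousAt)
      (fun s hs => hB s (hab.trans hs.ge) hs.le)
  -- rectangles
  have hrect : ∀ T : ℝ, 0 < T →
      (∫ x in a..b, H (x + (-T : ℝ) * Complex.I)) - (∫ x in a..b, H (x + (T : ℝ) * Complex.I)) +
        Complex.I • (∫ y in (-T)..T, H (b + y * Complex.I)) -
        Complex.I • (∫ y in (-T)..T, H (a + y * Complex.I)) = 0 := by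
    intro T hT
    have := Complex.integral_boundary_rect_eq_zero_of_differentiableOn H ⟨a, -T⟩ ⟨b, T⟩ ?_
    · simpa using this
    · intro s hs
      rw [Complex.mem_reProdIm] at hs
      simp only at hs
      rw [Set.uIcc_of_le hab] at hs
      exact (hd s hs.1.1 hs.1.2).differentiableWithinAt
  have hB0 : 0 ≤ B := by
    have := (norm_nonneg _).trans (hB a (by simp) (by simpa using hab))
    simpa using this
  have hhor : ∀ T : ℝ, ‖∫ x in a..b, H (x + (T : ℝ) * Complex.I)‖ ≤
      B * (1 + |T|) ^ (-(3 / 2 : ℝ)) * |b - a| := by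
    intro T
    refine intervalIntegral.norm_integral_le_of_norm_le_const fun x hx => ?_
    rw [Set.uIoc_of_le hab] at hx
    have := hB (x + (T : ℝ) * Complex.I) (by simpa using hx.1.le) (by simpa using hx.2)
    simpa using this
  have hlim0 : Tendsto (fun T : ℝ => B * (1 + |T|) ^ (-(3 / 2 : ℝ)) * |b - a|) atTop (𝓝 0) := by
    have h1 : Tendsto (fun T : ℝ => (1 + |T|)) atTop atTop :=
      tendsto_atTop_add_const_left _ _ tendsto_abs_atTop_atTop
    have h2 := (tendsto_rpow_neg_atTop (y := 3 / 2) (by norm_num)).comp h1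
    have h3 := (h2.const_mul B).mul_const |b - a|
    simpa using h3
  have hl1 : Tendsto (fun T : ℝ => ∫ x in a..b, H (x + (T : ℝ) * Complex.I)) atTop (𝓝 0) :=
    squeeze_zero_norm hhor hlim0
  have hl2 : Tendsto (fun T : ℝ => ∫ x in a..b, H (x + (-T : ℝ) * Complex.I)) atTop (𝓝 0) := by
    refine squeeze_zero_norm (a := fun T : ℝ => B * (1 + |T|) ^ (-(3 / 2 : ℝ)) * |b - a|) ?_ hlim0
    intro T
    have := hhor (-T)
    rw [abs_neg] at this
    exact this
  have hl3 := intervalIntegral_tendsto_integral ib tendsto_neg_atTop_atBot tendsto_id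
  have hl4 := intervalIntegral_tendsto_integral ia tendsto_neg_atTop_atBot tendsto_id
  have hfin := ((hl2.sub hl1).add (hl3.const_smul Complex.I)).sub (hl4.const_smul Complex.I)
  have hzero : Tendsto (fun _ : ℝ => (0:ℂ)) atTop (𝓝 0) := tendsto_const_nhds
  have huniq := tendsto_nhds_unique (hfin.congr' ?_) hzero
  · rw [sub_zero, zero_add, ← smul_sub, smul_eq_mul] at huniq
    have := (mul_eq_zero.mp huniq).resolve_left Complex.I_ne_zero
    exact (sub_eq_zero.mp this).symm
  · filter_upwards [eventually_gt_atTop 0] with T hT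
    simpa using hrect T hT

/-- the size of `exp (s ^ 2)` -/
lemma gs_norm (s : ℂ) : ‖cexp (s ^ 2)‖ = Real.exp (s.re ^ 2 - s.im ^ 2) := by
  rw [norm_exp]
  congr 1
  rw [sq, mul_re]
  ring

lemma gs_decay (y : ℝ) : Real.exp (-y ^ 2) ≤ 4 * (1 + |y|) ^ (-(3 / 2 : ℝ)) := by
  have h1 : 0 < 1 + |y| := by positivity
  have h2 : (1 + |y|) ^ (3 / 2 : ℝ) ≤ (1 + |y|) ^ (2 : ℝ) :=
    Real.rpow_le_rpow_of_exponent_le (by linarith [abs_nonneg y]) (by norm_num)
  have h3 : (1 + |y|) ^ (2 : ℝ) = (1 + |y|) ^ (2 : ℕ) := by exact_mod_cast Real.rpow_natCast (1 + |y|) 2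
  have h4 : (1 + |y|) ^ 2 ≤ 4 * Real.exp (y ^ 2) := by
    have h5 := Real.add_one_le_exp (y ^ 2)
    have h6 : |y| ^ 2 = y ^ 2 := sq_abs y
    nlinarith [sq_nonneg (|y| - 1)]
  rw [Real.rpow_neg h1.le, ← div_eq_mul_inv, le_div_iff₀ (by positivity), Real.exp_neg]
  rw [inv_mul_le_iff₀ (Real.exp_pos _)]
  rw [h3] at h2
  linarith

lemma order_id : analyticOrderNatAt (fun s : ℂ => s) 0 = 1 := by
  have h : analyticOrderAt (fun s : ℂ => s) 0 = ((1 : ℕ) : ℕ∞) := by
    rw [AnalyticAt.analyticOrderAt_eq_natCast (by fun_prop)]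
    exact ⟨fun _ => 1, analyticAt_const, one_ne_zero, by simp⟩
  unfold analyticOrderNatAt
  rw [h]
  rfl

/-- the residue of `exp (s ^ 2) / s` -/
theorem gauss_pole {a b : ℝ} (ha : a < 0) (hb : 0 < b) :
    (∫ y : ℝ, cexp ((b + y * I) ^ 2) / (b + y * I)) - ∫ y : ℝ, cexp ((a + y * I) ^ 2) / (a + y * I) =
      2 * Real.pi := by
  have hab : a < b := by linarith
  set H : ℂ → ℂ := fun s => cexp (s ^ 2) / s with hH
  set M : ℝ := Real.exp (a ^ 2 + b ^ 2) with hM
  have hM0 : 0 < M := Real.exp_pos _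
  -- bound
  have hbd : ∀ (s : ℂ) (e : ℝ), 0 < e → a ≤ s.re → s.re ≤ b → e ≤ ‖s‖ → ‖H s‖ ≤ 4 * M / e * (1 + |s.im|) ^ (-(3 / 2 : ℝ)) := by
    intro s e he h1 h2 h3
    simp only [hH]
    rw [norm_div, gs_norm, div_le_iff₀ (by linarith)]
    have h4 : Real.exp (s.re ^ 2 - s.im ^ 2) ≤ M * Real.exp (-s.im ^ 2) := by
      rw [hM, ← Real.exp_add]
      apply Real.exp_le_exp.2
      have : s.re ^ 2 ≤ a ^ 2 + b ^ 2 := by
        rcases le_or_gt 0 s.re with h | h
        · nlinarith [sq_nonneg a]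
        · nlinarith [sq_nonneg b]
      linarith
    have h5 := gs_decay s.im
    have h6 : 0 < (1 + |s.im|) ^ (-(3 / 2 : ℝ)) := by positivity
    calc Real.exp (s.re ^ 2 - s.im ^ 2) ≤ M * (4 * (1 + |s.im|) ^ (-(3 / 2 : ℝ))) :=
          h4.trans (mul_le_mul_of_nonneg_left h5 hM0.le)
      _ = 4 * M / e * (1 + |s.im|) ^ (-(3 / 2 : ℝ)) * e := by field_simp
      _ ≤ _ := mul_le_mul_of_nonneg_left h3 (by positivity)
  have hcont : ∀ s : ℂ, s ≠ 0 → ContinuousAt H s := by
    intro s hs
    simp only [hH]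
    fun_prop (disch := exact hs)
  have hne : ∀ (x : ℝ), x ≠ 0 → ∀ s : ℂ, s.re = x → s ≠ 0 := by
    rintro x hx s hs rfl
    exact hx (by simpa using hs.symm)
  have hnorm : ∀ s : ℂ, |s.re| ≤ ‖s‖ := fun s => Complex.abs_re_le_norm s
  have ib : Integrable (fun y : ℝ => H (b + y * I)) :=
    vertical_integrable (fun s hs => hcont s (hne b hb.ne' s hs))
      (fun s hs => hbd s b hb (by rw [hs]; linarith) hs.le (by
        have := hnorm s
        rw [hs, abs_of_pos hb] at this
        exact this))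
  have ia : Integrable (fun y : ℝ => H (a + y * I)) :=
    vertical_integrable (fun s hs => hcont s (hne a ha.ne s hs))
      (fun s hs => hbd s (-a) (by linarith) hs.ge (by rw [hs]; linarith) (by
        have := hnorm s
        rw [hs, abs_of_neg ha] at this
        exact this))
  -- rectangles
  have hrect : ∀ T : ℝ, 1 ≤ T →
      (∫ x in a..b, H (x + (-T : ℝ) * I)) - (∫ x in a..b, H (x + (T : ℝ) * I)) +
        I * (∫ y in (-T)..T, H (b + y * I)) - I * (∫ y in (-T)..T, H (a + y * I)) = 2 * Real.pi * I := by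
    intro T hT
    obtain ⟨-, h⟩ := H370.rect_residue (fun s => s) (fun s => cexp (s ^ 2)) a b (-T) T hab (by linarith)
      (fun s _ => by fun_prop) (by fun_prop) (by
        rintro s - rfl
        rw [Complex.mem_reProdIm]
        simp only [zero_re, zero_im, mem_Ioo]
        exact ⟨⟨ha, hb⟩, by linarith, by linarith⟩)
    have e1 : {s : ℂ | s ∈ Ioo a b ×ℂ Ioo (-T) T ∧ s = 0} = {0} := by
      ext s
      simp only [mem_setOf_eq, mem_singleton_iff]
      constructor
      · exact fun h => h.2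
      · rintro rfl
        refine ⟨?_, rfl⟩
        rw [Complex.mem_reProdIm]
        simp only [zero_re, zero_im, mem_Ioo]
        exact ⟨⟨ha, hb⟩, by linarith, by linarith⟩
    have e2 : ∀ x y : ℝ, (⟨x, y⟩ : ℂ) = x + y * I := fun x y => by
      apply Complex.ext <;> simp
    have e3 : ∀ s : ℂ, deriv (fun s : ℂ => s) s / s * cexp (s ^ 2) = H s := by
      intro s
      simp only [hH, deriv_id'']
      ring
    rw [e1] at h
    simp only [e3, e2] at h
    rw [finsum_mem_singleton] at h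
    have e4 : H370.mult (fun s : ℂ => s) 0 = 1 := order_id
    rw [e4] at h
    simp only [Nat.cast_one, one_mul, ne_eq, OfNat.ofNat_ne_zero, not_false_eq_true, zero_pow, Complex.exp_zero,
      mul_one] at h
    exact h
  have hhor : ∀ T : ℝ, 1 ≤ |T| → ‖∫ x in a..b, H (x + (T : ℝ) * I)‖ ≤
      4 * M / 1 * (1 + |T|) ^ (-(3 / 2 : ℝ)) * |b - a| := by
    intro T hT
    refine intervalIntegral.norm_integral_le_of_norm_le_const fun x hx => ?_
    rw [Set.uIoc_of_le hab.le] at hx
    have h1 : 1 ≤ ‖((x : ℂ) + (T : ℝ) * I)‖ := by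
      have h2 := Complex.abs_im_le_norm ((x : ℂ) + (T : ℝ) * I)
      simp at h2
      linarith
    have := hbd (x + (T : ℝ) * I) 1 one_pos (by simpa using hx.1.le) (by simpa using hx.2) h1
    simpa using this
  have hlim0 : Tendsto (fun T : ℝ => 4 * M / 1 * (1 + |T|) ^ (-(3 / 2 : ℝ)) * |b - a|) atTop (𝓝 0) := by
    have h1 : Tendsto (fun T : ℝ => (1 + |T|)) atTop atTop :=
      tendsto_atTop_add_const_left _ _ tendsto_abs_atTop_atTop
    have h2 := (tendsto_rpow_neg_atTop (y := 3 / 2) (by norm_num)).comp h1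
    have h3 := (h2.const_mul (4 * M / 1)).mul_const |b - a|
    simpa using h3
  have hl1 : Tendsto (fun T : ℝ => ∫ x in a..b, H (x + (T : ℝ) * I)) atTop (𝓝 0) := by
    refine tendsto_zero_iff_norm_tendsto_zero.2 (squeeze_zero' (Eventually.of_forall fun T => norm_nonneg _) ?_ hlim0)
    filter_upwards [eventually_ge_atTop 1] with T hT
    exact hhor T (by rw [abs_of_pos (by linarith)]; exact hT)
  have hl2 : Tendsto (fun T : ℝ => ∫ x in a..b, H (x + (-T : ℝ) * I)) atTop (𝓝 0) := by
    refine tendsto_zero_iff_norm_tendsto_zero.2 (squeeze_zero' (Eventually.of_forall fun T => norm_nonneg _) ?_ hlim0)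
    filter_upwards [eventually_ge_atTop 1] with T hT
    have := hhor (-T) (by rw [abs_neg, abs_of_pos (by linarith)]; exact hT)
    rw [abs_neg] at this
    exact this
  have hl3 := intervalIntegral_tendsto_integral ib tendsto_neg_atTop_atBot tendsto_id
  have hl4 := intervalIntegral_tendsto_integral ia tendsto_neg_atTop_atBot tendsto_id
  have hfin := ((hl2.sub hl1).add (hl3.const_mul I)).sub (hl4.const_mul I)
  have hcst : Tendsto (fun _ : ℝ => (2 * Real.pi * I : ℂ)) atTop (𝓝 (2 * Real.pi * I)) := tendsto_const_nhds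
  have huniq := tendsto_nhds_unique (hfin.congr' ?_) hcst
  · rw [sub_zero, zero_add, ← mul_sub] at huniq
    have h1 : I * (((∫ y : ℝ, H (b + y * I)) - ∫ y : ℝ, H (a + y * I)) - 2 * Real.pi) = 0 := by
      rw [mul_sub, huniq]
      ring
    have h2 := (mul_eq_zero.mp h1).resolve_left I_ne_zero
    exact sub_eq_zero.mp h2
  · filter_upwards [eventually_ge_atTop 1] with T hT
    simpa using hrect T hT

end Pool.Agent.U575.NC
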