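import Pool.Agent.U575.NC.Fwd
import Pool.Agent.U575.NC.Back

/-! The equivalences. -/

set_option autoImplicit false

open Complex Set Filter Topology MeasureTheory

namespace Pool.Agent.U575.NC

open Pool.Agent.N879.QM
open Pool.Agent.N879.QM.Eul

noncomputable section

/-- moments on the line -/
def LineM (V : ℝ → ℝ) (s : ℤ) (m : ℕ) : Prop := ∀ A : ℝ, 0 < A → ∃ B X₀ : ℝ, ∀ X : ℝ, X₀ ≤ X →
  JJ s X A m (1 / 2) ≤ X * V X ^ B

/-- moments at arbitrary points -/
def PtM (V : ℝ → ℝ) (s : ℤ) (m : ℕ) : Prop := ∀ A : ℝ, 0 < A → ∃ B X₀ : ℝ, ∀ X : ℝ, X₀ ≤ X →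
  ∀ t : ℕ → ℝ, (∀ q, |t q| ≤ A) → ∑ q ∈ Q s X, ‖LL s q ((1 / 2 : ℝ) + t q * I)‖ ^ m ≤ X * V X ^ B

/-- moments near the line, all constants -/
def NearA (V : ℝ → ℝ) (s : ℤ) (m : ℕ) : Prop := ∀ A : ℝ, 0 < A → ∀ C : ℝ, 0 < C → ∃ B X₀ : ℝ, ∀ X : ℝ, X₀ ≤ X →
  JJ s X A m (1 / 2 + C * Real.log (V X) / Real.log X) ≤ X * V X ^ B

/-- moments near the line, one constant -/
def NearS (V : ℝ → ℝ) (s : ℤ) (m : ℕ) : Prop := ∀ A : ℝ, 0 < A → ∃ C : ℝ, 0 < C ∧ ∃ B X₀ : ℝ, ∀ X : ℝ, X₀ ≤ X →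
  JJ s X A m (1 / 2 + C * Real.log (V X) / Real.log X) ≤ X * V X ^ B

/-- asymptotics near the line -/
def AsyM (V : ℝ → ℝ) (s : ℤ) (k : ℕ) : Prop := ∀ A : ℝ, 0 < A → ∃ C X₀ : ℝ, 0 < C ∧ ∀ X : ℝ, X₀ ≤ X →
  ∀ δ : ℝ, C * Real.log (V X) / Real.log X ≤ δ → δ ≤ 1 / 16 → ∀ β : Fin k → ℝ, (∀ j, |β j| ≤ A) →
    ‖(∑ q ∈ Q s X, PP s q β (1 / 2 + δ)) - ((c0 * X : ℝ) : ℂ) * Mser β (2 * δ)‖ ≤ X ^ (1 - δ / 100)

lemma big {V : ℝ → ℝ} (hV : ∀ᶠ X in atTop, Real.log X ≤ V X) (c : ℝ) :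
    ∃ X₁ : ℝ, ∀ X : ℝ, X₁ ≤ X → 3 ≤ X ∧ c ≤ Real.log X ∧ Real.log X ≤ V X := by
  have h := (hV.and ((Real.tendsto_log_atTop.eventually_ge_atTop c).and (eventually_ge_atTop (3 : ℝ))))
  obtain ⟨X1, h1⟩ := eventually_atTop.1 h
  exact ⟨X1, fun X hX => ⟨(h1 X hX).2.2, (h1 X hX).2.1, (h1 X hX).1⟩⟩

/-- the trivial bound -/
lemma triv (m : ℕ) (A : ℝ) (hA : 0 ≤ A) : ∃ D : ℝ, 0 < D ∧ ∀ (s : ℤ) (X : ℝ), 1 ≤ X → ∀ σ : ℝ, -1 / 4 ≤ σ →
    ∀ t : ℕ → ℝ, (∀ q, |t q| ≤ A) → ∑ q ∈ Q s X, ‖LL s q (σ + t q * I)‖ ^ m ≤ D * X * X ^ m := by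
  obtain ⟨G, hG1, hG⟩ := growth
  have hG0 : 0 < G := by linarith
  refine ⟨(G * (1 + A)) ^ m, by positivity, fun s X hX σ hσ t ht => ?_⟩
  have hX0 : 0 < X := by linarith
  have h1 : ∀ q ∈ Q s X, ‖LL s q (σ + t q * I)‖ ^ m ≤ (G * (1 + A)) ^ m * X ^ m := by
    intro q hq
    obtain ⟨hq2, hqX, hI⟩ := mem_Q hq
    rw [← mul_pow]
    refine pow_le_pow_left₀ (norm_nonneg _) ?_ m
    have g1 := hG s q hI (σ + t q * I) (by simpa using hσ)
    have g2 : ((σ : ℂ) + t q * I).im = t q := by simp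
    rw [g2] at g1
    calc _ ≤ G * (q * (1 + |t q|)) := g1
      _ ≤ G * (X * (1 + A)) := by
          refine mul_le_mul_of_nonneg_left ?_ hG0.le
          exact mul_le_mul hqX.le (by linarith [ht q]) (by positivity) hX0.le
      _ = _ := by ring
  refine (Finset.sum_le_sum h1).trans ?_
  rw [Finset.sum_const, nsmul_eq_mul]
  calc ((Q s X).card : ℝ) * ((G * (1 + A)) ^ m * X ^ m) ≤ X * ((G * (1 + A)) ^ m * X ^ m) :=
        mul_le_mul_of_nonneg_right (card_Q s hX) (by positivity)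
    _ = _ := by ring

lemma vmono {v a b : ℝ} (hv : 1 ≤ v) (h : a ≤ b) : v ^ a ≤ v ^ b := Real.rpow_le_rpow_of_exponent_le hv h

/-- powers of `X ^ r`, `r = C log v / log X` -/
lemma xr {X v C c : ℝ} (hX : 3 ≤ X) (hv : 0 < v) : X ^ (c * (C * Real.log v / Real.log X)) = v ^ (c * C) := by
  have hl : 0 < Real.log X := Real.log_pos (by linarith)
  rw [Real.rpow_def_of_pos (by linarith), Real.rpow_def_of_pos hv]
  congr 1
  field_simp

/-- if `r` is large then the trivial bound is enough -/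
lemma triv_case {X v C D κ : ℝ} {m : ℕ} (hX : 3 ≤ X) (hv : 3 ≤ v) (hD : D ≤ v) (hD0 : 0 < D) (hC : 0 < C) (hκ : 0 < κ)
    (hr : κ < C * Real.log v / Real.log X) : D * X * X ^ m ≤ X * v ^ (C / κ * m + 1) := by
  have hl : 0 < Real.log X := Real.log_pos (by linarith)
  have hX0 : 0 < X := by linarith
  have hv0 : 0 < v := by linarith
  have h1 : X ≤ v ^ (C / κ) := by
    rw [lt_div_iff₀ hl] at hr
    rw [← Real.exp_log hX0, Real.rpow_def_of_pos hv0]
    apply Real.exp_le_exp.2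
    rw [← sub_nonneg]
    have : Real.log v * (C / κ) - Real.log X = (C * Real.log v - κ * Real.log X) / κ := by
      field_simp
    rw [this]
    exact div_nonneg (by linarith) hκ.le
  have h2 : X ^ m ≤ v ^ (C / κ * m) := by
    rw [Real.rpow_mul hv0.le, Real.rpow_natCast]
    exact pow_le_pow_left₀ hX0.le h1 m
  calc D * X * X ^ m ≤ v * X * v ^ (C / κ * m) := by
        refine mul_le_mul (mul_le_mul_of_nonneg_right hD hX0.le) h2 (by positivity) (by positivity)
    _ = X * (v ^ (C / κ * m) * v) := by ring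
    _ = _ := by rw [Real.rpow_add_one hv0.ne']

/-- the combination of the terms -/
lemma comb {X v C D c B J r : ℝ} (hX : 3 ≤ X) (hv : 3 ≤ v) (hlv : Real.log X ≤ v) (hD0 : 0 < D) (hD : D ≤ v)
    (hC : 0 < C) (hCv : 1 / C ≤ v) (hJ0 : 0 ≤ J) (hJ : J ≤ X * v ^ B) (hr : r = C * Real.log v / Real.log X) :
    D * X + X ^ (c * r) * r⁻¹ * (J + D) ≤ X * v ^ (|c * C| + |B| + 5) := by
  have hl : 0 < Real.log X := Real.log_pos (by linarith)
  have hX0 : 0 < X := by linarith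
  have hv0 : 0 < v := by linarith
  have hv1 : 1 ≤ v := by linarith
  have hlogv : 1 ≤ Real.log v := by
    rw [Real.le_log_iff_exp_le hv0]
    have := Real.exp_one_lt_d9
    linarith
  have h1 : X ^ (c * r) ≤ v ^ |c * C| := by
    rw [hr, xr hX hv0]
    exact vmono hv1 (le_abs_self _)
  have h2 : r⁻¹ ≤ v ^ (2 : ℝ) := by
    have e : r⁻¹ = Real.log X * (1 / C) / Real.log v := by
      rw [hr]
      field_simp
    rw [e]
    calc Real.log X * (1 / C) / Real.log v ≤ Real.log X * (1 / C) := div_le_self (by positivity) hlogv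
      _ ≤ v * v := mul_le_mul hlv hCv (by positivity) hv0.le
      _ = v ^ (2 : ℝ) := by
          rw [← sq]
          exact_mod_cast rfl
  have hr0 : 0 < r := by
    rw [hr]
    positivity
  have h3 : J + D ≤ X * v ^ (|B| + 2) := by
    have g1 : v ^ B ≤ v ^ |B| := vmono hv1 (le_abs_self _)
    have g2 : 1 ≤ v ^ |B| := Real.one_le_rpow hv1 (abs_nonneg _)
    have g3 : v ^ (|B| + 2) = v ^ |B| * v ^ (2 : ℝ) := Real.rpow_add hv0 _ _
    have g4 : v ^ (2 : ℝ) = v * v := by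
      rw [← sq]
      exact_mod_cast rfl
    have g5 : J ≤ X * v ^ |B| := hJ.trans (mul_le_mul_of_nonneg_left g1 hX0.le)
    have g6 : D ≤ X * v ^ |B| * v := by
      calc D ≤ v := hD
        _ = 1 * 1 * v := by ring
        _ ≤ X * v ^ |B| * v := by
            refine mul_le_mul_of_nonneg_right (mul_le_mul (by linarith) g2 zero_le_one hX0.le) hv0.le
    have g7 : 0 < X * v ^ |B| := by positivity
    rw [g3, g4]
    nlinarith
  have h4 : D * X ≤ X * v ^ (|c * C| + |B| + 4) := by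
    have : v ^ (1 : ℝ) ≤ v ^ (|c * C| + |B| + 4) := vmono hv1 (by linarith [abs_nonneg (c * C), abs_nonneg B])
    rw [Real.rpow_one] at this
    calc D * X ≤ v * X := mul_le_mul_of_nonneg_right hD hX0.le
      _ ≤ v ^ (|c * C| + |B| + 4) * X := mul_le_mul_of_nonneg_right this hX0.le
      _ = _ := mul_comm _ _
  have h5 : X ^ (c * r) * r⁻¹ * (J + D) ≤ X * v ^ (|c * C| + |B| + 4) := by
    calc X ^ (c * r) * r⁻¹ * (J + D) ≤ v ^ |c * C| * v ^ (2 : ℝ) * (X * v ^ (|B| + 2)) :=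
          mul_le_mul (mul_le_mul h1 h2 (by positivity) (by positivity)) h3 (by positivity) (by positivity)
      _ = X * (v ^ |c * C| * v ^ (2 : ℝ) * v ^ (|B| + 2)) := by ring
      _ = _ := by
          rw [← Real.rpow_add hv0, ← Real.rpow_add hv0]
          congr 2
          ring
  have h6 : v ^ (|c * C| + |B| + 5) = v ^ (|c * C| + |B| + 4) * v := by
    rw [← Real.rpow_add_one hv0.ne']
    congr 1
    ring
  have h7 : 0 < X * v ^ (|c * C| + |B| + 4) := by positivity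
  rw [h6]
  nlinarith

lemma absorb {X v a E : ℝ} (hX : 0 ≤ X) (hv : 3 ≤ v) (ha : a ≤ v) : a * (X * v ^ E) ≤ X * v ^ (E + 1) := by
  have hv0 : 0 < v := by linarith
  rw [Real.rpow_add_one hv0.ne']
  have : 0 ≤ X * v ^ E := by positivity
  nlinarith

/-- line ⇒ near, all constants -/
theorem line_near {V : ℝ → ℝ} (hV : ∀ᶠ X in atTop, Real.log X ≤ V X) {s : ℤ} {m : ℕ} (h : LineM V s m) :
    NearA V s m := by
  intro A hA C hC
  obtain ⟨A', D, X1, hA', hD, hX1, hR⟩ := to_right m A hA.le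
  obtain ⟨B, X2, hB⟩ := h A' hA'
  obtain ⟨D', hD', hT⟩ := triv m A hA.le
  obtain ⟨X3, hX3⟩ := big hV (3 + D + D' + 1 / C + 2 * A)
  set E : ℝ := |1 / 2 * C| + |B| + 5 with hE
  refine ⟨E + (C / 1 * m + 1) + 1, max (max X1 X2) X3, fun X hX => ?_⟩
  have hX1' : X1 ≤ X := (le_max_left _ _).trans ((le_max_left _ _).trans hX)
  have hX2' : X2 ≤ X := (le_max_right _ _).trans ((le_max_left _ _).trans hX)
  obtain ⟨h3, hlog, hlv⟩ := hX3 X ((le_max_right _ _).trans hX)
  set v : ℝ := V X with hv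
  have h1C : 0 < 1 / C := by positivity
  have hv3 : 3 ≤ v := by linarith
  have hvD : D ≤ v := by linarith
  have hvD' : D' ≤ v := by linarith
  have hvC : 1 / C ≤ v := by linarith
  have hvA : 2 * A ≤ v := by linarith
  have hX0 : 0 < X := by linarith
  have hv1 : 1 ≤ v := by linarith
  have hl : 0 < Real.log X := Real.log_pos (by linarith)
  have hlogv : 0 < Real.log v := Real.log_pos (by linarith)
  have hE0 : 0 ≤ E := by positivity
  have hCm : 0 ≤ C / 1 * m + 1 := by positivity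
  set r : ℝ := C * Real.log v / Real.log X with hr
  have hr0 : 0 < r := by positivity
  have key : ∀ u : ℝ, |u| ≤ A → ∑ q ∈ Q s X, ‖LL s q ((1 / 2 + r : ℝ) + u * I)‖ ^ m ≤
      X * v ^ (E + (C / 1 * m + 1)) := by
    intro u hu
    rcases le_or_gt r 1 with hr1 | hr1
    · have g1 := hR s X hX1' r hr0 hr1 (fun _ => u) (fun _ => hu)
      have g2 := comb (c := 1 / 2) h3 hv3 hlv hD hvD hC hvC (JJ_nonneg s X hA'.le m (1 / 2)) (hB X hX2') hr
      have g3 : (1 / 2 : ℝ) * r = r / 2 := by ring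
      rw [g3] at g2
      refine g1.trans (g2.trans (mul_le_mul_of_nonneg_left (vmono hv1 ?_) hX0.le))
      linarith
    · have g1 := hT s X (by linarith) (1 / 2 + r) (by linarith) (fun _ => u) (fun _ => hu)
      have g2 := triv_case (m := m) h3 hv3 hvD' hD' hC one_pos hr1
      refine g1.trans (g2.trans (mul_le_mul_of_nonneg_left (vmono hv1 ?_) hX0.le))
      linarith
  refine (JJ_le_of_pts hA.le key).trans ?_
  exact absorb hX0.le hv3 hvA

/-- near ⇒ points -/
theorem near_pt {V : ℝ → ℝ} (hV : ∀ᶠ X in atTop, Real.log X ≤ V X) {s : ℤ} {m : ℕ} (h : NearS V s m) :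
    PtM V s m := by
  intro A hA
  obtain ⟨A', D, M, X1, hA', hD, hM, hX1, hR⟩ := to_line m A hA.le
  obtain ⟨C, hC, B, X2, hB⟩ := h A' hA'
  obtain ⟨D', hD', hT⟩ := triv m A hA.le
  obtain ⟨X3, hX3⟩ := big hV (3 + D + D' + 1 / C)
  set E : ℝ := |M * C| + |B| + 5 with hE
  refine ⟨E + (C / 1 * m + 1), max (max X1 X2) X3, fun X hX t ht => ?_⟩
  have hX1' : X1 ≤ X := (le_max_left _ _).trans ((le_max_left _ _).trans hX)
  have hX2' : X2 ≤ X := (le_max_right _ _).trans ((le_max_left _ _).trans hX)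
  obtain ⟨h3, hlog, hlv⟩ := hX3 X ((le_max_right _ _).trans hX)
  have hBX := hB X hX2'
  set v : ℝ := V X with hv
  have h1C : 0 < 1 / C := by positivity
  have hv3 : 3 ≤ v := by linarith
  have hvD : D ≤ v := by linarith
  have hvD' : D' ≤ v := by linarith
  have hvC : 1 / C ≤ v := by linarith
  have hX0 : 0 < X := by linarith
  have hv1 : 1 ≤ v := by linarith
  have hl : 0 < Real.log X := Real.log_pos (by linarith)
  have hlogv : 0 < Real.log v := Real.log_pos (by linarith)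
  have hE0 : 0 ≤ E := by positivity
  have hCm : 0 ≤ C / 1 * m + 1 := by positivity
  set r : ℝ := C * Real.log v / Real.log X with hr
  have hr0 : 0 < r := by positivity
  rcases le_or_gt r 1 with hr1 | hr1
  · have g1 := hR s X hX1' r hr0 hr1 t ht
    have g2 := comb (c := M) h3 hv3 hlv hD hvD hC hvC (JJ_nonneg s X hA'.le m (1 / 2 + r)) hBX hr
    refine g1.trans (g2.trans (mul_le_mul_of_nonneg_left (vmono hv1 ?_) hX0.le))
    linarith
  · have g1 := hT s X (by linarith) (1 / 2) (by norm_num) t ht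
    have g2 := triv_case (m := m) h3 hv3 hvD' hD' hC one_pos hr1
    refine g1.trans (g2.trans (mul_le_mul_of_nonneg_left (vmono hv1 ?_) hX0.le))
    linarith

/-- points ⇒ line -/
theorem pt_line {V : ℝ → ℝ} (hV : ∀ᶠ X in atTop, Real.log X ≤ V X) {s : ℤ} {m : ℕ} (h : PtM V s m) :
    LineM V s m := by
  intro A hA
  obtain ⟨B, X1, hB⟩ := h A hA
  obtain ⟨X3, hX3⟩ := big hV (3 + 2 * A)
  refine ⟨B + 1, max X1 X3, fun X hX => ?_⟩
  obtain ⟨h3, hlog, hlv⟩ := hX3 X ((le_max_right _ _).trans hX)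
  have := JJ_le_of_pts (s := s) (X := X) (m := m) (σ := 1 / 2) hA.le
    (fun u hu => hB X ((le_max_left _ _).trans hX) (fun _ => u) (fun _ => hu))
  exact this.trans (absorb (by linarith) (by linarith) (by linarith))

/-- the pairs of shifts -/
def bb (k : ℕ) (u : ℝ) : Fin (k + k) → ℝ := Fin.append (fun _ => u) (fun _ => -u)

lemma PP_bb {s : ℤ} {q : ℕ} (h : Is s q) (k : ℕ) (r u : ℝ) :
    PP s q (bb k u) (1 / 2 + r) = ((‖LL s q ((1 / 2 + r : ℝ) + u * I)‖ ^ (k + k) : ℝ) : ℂ) := by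
  unfold PP bb
  rw [Fin.prod_univ_add]
  simp only [Fin.append_left, Fin.append_right, Finset.prod_const, Finset.card_univ, Fintype.card_fin]
  have e1 : (1 / 2 + r + I * (u : ℂ) : ℂ) = ((1 / 2 + r : ℝ) : ℂ) + u * I := by
    push_cast
    ring
  have e2 : (1 / 2 + r + I * ((-u : ℝ) : ℂ) : ℂ) = (starRingEnd ℂ) (((1 / 2 + r : ℝ) : ℂ) + u * I) := by
    simp only [map_add, map_mul, conj_ofReal, conj_I]
    push_cast
    ring
  rw [e1, e2, LL_conj h, ← mul_pow, Complex.mul_conj, Complex.normSq_eq_norm_sq]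
  push_cast
  rw [← pow_mul]
  congr 1
  ring

/-- asymptotics ⇒ near -/
theorem asy_near {V : ℝ → ℝ} (hV : ∀ᶠ X in atTop, Real.log X ≤ V X) {s : ℤ} {k : ℕ} (h : AsyM V s (k + k)) :
    NearS V s (k + k) := by
  intro A hA
  obtain ⟨C, X1, hC, hR⟩ := h A hA
  obtain ⟨D', hD', hT⟩ := triv (k + k) A hA.le
  have hCC : 0 < CC (k + k) := Real.exp_pos _
  obtain ⟨X3, hX3⟩ := big hV (3 + CC (k + k) + D' + 1 / C + 2 * A)
  set E : ℝ := 4 * R (k + k) + 3 with hE
  refine ⟨C, hC, E + (C / (1 / 16) * (k + k : ℕ) + 1) + 1, max X1 X3, fun X hX => ?_⟩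
  have hX1' : X1 ≤ X := (le_max_left _ _).trans hX
  obtain ⟨h3, hlog, hlv⟩ := hX3 X ((le_max_right _ _).trans hX)
  have hRX := hR X hX1'
  set v : ℝ := V X with hv
  have h1C : 0 < 1 / C := by positivity
  have hv3 : 3 ≤ v := by linarith
  have hvD : CC (k + k) ≤ v := by linarith
  have hvD' : D' ≤ v := by linarith
  have hvC : 1 / C ≤ v := by linarith
  have hvA : 2 * A ≤ v := by linarith
  have hX0 : 0 < X := by linarith
  have hv0 : 0 < v := by linarith
  have hv1 : 1 ≤ v := by linarith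
  have hl : 0 < Real.log X := Real.log_pos (by linarith)
  have hlogv1 : 1 ≤ Real.log v := by
    rw [Real.le_log_iff_exp_le hv0]
    have := Real.exp_one_lt_d9
    linarith
  have hlogv : 0 < Real.log v := by linarith
  have hE0 : 0 ≤ E := by positivity
  have hCm : 0 ≤ C / (1 / 16) * (k + k : ℕ) + 1 := by positivity
  have hc0 : 0 < c0 := by
    unfold c0
    positivity
  have hc01 : c0 ≤ 1 := by
    unfold c0
    rw [div_le_one (by positivity)]
    nlinarith [Real.pi_gt_three]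
  set r : ℝ := C * Real.log v / Real.log X with hr
  have hr0 : 0 < r := by positivity
  have key : ∀ u : ℝ, |u| ≤ A → ∑ q ∈ Q s X, ‖LL s q ((1 / 2 + r : ℝ) + u * I)‖ ^ (k + k) ≤
      X * v ^ (E + (C / (1 / 16) * (k + k : ℕ) + 1)) := by
    intro u hu
    rcases le_or_gt r (1 / 16) with hr1 | hr1
    · have g1 := hRX r le_rfl hr1 (bb k u) (fun j => by
        unfold bb
        refine Fin.addCases (fun i => ?_) (fun i => ?_) j
        · rw [Fin.append_left]
          exact hu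
        · rw [Fin.append_right, abs_neg]
          exact hu)
      have e1 : ∑ q ∈ Q s X, PP s q (bb k u) (1 / 2 + r) =
          ((∑ q ∈ Q s X, ‖LL s q ((1 / 2 + r : ℝ) + u * I)‖ ^ (k + k) : ℝ) : ℂ) := by
        rw [Complex.ofReal_sum]
        exact Finset.sum_congr rfl fun q hq => PP_bb (mem_Q hq).2.2 k r u
      rw [e1] at g1
      set S : ℝ := ∑ q ∈ Q s X, ‖LL s q ((1 / 2 + r : ℝ) + u * I)‖ ^ (k + k) with hS
      have g2 : S ≤ ‖((c0 * X : ℝ) : ℂ) * Mser (bb k u) (2 * r)‖ + X ^ (1 - r / 100) := by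
        have g3 : S ≤ ‖(S : ℂ)‖ := by
          rw [Complex.norm_real]
          exact le_abs_self _
        have g4 := norm_le_norm_add_norm_sub' (S : ℂ) (((c0 * X : ℝ) : ℂ) * Mser (bb k u) (2 * r))
        linarith
      have g5 : ‖Mser (bb k u) (2 * r)‖ ≤ v ^ (4 * (R (k + k) : ℝ) + 1) := by
        have g6 := Mser_bd (bb k u) (u := (2 * r : ℂ)) (by simpa using hr0)
        have g7 : ((2 * r : ℂ)).re = 2 * r := by simp
        rw [g7] at g6
        have g8 : 1 + 1 / (2 * r) ≤ v ^ (4 : ℝ) := by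
          have e : 1 / (2 * r) ≤ r⁻¹ := by
            rw [one_div]
            exact inv_anti₀ hr0 (by linarith)
          have e' : r⁻¹ = Real.log X * (1 / C) / Real.log v := by
            rw [hr]
            field_simp
          have e'' : r⁻¹ ≤ v * v := by
            rw [e']
            calc Real.log X * (1 / C) / Real.log v ≤ Real.log X * (1 / C) := div_le_self (by positivity) hlogv1
              _ ≤ v * v := mul_le_mul hlv hvC (by positivity) hv0.le
          have e3 : v ^ (4 : ℝ) = v * v * (v * v) := by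
            have : v ^ (4 : ℝ) = v ^ (4 : ℕ) := by exact_mod_cast Real.rpow_natCast v 4
            rw [this]
            ring
          rw [e3]
          have : 9 ≤ v * v := by nlinarith
          nlinarith
        have g9 : 0 < 1 + 1 / (2 * r) := by positivity
        calc _ ≤ CC (k + k) * (1 + 1 / (2 * r)) ^ R (k + k) := g6
          _ ≤ v * (v ^ (4 : ℝ)) ^ R (k + k) := mul_le_mul hvD (pow_le_pow_left₀ g9.le g8 _) (by positivity) hv0.le
          _ = v ^ (4 * (R (k + k) : ℝ)) * v := by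
              rw [Real.rpow_mul hv0.le, Real.rpow_natCast]
              ring
          _ = _ := by rw [Real.rpow_add_one hv0.ne']
      have g10 : X ^ (1 - r / 100) ≤ X := by
        calc X ^ (1 - r / 100) ≤ X ^ (1 : ℝ) := Real.rpow_le_rpow_of_exponent_le (by linarith) (by linarith)
          _ = X := Real.rpow_one X
      have g11 : ‖((c0 * X : ℝ) : ℂ) * Mser (bb k u) (2 * r)‖ ≤ X * v ^ (4 * (R (k + k) : ℝ) + 1) := by
        rw [norm_mul, Complex.norm_real, Real.norm_eq_abs, abs_of_pos (by positivity : 0 < c0 * X)]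
        refine mul_le_mul ?_ g5 (norm_nonneg _) hX0.le
        nlinarith
      have g12 : 1 ≤ v ^ (4 * (R (k + k) : ℝ) + 1) := Real.one_le_rpow hv1 (by positivity)
      have g13 : S ≤ 2 * (X * v ^ (4 * (R (k + k) : ℝ) + 1)) := by nlinarith
      have g14 := absorb (E := 4 * (R (k + k) : ℝ) + 1) hX0.le hv3 (show (2 : ℝ) ≤ v by linarith)
      refine g13.trans (g14.trans (mul_le_mul_of_nonneg_left (vmono hv1 ?_) hX0.le))
      linarith
    · have g1 := hT s X (by linarith) (1 / 2 + r) (by linarith) (fun _ => u) (fun _ => hu)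
      have g2 := triv_case (m := k + k) h3 hv3 hvD' hD' hC (by norm_num : (0 : ℝ) < 1 / 16) hr1
      refine g1.trans (g2.trans (mul_le_mul_of_nonneg_left (vmono hv1 ?_) hX0.le))
      linarith
  refine (JJ_le_of_pts hA.le key).trans ?_
  exact absorb hX0.le hv3 hvA

/-- line ⇒ asymptotics -/
theorem line_asy {V : ℝ → ℝ} (hV : ∀ᶠ X in atTop, Real.log X ≤ V X) {s : ℤ} (hs : s = 1 ∨ s = -1) {k m : ℕ}
    (hkm : k ≤ m) (h : LineM V s m) : AsyM V s k := by
  intro A hA
  obtain ⟨A', D, X1, hA', hD, hX1, hR⟩ := fwd k m hkm A hA.le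
  obtain ⟨B, X2, hB⟩ := h A' hA'
  obtain ⟨X3, hX3⟩ := big hV (3 + D)
  set E : ℝ := |B| + 4 * R k + 10 with hE
  have hE0 : 0 < E := by positivity
  refine ⟨1000 * E, max (max X1 X2) X3, by positivity, fun X hX δ hδ hδ1 β hβ => ?_⟩
  have hX1' : X1 ≤ X := (le_max_left _ _).trans ((le_max_left _ _).trans hX)
  have hX2' : X2 ≤ X := (le_max_right _ _).trans ((le_max_left _ _).trans hX)
  obtain ⟨h3, hlog, hlv⟩ := hX3 X ((le_max_right _ _).trans hX)
  have hBX := hB X hX2'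
  set v : ℝ := V X with hv
  have hv3 : 3 ≤ v := by linarith
  have hvD : D ≤ v := by linarith
  have hX0 : 0 < X := by linarith
  have hXone : 1 ≤ X := by linarith
  have hv0 : 0 < v := by linarith
  have hv1 : 1 ≤ v := by linarith
  have hl : 0 < Real.log X := Real.log_pos (by linarith)
  have hlogv1 : 1 ≤ Real.log v := by
    rw [Real.le_log_iff_exp_le hv0]
    have := Real.exp_one_lt_d9
    linarith
  have hδ' : 1000 * E * Real.log v ≤ δ * Real.log X := by rwa [div_le_iff₀ hl] at hδ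
  have hδ0 : 0 < δ := by
    have : 0 < δ * Real.log X := lt_of_lt_of_le (by positivity) hδ'
    exact (pos_iff_pos_of_mul_pos this).2 hl
  have hδv : δ⁻¹ ≤ v := by
    rw [inv_le_comm₀ hδ0 hv0]
    have g0 : 1000 * E * 1 ≤ 1000 * E * Real.log v := mul_le_mul_of_nonneg_left hlogv1 (by positivity)
    have g00 : 10 ≤ E := by
      rw [hE]
      linarith [abs_nonneg B, Nat.cast_nonneg (α := ℝ) (R k)]
    have g1 : 1 ≤ δ * Real.log X := by linarith
    have g2 : 1 ≤ δ * v := g1.trans (mul_le_mul_of_nonneg_left hlv hδ0.le)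
    rw [inv_le_iff_one_le_mul₀ hv0]
    linarith
  have hmain := hR s X hs hX1' δ hδ0 hδ1 β hβ
  refine hmain.trans ?_
  have hJ0 := JJ_nonneg s X hA'.le m (1 / 2)
  set P : ℝ := X ^ (1 - δ / 64) with hP
  have hP0 : 0 < P := by positivity
  have hvE : v ^ E ≤ X ^ (δ / 1000) := by
    rw [Real.rpow_def_of_pos hv0, Real.rpow_def_of_pos hX0]
    apply Real.exp_le_exp.2
    linarith
  have hvn : ∀ {a : ℝ}, a ≤ E - 2 → v ^ a ≤ v ^ (E - 2) := fun h => vmono hv1 h
  -- term 1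
  have t1 : D * X ^ (11 / 16 : ℝ) ≤ P * v ^ (E - 2) := by
    have g1 : X ^ (11 / 16 : ℝ) ≤ P := Real.rpow_le_rpow_of_exponent_le hXone (by linarith)
    have g2 : v ≤ v ^ (E - 2) := by
      have := hvn (a := 1) (by rw [hE]; linarith [abs_nonneg B, Nat.cast_nonneg (α := ℝ) (R k)])
      rwa [Real.rpow_one] at this
    calc D * X ^ (11 / 16 : ℝ) ≤ v ^ (E - 2) * P := mul_le_mul (hvD.trans g2) g1 (by positivity) (by positivity)
      _ = _ := mul_comm _ _
  -- term 2
  have t2 : D * (X ^ (-δ / 32) * δ⁻¹ * (JJ s X A' m (1 / 2) + X)) ≤ P * v ^ (E - 2) := by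
    have g1 : X ^ (-δ / 32) ≤ X ^ (-(δ / 64)) := Real.rpow_le_rpow_of_exponent_le hXone (by linarith)
    have g2 : JJ s X A' m (1 / 2) + X ≤ X * v ^ (|B| + 1) := by
      have e1 : v ^ B ≤ v ^ |B| := vmono hv1 (le_abs_self _)
      have e2 : 1 ≤ v ^ |B| := Real.one_le_rpow hv1 (abs_nonneg _)
      have e3 : v ^ (|B| + 1) = v ^ |B| * v := Real.rpow_add_one hv0.ne' _
      have e4 : JJ s X A' m (1 / 2) ≤ X * v ^ |B| := hBX.trans (mul_le_mul_of_nonneg_left e1 hX0.le)
      have e5 : X ≤ X * v ^ |B| := le_mul_of_one_le_right hX0.le e2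
      rw [e3]
      have : 0 < X * v ^ |B| := by positivity
      nlinarith
    have g3 : P = X ^ (-(δ / 64)) * X := by
      rw [hP, ← Real.rpow_add_one hX0.ne']
      congr 1
      ring
    have g4 : v * (v * v ^ (|B| + 1)) ≤ v ^ (E - 2) := by
      have e1 : v ^ (|B| + 3) = v * (v * v ^ (|B| + 1)) := by
        have e2 : |B| + 3 = (|B| + 1) + 1 + 1 := by ring
        rw [e2, Real.rpow_add_one hv0.ne', Real.rpow_add_one hv0.ne']
        ring
      rw [← e1]
      exact hvn (by rw [hE]; linarith [Nat.cast_nonneg (α := ℝ) (R k)])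
    calc D * (X ^ (-δ / 32) * δ⁻¹ * (JJ s X A' m (1 / 2) + X))
        ≤ v * (X ^ (-(δ / 64)) * v * (X * v ^ (|B| + 1))) := by
          refine mul_le_mul hvD (mul_le_mul (mul_le_mul g1 hδv (by positivity) (by positivity)) g2 (by positivity)
            (by positivity)) (by positivity) hv0.le
      _ = P * (v * (v * v ^ (|B| + 1))) := by
          rw [g3]
          ring
      _ ≤ _ := mul_le_mul_of_nonneg_left g4 hP0.le
  -- term 3
  have t3 : D * (X * (X ^ (-δ / 64) * (1 + 1 / δ) ^ (R k + 1))) ≤ P * v ^ (E - 2) := by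
    have g1 : 1 + 1 / δ ≤ v ^ (2 : ℝ) := by
      have e : v ^ (2 : ℝ) = v * v := by
        rw [← sq]
        exact_mod_cast rfl
      rw [e, one_div]
      nlinarith
    have g2 : 0 < 1 + 1 / δ := by positivity
    have g3 : P = X * X ^ (-δ / 64) := by
      rw [hP, mul_comm, ← Real.rpow_add_one hX0.ne']
      congr 1
      ring
    have g4 : v * (v ^ (2 : ℝ)) ^ (R k + 1) ≤ v ^ (E - 2) := by
      have e1 : v * (v ^ (2 : ℝ)) ^ (R k + 1) = v ^ (2 * ((R k + 1 : ℕ) : ℝ) + 1) := by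
        rw [Real.rpow_add_one hv0.ne', Real.rpow_mul hv0.le, Real.rpow_natCast]
        ring
      rw [e1]
      exact hvn (by rw [hE]; push_cast; linarith [abs_nonneg B, Nat.cast_nonneg (α := ℝ) (R k)])
    calc D * (X * (X ^ (-δ / 64) * (1 + 1 / δ) ^ (R k + 1)))
        ≤ v * (X * (X ^ (-δ / 64) * (v ^ (2 : ℝ)) ^ (R k + 1))) := by
          refine mul_le_mul hvD (mul_le_mul_of_nonneg_left (mul_le_mul_of_nonneg_left
            (pow_le_pow_left₀ g2.le g1 _) (by positivity)) hX0.le) (by positivity) hv0.le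
      _ = P * (v * (v ^ (2 : ℝ)) ^ (R k + 1)) := by
          rw [g3]
          ring
      _ ≤ _ := mul_le_mul_of_nonneg_left g4 hP0.le
  have hfin : P * v ^ E ≤ X ^ (1 - δ / 100) := by
    calc P * v ^ E ≤ X ^ (1 - δ / 64) * X ^ (δ / 1000) := mul_le_mul_of_nonneg_left hvE hP0.le
      _ = X ^ (1 - δ / 64 + δ / 1000) := by rw [← Real.rpow_add hX0]
      _ ≤ _ := Real.rpow_le_rpow_of_exponent_le hXone (by linarith)
  have hsq : v ^ E = v ^ (E - 2) * (v * v) := by
    have e2 : E = (E - 2) + 1 + 1 := by ring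
    conv_lhs => rw [e2]
    rw [Real.rpow_add_one hv0.ne', Real.rpow_add_one hv0.ne']
    ring
  have h9 : 0 < P * v ^ (E - 2) := by positivity
  have h10 : 3 * (P * v ^ (E - 2)) ≤ P * v ^ E := by
    rw [hsq]
    nlinarith [mul_pos hP0 (Real.rpow_pos_of_pos hv0 (E - 2)), mul_le_mul hv3 hv3 (by norm_num : (0 : ℝ) ≤ 3) hv0.le]
  calc _ = D * X ^ (11 / 16 : ℝ) + D * (X ^ (-δ / 32) * δ⁻¹ * (JJ s X A' m (1 / 2) + X)) +
        D * (X * (X ^ (-δ / 64) * (1 + 1 / δ) ^ (R k + 1))) := by ring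
    _ ≤ 3 * (P * v ^ (E - 2)) := by linarith
    _ ≤ _ := h10.trans hfin

end

end Pool.Agent.U575.NC
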