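import Pool.Agent.U575.NC.Grow

/-! Gaussian weights. -/

set_option autoImplicit false

open Complex Set Filter Topology MeasureTheory

namespace Pool.Agent.U575.NC

open Pool.Agent.N879.QM

noncomputable section

/-- the local moment on the line `σ` -/
def JJ (s : ℤ) (X A : ℝ) (m : ℕ) (σ : ℝ) : ℝ := ∑ q ∈ Q s X, ∫ u in (-A)..A, ‖LL s q (σ + u * I)‖ ^ m

lemma JJ_nonneg (s : ℤ) (X : ℝ) {A : ℝ} (hA : 0 ≤ A) (m : ℕ) (σ : ℝ) : 0 ≤ JJ s X A m σ :=
  Finset.sum_nonneg fun q _ => intervalIntegral.integral_nonneg (by linarith) fun u _ => by positivity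

lemma card_Q (s : ℤ) {X : ℝ} (hX : 1 ≤ X) : ((Q s X).card : ℝ) ≤ X := by
  classical
  have h1 : (Q s X).card ≤ (Finset.Ico 2 ⌈X⌉₊).card := by
    unfold Q
    exact Finset.card_filter_le _ _
  rw [Nat.card_Ico] at h1
  have h4 : ⌈X⌉₊ - 2 ≤ ⌊X⌋₊ := by
    have := Nat.ceil_le_floor_add_one X
    omega
  calc ((Q s X).card : ℝ) ≤ ⌊X⌋₊ := by exact_mod_cast h1.trans h4
    _ ≤ X := Nat.floor_le (by linarith)

lemma gauss_le {K : ℝ} (hK : 1 ≤ K) : ∫ y : ℝ, Real.exp (-K * y ^ 2) ≤ 2 := by
  rw [integral_gaussian]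
  rw [Real.sqrt_le_left (by norm_num)]
  have h1 : Real.pi / K ≤ Real.pi := div_le_self Real.pi_pos.le hK
  have h2 := Real.pi_le_four
  linarith

lemma LL_cont {s : ℤ} {q : ℕ} (h : Is s q) (σ t : ℝ) : Continuous fun y : ℝ => LL s q (σ + (t + y : ℝ) * I) :=
  (LL_diff h).continuous.comp (by fun_prop)

/-- the constants of the far part -/
def fr (m : ℕ) : ℝ := ∫ y : ℝ, (1 + |y|) ^ m * Real.exp (-1 * y ^ 2)

lemma fr_int (m : ℕ) : Integrable fun y : ℝ => (1 + |y|) ^ m * Real.exp (-1 * y ^ 2) := by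
  obtain ⟨D, hD, h⟩ := gauss_pow (K := 1) one_pos m
  refine (integrable_decay.const_mul D).mono' (by fun_prop) (Eventually.of_forall fun y => ?_)
  rw [Real.norm_eq_abs, abs_of_nonneg (by positivity)]
  exact h y

lemma fr_nonneg (m : ℕ) : 0 ≤ fr m := integral_nonneg fun y => by positivity

/-- **the weighted moments are controlled by the local ones** -/
theorem GW (m : ℕ) (A : ℝ) (hA : 0 ≤ A) : ∃ A' D X₁ : ℝ, 0 < A' ∧ 0 ≤ D ∧ 1 < X₁ ∧ ∀ (s : ℤ) (X : ℝ), X₁ ≤ X →
    ∀ σ : ℝ, -1 / 4 ≤ σ → ∀ t : ℕ → ℝ, (∀ q, |t q| ≤ A) →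
      ∑ q ∈ Q s X, ∫ y : ℝ, ‖LL s q (σ + (t q + y : ℝ) * I)‖ ^ m * Real.exp (-(Real.log X / 64) * y ^ 2) ≤
        JJ s X A' m σ + D := by
  obtain ⟨G, hG1, hG⟩ := growth
  set A0 : ℝ := 8 * (m + 1) with hA0
  have hA0p : 0 < A0 := by positivity
  set D : ℝ := (G * (1 + A)) ^ m * Real.exp (A0 ^ 2) * fr m with hD
  have hD0 : 0 ≤ D := by
    have := fr_nonneg m
    positivity
  refine ⟨A + A0, D, Real.exp 64, by positivity, hD0, ?_, fun s X hX σ hσ t ht => ?_⟩
  · have := Real.add_one_le_exp (64 : ℝ)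
    linarith
  have hX1 : 1 ≤ X := by
    have := Real.add_one_le_exp (64 : ℝ)
    linarith
  have hX0 : 0 < X := by linarith
  have hlog : 64 ≤ Real.log X := by
    rw [Real.le_log_iff_exp_le hX0]
    exact hX
  set K : ℝ := Real.log X / 64 with hK
  have hK1 : 1 ≤ K := by
    rw [hK]
    linarith
  -- one conductor
  have hone : ∀ q ∈ Q s X, ∫ y : ℝ, ‖LL s q (σ + (t q + y : ℝ) * I)‖ ^ m * Real.exp (-K * y ^ 2) ≤
      (∫ u in (-(A + A0))..(A + A0), ‖LL s q (σ + u * I)‖ ^ m) + D * X⁻¹ := by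
    intro q hq
    obtain ⟨hq2, hqX, hI⟩ := mem_Q hq
    have hcont := LL_cont hI σ (t q)
    have hgr : ∀ y : ℝ, ‖LL s q (σ + (t q + y : ℝ) * I)‖ ≤ G * X * (1 + A) * (1 + |y|) := by
      intro y
      have h1 := hG s q hI (σ + (t q + y : ℝ) * I) (by simpa using hσ)
      have h2 : ((σ : ℂ) + (t q + y : ℝ) * I).im = t q + y := by simp
      rw [h2] at h1
      have h3 : 1 + |t q + y| ≤ (1 + A) * (1 + |y|) := by
        have := abs_add_le (t q) y
        have := ht q
        nlinarith [abs_nonneg y]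
      calc ‖LL s q (σ + (t q + y : ℝ) * I)‖ ≤ G * (q * (1 + |t q + y|)) := h1
        _ ≤ G * (X * ((1 + A) * (1 + |y|))) := by
            refine mul_le_mul_of_nonneg_left ?_ (by linarith)
            exact mul_le_mul hqX.le h3 (by positivity) hX0.le
        _ = _ := by ring
    set f : ℝ → ℝ := fun y => ‖LL s q (σ + (t q + y : ℝ) * I)‖ ^ m with hf
    have hfc : Continuous f := hcont.norm.pow m
    have hf0 : ∀ y, 0 ≤ f y := fun y => by positivity
    set g : ℝ → ℝ := fun y => (Icc (-A0) A0).indicator f y +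
      (G * X * (1 + A)) ^ m * Real.exp (-(K - 1) * A0 ^ 2) * ((1 + |y|) ^ m * Real.exp (-1 * y ^ 2)) with hg
    have hi1 : Integrable ((Icc (-A0) A0).indicator f) :=
      (hfc.continuousOn.integrableOn_compact isCompact_Icc).integrable_indicator measurableSet_Icc
    have hi2 : Integrable (fun y : ℝ => (G * X * (1 + A)) ^ m * Real.exp (-(K - 1) * A0 ^ 2) *
        ((1 + |y|) ^ m * Real.exp (-1 * y ^ 2))) := (fr_int m).const_mul _
    have hle : ∀ y, f y * Real.exp (-K * y ^ 2) ≤ g y := by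
      intro y
      simp only [hg]
      by_cases hy : y ∈ Icc (-A0) A0
      · rw [indicator_of_mem hy]
        have h1 : Real.exp (-K * y ^ 2) ≤ 1 := by
          rw [Real.exp_le_one_iff]
          have : 0 ≤ K * y ^ 2 := by positivity
          linarith
        have h2 : f y * Real.exp (-K * y ^ 2) ≤ f y * 1 := mul_le_mul_of_nonneg_left h1 (hf0 y)
        have h3 : 0 ≤ (G * X * (1 + A)) ^ m * Real.exp (-(K - 1) * A0 ^ 2) * ((1 + |y|) ^ m * Real.exp (-1 * y ^ 2)) := by
          positivity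
        linarith
      · rw [indicator_of_notMem hy, zero_add]
        have hy2 : A0 ^ 2 ≤ y ^ 2 := by
          rw [mem_Icc, not_and_or, not_le, not_le] at hy
          rcases hy with h | h
          · nlinarith
          · nlinarith
        have h1 : Real.exp (-K * y ^ 2) ≤ Real.exp (-(K - 1) * A0 ^ 2) * Real.exp (-1 * y ^ 2) := by
          rw [← Real.exp_add]
          apply Real.exp_le_exp.2
          nlinarith
        have h2 : f y ≤ (G * X * (1 + A)) ^ m * (1 + |y|) ^ m := by
          rw [← mul_pow]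
          exact pow_le_pow_left₀ (norm_nonneg _) (hgr y) m
        calc f y * Real.exp (-K * y ^ 2) ≤ ((G * X * (1 + A)) ^ m * (1 + |y|) ^ m) *
              (Real.exp (-(K - 1) * A0 ^ 2) * Real.exp (-1 * y ^ 2)) :=
              mul_le_mul h2 h1 (Real.exp_pos _).le (by positivity)
          _ = _ := by ring
    have hgi : Integrable g := hi1.add hi2
    have h1 : ∫ y : ℝ, f y * Real.exp (-K * y ^ 2) ≤ ∫ y : ℝ, g y := by
      apply integral_mono_of_nonneg
      · exact Eventually.of_forall fun y => mul_nonneg (hf0 y) (Real.exp_pos _).le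
      · exact hgi
      · exact Eventually.of_forall hle
    refine h1.trans ?_
    simp only [hg]
    rw [integral_add hi1 hi2, integral_indicator measurableSet_Icc, integral_const_mul]
    refine add_le_add ?_ ?_
    · rw [integral_Icc_eq_integral_Ioc, ← intervalIntegral.integral_of_le (by linarith)]
      have h2 : ∫ y in (-A0)..A0, f y = ∫ u in (t q + -A0)..(t q + A0), ‖LL s q (σ + u * I)‖ ^ m := by
        rw [← intervalIntegral.integral_comp_add_left (fun u : ℝ => ‖LL s q (σ + u * I)‖ ^ m)]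
      rw [h2]
      have h3 := abs_le.1 (ht q)
      have hc2 : Continuous fun u : ℝ => ‖LL s q (σ + u * I)‖ ^ m := by
        have := LL_cont hI σ 0
        simp only [zero_add] at this
        exact this.norm.pow m
      apply intervalIntegral.integral_mono_interval
      · linarith [h3.1]
      · linarith
      · linarith [h3.2]
      · exact Eventually.of_forall fun u => by positivity
      · exact hc2.intervalIntegrable _ _
    · have h2 : Real.exp (-(K - 1) * A0 ^ 2) = Real.exp (A0 ^ 2) * Real.exp (-Real.log X * (m + 1) ^ 2) := by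
        rw [← Real.exp_add]
        congr 1
        rw [hK, hA0]
        ring
      have h3 : Real.exp (-Real.log X * (m + 1) ^ 2) ≤ (X ^ (m + 1))⁻¹ := by
        have h4 : X ^ (m + 1) = Real.exp (Real.log X * (m + 1)) := by
          rw [← Real.rpow_natCast, Real.rpow_def_of_pos hX0]
          push_cast
          rfl
        rw [h4, ← Real.exp_neg]
        apply Real.exp_le_exp.2
        have h5 : (0 : ℝ) ≤ m := Nat.cast_nonneg m
        have h6 : ((m : ℝ) + 1) ≤ (m + 1) ^ 2 := by nlinarith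
        nlinarith
      rw [h2]
      have hG0 : 0 < G := by linarith
      calc (G * X * (1 + A)) ^ m * (Real.exp (A0 ^ 2) * Real.exp (-Real.log X * (m + 1) ^ 2)) * fr m
          ≤ (G * X * (1 + A)) ^ m * (Real.exp (A0 ^ 2) * (X ^ (m + 1))⁻¹) * fr m := by
            have := fr_nonneg m
            gcongr
        _ = D * X⁻¹ := by
            rw [hD, mul_right_comm G X, mul_pow]
            field_simp
            ring
  calc ∑ q ∈ Q s X, ∫ y : ℝ, ‖LL s q (σ + (t q + y : ℝ) * I)‖ ^ m * Real.exp (-K * y ^ 2)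
      ≤ ∑ q ∈ Q s X, ((∫ u in (-(A + A0))..(A + A0), ‖LL s q (σ + u * I)‖ ^ m) + D * X⁻¹) := Finset.sum_le_sum hone
    _ = JJ s X (A + A0) m σ + (Q s X).card * (D * X⁻¹) := by
        rw [Finset.sum_add_distrib, Finset.sum_const, nsmul_eq_mul]
        rfl
    _ ≤ JJ s X (A + A0) m σ + X * (D * X⁻¹) := by
        refine add_le_add le_rfl (mul_le_mul_of_nonneg_right (card_Q s hX1) (by positivity))
    _ = _ := by
        congr 1
        field_simp

/-- products are bounded by powers -/
lemma prod_le_pow {k m : ℕ} (hkm : k ≤ m) (a : Fin k → ℝ) (ha : ∀ j, 0 ≤ a j) :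
    ∏ j, a j ≤ 1 + ∑ j, (1 + a j ^ m) := by
  have h1 : ∀ j, 0 ≤ 1 + a j ^ m := fun j => by
    have := pow_nonneg (ha j) m
    linarith
  rcases Nat.eq_zero_or_pos k with h | h
  · subst h
    simp
  · have : Nonempty (Fin k) := ⟨⟨0, h⟩⟩
    obtain ⟨j0, -, hj0⟩ := Finset.exists_max_image Finset.univ a Finset.univ_nonempty
    have h2 : ∏ j, a j ≤ a j0 ^ k := by
      calc ∏ j, a j ≤ ∏ _j : Fin k, a j0 := Finset.prod_le_prod (fun j _ => ha j) fun j hj => hj0 j hj
        _ = _ := by rw [Finset.prod_const, Finset.card_univ, Fintype.card_fin]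
    have h3 : a j0 ^ k ≤ 1 + a j0 ^ m := by
      rcases le_total (a j0) 1 with h | h
      · have := pow_le_one₀ (n := k) (ha j0) h
        have := pow_nonneg (ha j0) m
        linarith
      · have := pow_le_pow_right₀ h hkm
        linarith
    have h4 : 1 + a j0 ^ m ≤ ∑ j, (1 + a j ^ m) := Finset.single_le_sum (f := fun j => 1 + a j ^ m) (fun j _ => h1 j)
      (Finset.mem_univ j0)
    linarith

end

end Pool.Agent.U575.NC
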